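import Pool.Agent.Lib.MP_c95e9c_lc.CH.Spec

/-!
# MP_c95e9c, CH: module BS2, elementary facts on the chains
-/

set_option autoImplicit false

namespace Pool.Agent.Lib.MPc95e9c.CH

namespace BS2M

theorem nn_nil : nn [] = 5 := rfl

theorem nn_cons (b : Bool) (w : List Bool) : nn (b :: w) = nn w + 4 := by
  simp only [nn, List.length_cons]
  omega

theorem plt (w : List Bool) : pp w < nn w := by
  cases w with
  | nil => show 0 < 5; omega
  | cons b w =>
    rw [nn_cons]
    show nn w + 2 < nn w + 4
    omega

theorem five (w : List Bool) : 5 ≤ nn w := by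
  simp only [nn]
  omega

theorem ed_symm {a b u v : ℕ} (h : ed a b u v) : ed a b v u := by
  unfold ed at h ⊢
  omega

theorem st_symm {b : Bool} {p x u v : ℕ} (h : st b p x u v) : st b p x v u := by
  unfold st at h ⊢
  rcases h with h | h | h | h | h | ⟨hb, h⟩
  · exact Or.inl (ed_symm h)
  · exact Or.inr (Or.inl (ed_symm h))
  · exact Or.inr (Or.inr (Or.inl (ed_symm h)))
  · exact Or.inr (Or.inr (Or.inr (Or.inl (ed_symm h))))
  · exact Or.inr (Or.inr (Or.inr (Or.inr (Or.inl (ed_symm h)))))
  · refine Or.inr (Or.inr (Or.inr (Or.inr (Or.inr ⟨hb, ?_⟩))))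
    rcases h with h | h
    · exact Or.inl (ed_symm h)
    · exact Or.inr (ed_symm h)

theorem st_bnd {b : Bool} {p x u v : ℕ} (hp : p < x) (h : st b p x u v) :
    u < x + 4 ∧ v < x + 4 := by
  unfold st ed at h
  rcases h with h | h | h | h | h | ⟨-, h⟩ <;> omega

theorem st_irr {b : Bool} {p x u : ℕ} (hp : p < x) : ¬ st b p x u u := by
  intro h
  unfold st ed at h
  rcases h with h | h | h | h | h | ⟨-, h⟩ <;> omega

theorem rt_symm {p n u v : ℕ} (h : rt p n u v) : rt p n v u := by
  unfold rt at h ⊢
  rcases h with h | h | h | h | h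
  · exact Or.inl (ed_symm h)
  · exact Or.inr (Or.inl (ed_symm h))
  · exact Or.inr (Or.inr (Or.inl (ed_symm h)))
  · exact Or.inr (Or.inr (Or.inr (Or.inl (ed_symm h))))
  · exact Or.inr (Or.inr (Or.inr (Or.inr (ed_symm h))))

theorem rt_bnd {p n u v : ℕ} (hp : p < n) (h : rt p n u v) : u < n + 5 ∧ v < n + 5 := by
  unfold rt ed at h
  omega

theorem rt_irr {p n u : ℕ} (hp : p < n) : ¬ rt p n u u := by
  intro h
  unfold rt ed at h
  omega

theorem bnd (w : List Bool) : ∀ u v, EE w u v → u < nn w ∧ v < nn w := by
  induction w with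
  | nil =>
    intro u v h
    unfold EE ed at h
    rw [nn_nil]
    omega
  | cons b w ih =>
    intro u v h
    rw [nn_cons]
    unfold EE at h
    rcases h with h | h
    · have := ih u v h
      omega
    · exact st_bnd (plt w) h

theorem sym (w : List Bool) : ∀ u v, EE w u v → EE w v u := by
  induction w with
  | nil =>
    intro u v h
    unfold EE ed at h ⊢
    omega
  | cons b w ih =>
    intro u v h
    unfold EE at h ⊢
    rcases h with h | h
    · exact Or.inl (ih u v h)
    · exact Or.inr (st_symm h)

theorem irr (w : List Bool) : ∀ u, ¬ EE w u u := by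
  induction w with
  | nil =>
    intro u h
    unfold EE ed at h
    omega
  | cons b w ih =>
    intro u h
    unfold EE at h
    rcases h with h | h
    · exact ih u h
    · exact st_irr (plt w) h

theorem bndF (w : List Bool) (u v : ℕ) (h : EF w u v) : u < nn w + 5 ∧ v < nn w + 5 := by
  unfold EF at h
  rcases h with h | h
  · have := bnd w u v h
    omega
  · exact rt_bnd (plt w) h

theorem symF (w : List Bool) (u v : ℕ) (h : EF w u v) : EF w v u := by
  unfold EF at h ⊢
  rcases h with h | h
  · exact Or.inl (sym w u v h)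
  · exact Or.inr (rt_symm h)

theorem irrF (w : List Bool) (u : ℕ) : ¬ EF w u u := by
  intro h
  unfold EF at h
  rcases h with h | h
  · exact irr w u h
  · exact rt_irr (plt w) h

end BS2M

open BS2M in
theorem specBS2 : SpecBS2 where
  plt := plt
  pne := by
    intro w
    cases w with
    | nil => exact ⟨by show (0 : ℕ) ≠ 1; omega, by show (0 : ℕ) ≠ 2; omega,
        by show (0 : ℕ) ≠ 3; omega, by show (0 : ℕ) ≠ 4; omega⟩
    | cons b w =>
      have h := five w
      have h1 : pp (b :: w) = nn w + 2 := rfl
      rw [h1]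
      omega
  bnd := bnd
  sym := sym
  irr := irr
  bndF := bndF
  symF := symF
  irrF := irrF
  adjG := by
    intro n w u v
    unfold GG
    rw [SimpleGraph.fromRel_adj]
    constructor
    · rintro ⟨-, h | h⟩
      · exact h
      · exact symF w _ _ h
    · intro h
      refine ⟨?_, Or.inl h⟩
      intro huv
      rw [huv] at h
      exact irrF w _ h

end Pool.Agent.Lib.MPc95e9c.CH
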