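import Pool.Agent.Lib.MP_c95e9c_lc.CH.Spec

/-!
# MP_c95e9c, module CT2: the number of vertices in some levels
-/

set_option autoImplicit false

namespace Pool.Agent.Lib.MPc95e9c.CH

namespace CT2M

/-- the level of the exit -/
def tt (w : List Bool) : ℕ := DD w (pp w)

/-- the number of vertices of level `L` -/
def cn (w : List Bool) (L : ℕ) : ℕ := ∑ v ∈ Finset.range (nn w), if DD w v = L then 1 else 0

lemma nn_cons (b : Bool) (w : List Bool) : nn (b :: w) = nn w + 4 := by
  unfold nn
  rw [List.length_cons]
  ring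

lemma DD_lt (b : Bool) (w : List Bool) (v : ℕ) (hv : v < nn w) : DD (b :: w) v = DD w v := by
  simp [DD, hv]

lemma F0 (w : List Bool) : DD (false :: w) (nn w) = tt w + 1 := by simp [DD, tt]
lemma F1 (w : List Bool) : DD (false :: w) (nn w + 1) = tt w + 2 := by simp [DD, tt]
lemma F2 (w : List Bool) : DD (false :: w) (nn w + 2) = tt w + 2 := by simp [DD, tt]
lemma F3 (w : List Bool) : DD (false :: w) (nn w + 3) = tt w + 3 := by simp [DD, tt]

lemma T0 (w : List Bool) (h : DD w (pp w - 1) = tt w) : DD (true :: w) (nn w) = tt w + 1 := by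
  have h' : DD w (pp w - 1) = DD w (pp w) := h
  simp [DD, tt, h']
lemma T1 (w : List Bool) (h : DD w (pp w - 1) = tt w) : DD (true :: w) (nn w + 1) = tt w + 1 := by
  have h' : DD w (pp w - 1) = DD w (pp w) := h
  simp [DD, tt, h']
lemma T2 (w : List Bool) (h : DD w (pp w - 1) = tt w) : DD (true :: w) (nn w + 2) = tt w + 2 := by
  have h' : DD w (pp w - 1) = DD w (pp w) := h
  simp [DD, tt, h']
lemma T3 (w : List Bool) (h : DD w (pp w - 1) = tt w) : DD (true :: w) (nn w + 3) = tt w + 2 := by
  have h' : DD w (pp w - 1) = DD w (pp w) := h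
  simp [DD, tt, h']

lemma tt_F (w : List Bool) : tt (false :: w) = tt w + 2 := F2 w
lemma tt_T (w : List Bool) (h : DD w (pp w - 1) = tt w) : tt (true :: w) = tt w + 2 := T2 w h

lemma pre_F (w : List Bool) : DD (false :: w) (pp (false :: w) - 1) = tt (false :: w) := by
  have h : pp (false :: w) - 1 = nn w + 1 := rfl
  rw [h, F1, tt_F]

lemma old_sum (b : Bool) (w : List Bool) (L : ℕ) :
    (∑ v ∈ Finset.range (nn w), if DD (b :: w) v = L then 1 else 0) = cn w L := by
  unfold cn
  apply Finset.sum_congr rfl
  intro v hv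
  rw [DD_lt b w v (Finset.mem_range.1 hv)]

lemma cn_F (w : List Bool) (L : ℕ) : cn (false :: w) L =
    cn w L + (if tt w + 1 = L then 1 else 0) + (if tt w + 2 = L then 1 else 0) +
      (if tt w + 2 = L then 1 else 0) + (if tt w + 3 = L then 1 else 0) := by
  have h : cn (false :: w) L =
      ∑ v ∈ Finset.range (nn w + 4), if DD (false :: w) v = L then 1 else 0 := by
    unfold cn
    rw [nn_cons]
  rw [h, Finset.sum_range_succ, Finset.sum_range_succ, Finset.sum_range_succ,
    Finset.sum_range_succ, old_sum, F0, F1, F2, F3]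

lemma cn_T (w : List Bool) (hw : DD w (pp w - 1) = tt w) (L : ℕ) : cn (true :: w) L =
    cn w L + (if tt w + 1 = L then 1 else 0) + (if tt w + 1 = L then 1 else 0) +
      (if tt w + 2 = L then 1 else 0) + (if tt w + 2 = L then 1 else 0) := by
  have h : cn (true :: w) L =
      ∑ v ∈ Finset.range (nn w + 4), if DD (true :: w) v = L then 1 else 0 := by
    unfold cn
    rw [nn_cons]
  rw [h, Finset.sum_range_succ, Finset.sum_range_succ, Finset.sum_range_succ,
    Finset.sum_range_succ, old_sum, T0 w hw, T1 w hw, T2 w hw, T3 w hw]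

/-- all levels are at most one more than that of the exit -/
def UB (w : List Bool) : Prop := ∀ v < nn w, DD w v ≤ tt w + 1

lemma UB_F (w : List Bool) (h : UB w) : UB (false :: w) := by
  intro v hv
  rw [tt_F]
  rw [nn_cons] at hv
  by_cases h1 : v < nn w
  · rw [DD_lt _ _ _ h1]
    have := h v h1
    omega
  · rcases (show v = nn w ∨ v = nn w + 1 ∨ v = nn w + 2 ∨ v = nn w + 3 by omega) with
      h2 | h2 | h2 | h2
    · rw [h2, F0]; omega
    · rw [h2, F1]; omega
    · rw [h2, F2]; omega
    · rw [h2, F3]

lemma UB_T (w : List Bool) (hw : DD w (pp w - 1) = tt w) (h : UB w) : UB (true :: w) := by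
  intro v hv
  rw [tt_T w hw]
  rw [nn_cons] at hv
  by_cases h1 : v < nn w
  · rw [DD_lt _ _ _ h1]
    have := h v h1
    omega
  · rcases (show v = nn w ∨ v = nn w + 1 ∨ v = nn w + 2 ∨ v = nn w + 3 by omega) with
      h2 | h2 | h2 | h2
    · rw [h2, T0 w hw]; omega
    · rw [h2, T1 w hw]; omega
    · rw [h2, T2 w hw]; omega
    · rw [h2, T3 w hw]; omega

lemma UB_rep (k : ℕ) : UB (List.replicate (k + 1) false) := by
  induction k with
  | zero =>
    intro v hv
    have hv' : v < 9 := hv
    have ht : tt (List.replicate 1 false) = 2 := rfl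
    rw [ht]
    interval_cases v <;> decide
  | succ k ih =>
    rw [List.replicate_succ]
    exact UB_F _ ih

lemma tt_rep (k : ℕ) : tt (List.replicate k false) = 2 * k := by
  induction k with
  | zero => rfl
  | succ k ih =>
    rw [List.replicate_succ, tt_F, ih]
    ring

lemma cn_zero (w : List Bool) (h : UB w) (L : ℕ) (hL : tt w + 1 < L) : cn w L = 0 := by
  unfold cn
  apply Finset.sum_eq_zero
  intro v hv
  have := h v (Finset.mem_range.1 hv)
  rw [if_neg (by omega)]

lemma wd_facts (k : ℕ) (hk : 1 ≤ k) (bs : List Bool) :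
    UB (wd k bs) ∧ tt (wd k bs) = 2 * k + 4 * bs.length := by
  induction bs with
  | nil =>
    obtain ⟨k', rfl⟩ : ∃ k', k = k' + 1 := ⟨k - 1, by omega⟩
    exact ⟨UB_rep k', by rw [List.length_nil]; exact tt_rep _⟩
  | cons b bs ih =>
    obtain ⟨h1, h2⟩ := ih
    cases b with
    | false =>
      refine ⟨UB_F _ (UB_F _ h1), ?_⟩
      show tt (false :: false :: wd k bs) = _
      rw [tt_F, tt_F, h2, List.length_cons]
      ring
    | true =>
      refine ⟨UB_T _ (pre_F _) (UB_F _ h1), ?_⟩
      show tt (true :: false :: wd k bs) = _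
      rw [tt_T _ (pre_F _), tt_F, h2, List.length_cons]
      ring

lemma main (k : ℕ) (hk : 1 ≤ k) (bs : List Bool) : ∀ (j : ℕ) (hj : j < bs.length),
    cn (wd k bs) (2 * k + 4 * (bs.length - 1 - j) + 3) = 2 + (bs[j]).toNat := by
  induction bs with
  | nil =>
    intro j hj
    exact absurd hj (by simp)
  | cons b bs ih =>
    intro j hj
    obtain ⟨h1, h2⟩ := wd_facts k hk bs
    have hlen : (b :: bs).length = bs.length + 1 := List.length_cons
    have hj' : j < bs.length + 1 := by
      rw [← hlen]
      exact hj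
    set u := wd k bs with hu
    cases j with
    | zero =>
      have hL : 2 * k + 4 * ((b :: bs).length - 1 - 0) + 3 = tt u + 3 := by
        rw [hlen, h2]
        simp
      rw [hL]
      have h0 : cn u (tt u + 3) = 0 := cn_zero u h1 _ (by omega)
      cases b with
      | false =>
        show cn (false :: false :: u) (tt u + 3) = 2 + (false).toNat
        rw [cn_F, cn_F, tt_F, h0]
        simp
      | true =>
        show cn (true :: false :: u) (tt u + 3) = 2 + (true).toNat
        rw [cn_T _ (pre_F _), cn_F, tt_F, h0]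
        simp
    | succ j =>
      have hj2 : j < bs.length := by omega
      have hL : 2 * k + 4 * ((b :: bs).length - 1 - (j + 1)) + 3 =
          2 * k + 4 * (bs.length - 1 - j) + 3 := by
        rw [hlen]
        congr 3
        omega
      rw [hL]
      have h3 := ih j hj2
      set L := 2 * k + 4 * (bs.length - 1 - j) + 3 with hLdef
      have hLt : L < tt u := by
        rw [h2]
        omega
      have e1 : ¬ (tt u + 1 = L) := by omega
      have e2 : ¬ (tt u + 2 = L) := by omega
      have e3 : ¬ (tt u + 3 = L) := by omega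
      have e5 : ¬ (tt u + 2 + 2 = L) := by omega
      have e6 : ¬ (tt u + 2 + 3 = L) := by omega
      cases b with
      | false =>
        show cn (false :: false :: u) L = 2 + (bs[j]).toNat
        rw [cn_F, cn_F, tt_F, ← h3]
        simp only [e1, e2, e3, e5, e6, if_false, Nat.add_zero]
      | true =>
        show cn (true :: false :: u) L = 2 + (bs[j]).toNat
        rw [cn_T _ (pre_F _), cn_F, tt_F, ← h3]
        simp only [e1, e2, e3, e5, if_false, Nat.add_zero]

end CT2M

open CT2M in
theorem specCT2 (_hBS2 : SpecBS2) : SpecCT2 := by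
  intro k bs j hj
  obtain ⟨h1, h2⟩ := wd_facts (k + 1) (by omega) bs
  have h3 := main (k + 1) (by omega) bs j hj
  have hWW : WW k bs = true :: false :: wd (k + 1) bs := rfl
  set u := wd (k + 1) bs with hu
  set L := 2 * (k + 1) + 4 * (bs.length - 1 - j) + 3 with hL
  have hLt : L < tt u := by
    rw [h2]
    omega
  have htt : tt (WW k bs) = tt u + 4 := by
    rw [hWW, tt_T _ (pre_F _), tt_F]
  rw [Finset.card_filter, Finset.sum_range_succ, Finset.sum_range_succ, Finset.sum_range_succ,
    Finset.sum_range_succ, Finset.sum_range_succ]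
  have e0 : (∑ v ∈ Finset.range (nn (WW k bs)), if DF (WW k bs) v = L then 1 else 0) =
      cn (WW k bs) L := by
    unfold cn
    apply Finset.sum_congr rfl
    intro v hv
    have hv' := Finset.mem_range.1 hv
    have : DF (WW k bs) v = DD (WW k bs) v := by
      unfold DF
      rw [if_pos hv']
    rw [this]
  have hge : ∀ i, tt (WW k bs) < DF (WW k bs) (nn (WW k bs) + i) := by
    intro i
    have ht : tt (WW k bs) = DD (WW k bs) (pp (WW k bs)) := rfl
    unfold DF
    rw [if_neg (by omega), ht]
    split_ifs <;> omega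
  have hn : ∀ i, ¬ (DF (WW k bs) (nn (WW k bs) + i) = L) := by
    intro i
    have := hge i
    omega
  have hn0 : ¬ (DF (WW k bs) (nn (WW k bs)) = L) := hn 0
  have e1 : ¬ (tt u + 1 = L) := by omega
  have e2 : ¬ (tt u + 2 = L) := by omega
  have e3 : ¬ (tt u + 3 = L) := by omega
  have e5 : ¬ (tt u + 2 + 2 = L) := by omega
  have hcn : cn (WW k bs) L = cn u L := by
    rw [hWW, cn_T _ (pre_F _), cn_F, tt_F]
    simp only [e1, e2, e3, e5, if_false, Nat.add_zero]
  rw [e0, if_neg hn0, if_neg (hn 1), if_neg (hn 2), if_neg (hn 3), if_neg (hn 4), hcn, h3]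
  simp only [Nat.add_zero]

end Pool.Agent.Lib.MPc95e9c.CH
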