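import Pool.Agent.Lib.MP_c95e9c_lc.CH.Spec

/-!
# EN2: the right end (adapted from OB/END.lean)
-/

set_option autoImplicit false

namespace Pool.Agent.Lib.MPc95e9c.CH

namespace EN2M

/-- adjacency of the new vertices -/
def Adj5 (i j : ℕ) : Prop :=
  (i = 0 ∧ j = 1) ∨ (i = 1 ∧ j = 0) ∨ (i = 1 ∧ j = 2) ∨ (i = 2 ∧ j = 1) ∨
    (i = 0 ∧ j = 3) ∨ (i = 3 ∧ j = 0) ∨ (i = 3 ∧ j = 4) ∨ (i = 4 ∧ j = 3)

instance (i j : ℕ) : Decidable (Adj5 i j) := by unfold Adj5; infer_instance

/-- positive coordinates -/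
def K1 (T : ℕ → Bool) (A B : ℕ → ℕ) : Prop := ∀ i < 5, T i = true → 0 < A i ∧ A i ≤ B i

/-- the new non-probes are independent, one pair -/
def K2a (T U : ℕ → Bool) (i j : ℕ) : Prop :=
  T i = true → T j = true → U i = true → U j = true → ¬ Adj5 i j

instance (T U : ℕ → Bool) (i j : ℕ) : Decidable (K2a T U i j) := by unfold K2a; infer_instance

/-- the new non-probes are independent -/
def K2 (T U : ℕ → Bool) : Prop := ∀ i < 5, ∀ j < 5, K2a T U i j

/-- the entry and the new non-probes are independent -/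
def K3 (T U : ℕ → Bool) (s n : Bool) : Prop :=
  s = true → n = true → ∀ i < 5, T i = true → U i = true → i ≠ 0

/-- the intervals of the new vertices, one pair -/
def K4a (T U : ℕ → Bool) (A B : ℕ → ℕ) (i j : ℕ) : Prop :=
  T i = true → T j = true → i ≠ j → ¬ (U i = true ∧ U j = true) →
    (Adj5 i j ↔ A i ≤ B j ∧ A j ≤ B i)

instance (T U : ℕ → Bool) (A B : ℕ → ℕ) (i j : ℕ) : Decidable (K4a T U A B i j) := by
  unfold K4a; infer_instance

/-- the intervals of the new vertices -/
def K4 (T U : ℕ → Bool) (A B : ℕ → ℕ) : Prop := ∀ i < 5, ∀ j < 5, K4a T U A B i j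

/-- the interval of the entry -/
def K5 (T U : ℕ → Bool) (A : ℕ → ℕ) (e : ℕ) (s n : Bool) : Prop :=
  s = true → ∀ i < 5, T i = true → ¬ (n = true ∧ U i = true) → (i = 0 ↔ A i ≤ e)

instance (T : ℕ → Bool) (A B : ℕ → ℕ) : Decidable (K1 T A B) := by unfold K1; infer_instance
instance (T U : ℕ → Bool) : Decidable (K2 T U) := by unfold K2; infer_instance
instance (T U : ℕ → Bool) (s n : Bool) : Decidable (K3 T U s n) := by unfold K3; infer_instance
instance (T U : ℕ → Bool) (A B : ℕ → ℕ) : Decidable (K4 T U A B) := by unfold K4; infer_instance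
instance (T U : ℕ → Bool) (A : ℕ → ℕ) (e : ℕ) (s n : Bool) : Decidable (K5 T U A e s n) := by
  unfold K5; infer_instance

/-- the conditions on the coordinates; `T` the new vertices present, `U` the new non-probes, `s`: is the entry present, `n`: is
it a non-probe -/
def Chk (T U : ℕ → Bool) (A B : ℕ → ℕ) (e : ℕ) (s n : Bool) : Prop :=
  K1 T A B ∧ K2 T U ∧ K3 T U s n ∧ K4 T U A B ∧ K5 T U A e s n

instance (T U : ℕ → Bool) (A B : ℕ → ℕ) (e : ℕ) (s n : Bool) : Decidable (Chk T U A B e s n) := by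
  unfold Chk; infer_instance

/-- the new vertices -/
def TT (x : ℕ) (T : ℕ → Bool) : Set ℕ := {v | ∃ i < 5, T i = true ∧ v = x + i}

lemma rt_iff {p x i j : ℕ} (h : p < x) (hi : i < 5) (hj : j < 5) :
    rt p x (x + i) (x + j) ↔ Adj5 i j := by
  unfold rt ed Adj5
  omega

lemma glue (hBS2 : SpecBS2) (hGLU : Pool.Agent.Lib.MPc95e9c.SpecGLU) (w : List Bool) (S N : Set ℕ) (l r : ℕ → ℝ) (M : ℝ)
    (T U : ℕ → Bool) (A B : ℕ → ℕ) (e : ℕ) (s n : Bool) (hS : S ⊆ Vw w)
    (hR : Rp (EE w) S N l r) (h1 : ∀ v ∈ S, v ≠ pp w → r v < M) (h2 : pp w ∈ S → r (pp w) = M)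
    (hs : pp w ∈ S → s = true) (hn : pp w ∈ S → (pp w ∈ N ↔ n = true)) (hC : Chk T U A B e s n)
    (S' : Set ℕ) (hS' : S' = S ∪ TT (nn w) T) : Pl (EF w) S' := by
  obtain ⟨c1, c2, c3, c4, c5⟩ := hC
  have hp := hBS2.plt w
  have hE : ∀ u v, EF w u v ↔ EE w u v ∨ rt (pp w) (nn w) u v := fun u v => Iff.rfl
  have hSl : ∀ v ∈ S, v < nn w := fun v hv => hS hv
  have key := hGLU (EE w) (EF w) S (TT (nn w) T) N (TT (nn w) U) l r
    (fun v => (A (v - nn w) : ℝ)) (fun v => (B (v - nn w) : ℝ)) (pp w) M (e : ℝ) hR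
    (by
      rw [Set.disjoint_left]
      rintro v hv ⟨i, hi, -, rfl⟩
      have := hSl _ hv
      omega)
    (by
      rintro ⟨i, hi, -, h⟩
      omega)
    h1 h2 (Nat.cast_nonneg e) (fun u v => hBS2.symF w u v)
    (by
      intro u hu v hv
      have a1 := hSl u hu
      have a2 := hSl v hv
      rw [hE]
      constructor
      · rintro (h | h)
        · exact h
        · exfalso
          unfold rt ed at h
          omega
      · exact Or.inl)
    (by
      rintro u hu hup v ⟨i, hi, -, rfl⟩ h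
      have a1 := hSl u hu
      rw [hE] at h
      rcases h with h | h
      · have := (hBS2.bnd w _ _ h).2
        omega
      · unfold rt ed at h
        omega)
    (by
      rintro v ⟨i, hi, hTi, rfl⟩
      simp only [Nat.add_sub_cancel_left]
      have := c1 i hi hTi
      exact ⟨by exact_mod_cast this.1, by exact_mod_cast this.2⟩)
    (by
      rintro u ⟨i, hi, hTi, rfl⟩ v ⟨j, hj, hTj, rfl⟩ ⟨i', hi', hUi, ei⟩ ⟨j', hj', hUj, ej⟩ h
      have ei' : i' = i := by omega
      have ej' : j' = j := by omega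
      subst ei' ej'
      rw [hE] at h
      rcases h with h | h
      · have := (hBS2.bnd w _ _ h).2
        omega
      · exact c2 i' hi j' hj hTi hTj hUi hUj ((rt_iff hp hi hj).1 h))
    (by
      rintro hpS hpN v ⟨i, hi, hTi, rfl⟩ ⟨i', hi', hUi, ei⟩ h
      have ei' : i' = i := by omega
      subst ei'
      rw [hE] at h
      rcases h with h | h
      · have := (hBS2.bnd w _ _ h).2
        omega
      · have h2 := c3 (hs hpS) ((hn hpS).1 hpN) i' hi hTi hUi
        unfold rt ed at h
        omega)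
    (by
      rintro u ⟨i, hi, hTi, rfl⟩ v ⟨j, hj, hTj, rfl⟩ huv hnn
      simp only [Nat.add_sub_cancel_left]
      have hij : i ≠ j := by rintro rfl; exact huv rfl
      have hU : ¬ (U i = true ∧ U j = true) := by
        rintro ⟨q1, q2⟩
        exact hnn ⟨⟨i, hi, q1, rfl⟩, ⟨j, hj, q2, rfl⟩⟩
      have h4 := c4 i hi j hj hTi hTj hij hU
      rw [hE]
      constructor
      · rintro (h | h)
        · exfalso
          have := (hBS2.bnd w _ _ h).2
          omega
        · have := h4.1 ((rt_iff hp hi hj).1 h)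
          exact ⟨by exact_mod_cast this.1, by exact_mod_cast this.2⟩
      · rintro ⟨q1, q2⟩
        exact Or.inr ((rt_iff hp hi hj).2 (h4.2 ⟨by exact_mod_cast q1, by exact_mod_cast q2⟩)))
    (by
      rintro hpS v ⟨i, hi, hTi, rfl⟩ hnn
      simp only [Nat.add_sub_cancel_left]
      have hU : ¬ (n = true ∧ U i = true) := by
        rintro ⟨q1, q2⟩
        exact hnn ⟨(hn hpS).2 q1, ⟨i, hi, q2, rfl⟩⟩
      have h5 := c5 (hs hpS) i hi hTi hU
      rw [hE]
      constructor
      · rintro (h | h)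
        · exfalso
          have := (hBS2.bnd w _ _ h).2
          omega
        · have h6 : i = 0 := by
            unfold rt ed at h
            omega
          exact_mod_cast h5.1 h6
      · intro q
        have h6 : i = 0 := h5.2 (by exact_mod_cast q)
        right
        unfold rt ed
        omega)
  obtain ⟨N', l', r', k1, -⟩ := key
  subst hS'
  exact ⟨N', l', r', k1⟩

/-- coordinates -/
def A1 : ℕ → ℕ := fun i => if i = 0 then 1 else if i = 1 then 2 else if i = 2 then 3 else if i = 3 then 20 else 21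
def B1 : ℕ → ℕ := fun i => if i = 0 then 20 else if i = 1 then 3 else if i = 2 then 4 else if i = 3 then 21 else 22
def A2 : ℕ → ℕ := fun i => if i = 0 then 1 else if i = 1 then 2 else if i = 2 then 30 else if i = 3 then 20 else 21
def B2 : ℕ → ℕ := fun i => if i = 0 then 20 else if i = 1 then 3 else if i = 2 then 31 else if i = 3 then 21 else 22
def A3 : ℕ → ℕ := fun i => if i = 0 then 1 else if i = 1 then 20 else if i = 2 then 21 else if i = 3 then 2 else 30
def B3 : ℕ → ℕ := fun i => if i = 0 then 20 else if i = 1 then 21 else if i = 2 then 22 else if i = 3 then 3 else 31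

lemma bound (w : List Bool) (r : ℕ → ℝ) : ∃ M : ℝ, ∀ v ∈ Vw w, r v < M := by
  obtain ⟨M, hM⟩ := ((Set.finite_lt_nat (nn w)).image r).bddAbove
  refine ⟨M + 1, fun v hv => ?_⟩
  have := hM ⟨v, hv, rfl⟩
  linarith

lemma set_old (w : List Bool) (u : ℕ) (hu : u < nn w) :
    {v | v < nn w + 5} \ {u} = (Vw w \ {u}) ∪ TT (nn w) (fun _ => true) := by
  ext v
  simp only [Vw, Set.mem_ofPred_eq, Set.mem_sdiff, Set.mem_singleton_iff, Set.mem_union, TT]
  constructor
  · rintro ⟨h1, h2⟩
    by_cases h3 : v < nn w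
    · exact Or.inl ⟨h3, h2⟩
    · exact Or.inr ⟨v - nn w, by omega, trivial, by omega⟩
  · rintro (⟨h1, h2⟩ | ⟨i, hi, -, rfl⟩)
    · exact ⟨by omega, h2⟩
    · exact ⟨by omega, by omega⟩

lemma set_new (w : List Bool) (k : ℕ) :
    {v | v < nn w + 5} \ {nn w + k} = Vw w ∪ TT (nn w) (fun i => decide (i ≠ k)) := by
  ext v
  simp only [Vw, Set.mem_ofPred_eq, Set.mem_sdiff, Set.mem_singleton_iff, Set.mem_union, TT,
    decide_eq_true_eq]
  constructor
  · rintro ⟨h1, h2⟩
    by_cases h3 : v < nn w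
    · exact Or.inl h3
    · exact Or.inr ⟨v - nn w, by omega, by omega, by omega⟩
  · rintro (h1 | ⟨i, hi, h2, rfl⟩)
    · exact ⟨by omega, by omega⟩
    · exact ⟨by omega, by omega⟩

end EN2M

open EN2M in
theorem specEN2 (hBS2 : SpecBS2) (hGLU : Pool.Agent.Lib.MPc95e9c.SpecGLU) : SpecEN2 := by
  intro w hI u hu
  have hp := hBS2.plt w
  by_cases hux : u < nn w
  · by_cases hupp : u = pp w
    · subst hupp
      obtain ⟨N, l, r, hR⟩ := hI.pdel
      obtain ⟨M, hM⟩ := bound w r
      exact glue hBS2 hGLU w (Vw w \ {pp w}) N l r M (fun _ => true) (fun i => decide (i = 0 ∨ i = 2)) A1 B1 1 false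
        false Set.sdiff_subset hR (fun v hv _ => hM v hv.1) (fun h => absurd rfl h.2)
        (fun h => absurd rfl h.2) (fun h => absurd rfl h.2) (by decide) _ (set_old w _ hux)
    · obtain ⟨N, l, r, hR, hp', hN, hlast, -⟩ := hI.del u hux hupp
      have hN' : pp w ∈ N ↔ false = true := by rw [hN]
      exact glue hBS2 hGLU w (Vw w \ {u}) N l r (r (pp w)) (fun _ => true)
        (fun i => decide (i = 0 ∨ i = 2)) A1 B1 1 true false Set.sdiff_subset hR hlast (fun _ => rfl)
        (fun _ => rfl) (fun _ => hN') (by decide) _ (set_old w _ hux)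
  · obtain ⟨N, l, r, hR, hp', hN, hlast, -⟩ := hI.full
    have hu5 : u = nn w + 0 ∨ u = nn w + 1 ∨ u = nn w + 2 ∨ u = nn w + 3 ∨ u = nn w + 4 := by omega
    rcases hu5 with rfl | rfl | rfl | rfl | rfl
    · exact glue hBS2 hGLU w (Vw w) N l r (r (pp w)) (fun i => decide (i ≠ 0)) (fun _ => false) A1 B1 1
        true true le_rfl hR hlast (fun _ => rfl) (fun _ => rfl) (fun _ => hN) (by decide) _
        (set_new w 0)
    · exact glue hBS2 hGLU w (Vw w) N l r (r (pp w)) (fun i => decide (i ≠ 1)) (fun _ => false) A2 B2 1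
        true true le_rfl hR hlast (fun _ => rfl) (fun _ => rfl) (fun _ => hN) (by decide) _
        (set_new w 1)
    · exact glue hBS2 hGLU w (Vw w) N l r (r (pp w)) (fun i => decide (i ≠ 2)) (fun _ => false) A1 B1 1
        true true le_rfl hR hlast (fun _ => rfl) (fun _ => rfl) (fun _ => hN) (by decide) _
        (set_new w 2)
    · exact glue hBS2 hGLU w (Vw w) N l r (r (pp w)) (fun i => decide (i ≠ 3)) (fun _ => false) A3 B3 1
        true true le_rfl hR hlast (fun _ => rfl) (fun _ => rfl) (fun _ => hN) (by decide) _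
        (set_new w 3)
    · exact glue hBS2 hGLU w (Vw w) N l r (r (pp w)) (fun i => decide (i ≠ 4)) (fun _ => false) A3 B3 1
        true true le_rfl hR hlast (fun _ => rfl) (fun _ => rfl) (fun _ => hN) (by decide) _
        (set_new w 4)

end Pool.Agent.Lib.MPc95e9c.CH
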