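import Pool.Agent.Lib.MP_c95e9c_lc.CH.Spec

/-!
# MP_c95e9c, CH, module FI2
-/

set_option autoImplicit false

namespace Pool.Agent.Lib.MPc95e9c.CH

open Pool.Agent.Lib.MPc95e9c

namespace FI2M

lemma card_eq (n : ℕ) (D D' : ℕ → ℕ) (φ : Fin n ≃ Fin n) (h : ∀ v : Fin n, D' (φ v) = D v)
    (t : ℕ) : ((Finset.range n).filter (fun v => D v = t)).card =
      ((Finset.range n).filter (fun v => D' v = t)).card := by
  apply Finset.card_bij
    (fun v hv => (φ ⟨v, Finset.mem_range.1 (Finset.mem_filter.1 hv).1⟩ : ℕ))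
  · intro v hv
    rw [Finset.mem_filter, Finset.mem_range]
    refine ⟨(φ _).2, ?_⟩
    rw [h]
    exact (Finset.mem_filter.1 hv).2
  · intro a ha b hb hab
    have h1 := φ.injective (Fin.ext hab)
    exact Fin.mk.inj_iff.1 h1
  · intro b hb
    have hb1 := Finset.mem_range.1 (Finset.mem_filter.1 hb).1
    have hb2 := (Finset.mem_filter.1 hb).2
    refine ⟨(φ.symm ⟨b, hb1⟩ : ℕ), ?_, ?_⟩
    · rw [Finset.mem_filter, Finset.mem_range]
      refine ⟨(φ.symm ⟨b, hb1⟩).2, ?_⟩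
      rw [← h, Equiv.apply_symm_apply]
      exact hb2
    · simp

end FI2M

open FI2M in
theorem specFI2 (hMI2 : SpecMI2) (hLIS : Pool.Agent.Lib.MPc95e9c.SpecLIS) (hLE2 : SpecLE2)
    (hRO2 : SpecRO2) (hCT2 : SpecCT2) (hWR2 : SpecWR2) (hORD : SpecORD) (hTWT : SpecTWT) :
    SpecFI2 := by
  intro R
  obtain ⟨m, hm⟩ : ∃ m, m = R / 2 := ⟨_, rfl⟩
  obtain ⟨k, hk⟩ : ∃ k, k = R % 2 := ⟨_, rfl⟩
  obtain ⟨n, hn⟩ : ∃ n, n = 4 * R + 22 := ⟨_, rfl⟩
  have hR : n = 22 + 4 * k + 8 * m := by omega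
  rw [← hm, ← hn]
  let bs : (Fin m → Bool) → List Bool := fun f => List.ofFn f
  have hlen : ∀ f, (bs f).length = m := by
    intro f
    simp only [bs, List.length_ofFn]
  have hget : ∀ (f : Fin m → Bool) (i : Fin m) (hi : (i : ℕ) < (bs f).length),
      (bs f)[(i : ℕ)] = f i := by
    intro f i hi
    simp [bs]
  have hnn : ∀ f, n = nn (WW k (bs f)) + 5 := by
    intro f
    rw [hWR2.num, hlen]
    exact hR
  have h0 : 0 < n := by omega
  have hne : ∀ f, WW k (bs f) ≠ [] := by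
    intro f
    simp [WW]
  refine ⟨fun f => GG n (WW k (bs f)), fun f => ⟨?_, ?_⟩, ?_⟩
  · exact hMI2 _ n (hne f) (hWR2.okk k (bs f)) (hnn f)
  · exact hTWT n _ h0 (hORD _ n (hWR2.okk k (bs f)) (hnn f))
  · intro f g hfg
    refine ⟨fun φ => hfg ?_⟩
    have hφ0 : φ ⟨0, h0⟩ = ⟨0, h0⟩ := hRO2 k k (bs f) (bs g) n h0 (hnn f) (hnn g) φ
    have hD := hLIS _ _ _ _ _ _ _ _ (hLE2 _ n h0 (hWR2.okk k (bs f)) (hnn f))
      (hLE2 _ n h0 (hWR2.okk k (bs g)) (hnn g)) φ hφ0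
    have hbit : ∀ (j : ℕ) (hj : j < m) (h1 : j < (bs f).length) (h2 : j < (bs g).length),
        (bs f)[j] = (bs g)[j] := by
      intro j hj h1 h2
      have e1 := hCT2 k (bs f) j h1
      have e2 := hCT2 k (bs g) j h2
      rw [← hnn f, hlen] at e1
      rw [← hnn g, hlen] at e2
      have e3 := card_eq n (DF (WW k (bs f))) (DF (WW k (bs g))) φ.toEquiv hD
        (2 * (k + 1) + 4 * (m - 1 - j) + 3)
      rw [e1, e2] at e3
      cases hb1 : (bs f)[j] <;> cases hb2 : (bs g)[j] <;> simp_all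
    funext i
    rw [← hget f i (by rw [hlen]; exact i.2), ← hget g i (by rw [hlen]; exact i.2)]
    exact hbit i i.2 _ _

end Pool.Agent.Lib.MPc95e9c.CH
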