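import Pool.Agent.Lib.MP_c95e9c_lc.CH.Spec

/-!
# MP_c95e9c: module FR2 (the graphs are not interval probe graphs)
-/

set_option autoImplicit false

namespace Pool.Agent.Lib.MPc95e9c.CH

namespace FR2M

theorem nn_cons (b : Bool) (w : List Bool) : nn (b :: w) = nn w + 4 := by
  unfold nn
  rw [List.length_cons]
  omega

theorem pp_cons (b : Bool) (w : List Bool) : pp (b :: w) = nn w + 2 := rfl

theorem nn_app (v w : List Bool) : nn w ≤ nn (v ++ w) := by
  unfold nn
  rw [List.length_append]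
  omega

/-- an edge of a step has an end among the new vertices -/
theorem st_ge {b : Bool} {p x u v : ℕ} (h : st b p x u v) : x ≤ u ∨ x ≤ v := by
  unfold st ed at h
  omega

theorem rt_ge {p n u v : ℕ} (h : rt p n u v) : n ≤ u ∨ n ≤ v := by
  unfold rt ed at h
  omega

theorem EE_app : ∀ (v w : List Bool) (a d : ℕ), a < nn w → d < nn w → (EE (v ++ w) a d ↔ EE w a d)
  | [], w, a, d, _, _ => Iff.rfl
  | b :: v, w, a, d, ha, hd => by
    have h1 := EE_app v w a d ha hd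
    have h2 := nn_app v w
    show (EE (v ++ w) a d ∨ st b (pp (v ++ w)) (nn (v ++ w)) a d) ↔ EE w a d
    rw [h1]
    constructor
    · rintro (h | h)
      · exact h
      · have := st_ge h
        omega
    · exact Or.inl

theorem Ok_app : ∀ (v w : List Bool), Ok (v ++ w) → Ok w
  | [], _, h => h
  | _ :: v, w, h => Ok_app v w h.1

theorem Ok_last : ∀ w : List Bool, w ≠ [] → Ok w → ∃ v, w = v ++ [false]
  | [], h, _ => absurd rfl h
  | b :: w, _, h => by
    by_cases hw : w = []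
    · subst hw
      have hb : b ≠ true := fun hb => h.2 hb rfl
      have hb' : b = false := by cases b <;> simp_all
      exact ⟨[], by rw [hb']; rfl⟩
    · obtain ⟨v, hv⟩ := Ok_last w hw h.1
      exact ⟨b :: v, by rw [List.cons_append, ← hv]⟩

/-- the next step, or the right end -/
def nxt (o : Option Bool) (p x u v : ℕ) : Prop :=
  match o with
  | some b => st b p x u v
  | none => rt p x u v

/-- the edges near a step -/
def K (b : Bool) (o : Option Bool) (i j : ℕ) : Prop :=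
  ed 0 1 i j ∨ ed 0 2 i j ∨ ed 1 2 i j ∨ ed 1 3 i j ∨ st b 2 4 i j ∨ nxt o 6 8 i j

section

variable {F : ℕ → ℕ → Prop} {S N : Set ℕ} {l r : ℕ → ℝ}

/-- NET for indices -/
theorem net (hNET : SpecNET) (hR : Rp F S N l r) (hs : ∀ u v, F u v → F v u) (J : ℕ → ℕ → Prop)
    (f : ℕ → ℕ) (I : ℕ → Prop) (hS : ∀ i, I i → f i ∈ S) (hinj : ∀ i j, I i → I j → f i = f j → i = j)
    (hF : ∀ i j, I i → I j → (F (f i) (f j) ↔ J i j)) (z t v a L y R y' : ℕ)
    (hI : I z ∧ I t ∧ I v ∧ I a ∧ I L ∧ I y ∧ I R ∧ I y')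
    (hne : z ≠ t ∧ z ≠ v ∧ z ≠ a ∧ z ≠ L ∧ z ≠ y ∧ z ≠ R ∧ z ≠ y' ∧ t ≠ v ∧ t ≠ a ∧ t ≠ L ∧ t ≠ y ∧
      t ≠ R ∧ t ≠ y' ∧ v ≠ a ∧ v ≠ L ∧ v ≠ y ∧ v ≠ R ∧ v ≠ y' ∧ a ≠ L ∧ a ≠ y ∧ a ≠ R ∧ a ≠ y' ∧
      L ≠ y ∧ R ≠ y')
    (hE : J z t ∧ J z v ∧ J t v ∧ J t a ∧ J z L ∧ J L y ∧ J v R ∧ J R y')
    (hn : ¬ J a z ∧ ¬ J a v ∧ ¬ J a L ∧ ¬ J a y ∧ ¬ J a R ∧ ¬ J a y' ∧ ¬ J L v ∧ ¬ J L t ∧ ¬ J R z ∧
      ¬ J R t ∧ ¬ J y z ∧ ¬ J y v ∧ ¬ J y t ∧ ¬ J y' z ∧ ¬ J y' v ∧ ¬ J y' t) : f z ∈ N ∨ f v ∈ N := by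
  obtain ⟨iz, it, iv, ia, iL, iy, iR, iy'⟩ := hI
  obtain ⟨n1, n2, n3, n4, n5, n6, n7, n8, n9, n10, n11, n12, n13, n14, n15, n16, n17, n18, n19, n20,
    n21, n22, n23, n24⟩ := hne
  obtain ⟨e1, e2, e3, e4, e5, e6, e7, e8⟩ := hE
  obtain ⟨m1, m2, m3, m4, m5, m6, m7, m8, m9, m10, m11, m12, m13, m14, m15, m16⟩ := hn
  have ne : ∀ {i j}, I i → I j → i ≠ j → f i ≠ f j := fun hi hj h h' => h (hinj _ _ hi hj h')
  have ed : ∀ {i j}, I i → I j → J i j → F (f i) (f j) := fun hi hj h => (hF _ _ hi hj).mpr h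
  have nd : ∀ {i j}, I i → I j → ¬ J i j → ¬ F (f i) (f j) := fun hi hj h h' => h ((hF _ _ hi hj).mp h')
  exact hNET F S N l r hR hs (f z) (f t) (f v) (f a) (f L) (f y) (f R) (f y') (hS _ iz) (hS _ it)
    (hS _ iv) (hS _ ia) (hS _ iL) (hS _ iy) (hS _ iR) (hS _ iy') (ne iz it n1) (ne iz iv n2)
    (ne iz ia n3) (ne iz iL n4) (ne iz iy n5) (ne iz iR n6) (ne iz iy' n7) (ne it iv n8)
    (ne it ia n9) (ne it iL n10) (ne it iy n11) (ne it iR n12) (ne it iy' n13) (ne iv ia n14)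
    (ne iv iL n15) (ne iv iy n16) (ne iv iR n17) (ne iv iy' n18) (ne ia iL n19) (ne ia iy n20)
    (ne ia iR n21) (ne ia iy' n22) (ne iL iy n23) (ne iR iy' n24) (ed iz it e1) (ed iz iv e2)
    (ed it iv e3) (ed it ia e4) (ed iz iL e5) (ed iL iy e6) (ed iv iR e7) (ed iR iy' e8)
    (nd ia iz m1) (nd ia iv m2) (nd ia iL m3) (nd ia iy m4) (nd ia iR m5) (nd ia iy' m6)
    (nd iL iv m7) (nd iL it m8) (nd iR iz m9) (nd iR it m10) (nd iy iz m11) (nd iy iv m12)
    (nd iy it m13) (nd iy' iz m14) (nd iy' iv m15) (nd iy' it m16)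

theorem step (hNET : SpecNET) (hR : Rp F S N l r) (hs : ∀ u v, F u v → F v u) (b : Bool)
    (o : Option Bool) (f : ℕ → ℕ) (I : ℕ → Prop)
    (hI : ∀ i, i < 12 → (b = true ∨ (i ≠ 1 ∧ i ≠ 3)) → I i) (hS : ∀ i, I i → f i ∈ S)
    (hinj : ∀ i j, I i → I j → f i = f j → i = j)
    (hF : ∀ i j, I i → I j → (F (f i) (f j) ↔ K b o i j)) (h2 : f 2 ∈ N) : f 6 ∈ N := by
  have i0 : I 0 := hI 0 (by norm_num) (by simp)
  have i2 : I 2 := hI 2 (by norm_num) (by simp)
  have i4 : I 4 := hI 4 (by norm_num) (by simp)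
  have i5 : I 5 := hI 5 (by norm_num) (by simp)
  have i6 : I 6 := hI 6 (by norm_num) (by simp)
  have i7 : I 7 := hI 7 (by norm_num) (by simp)
  have i8 : I 8 := hI 8 (by norm_num) (by simp)
  have i9 : I 9 := hI 9 (by norm_num) (by simp)
  have i11 : I 11 := hI 11 (by norm_num) (by simp)
  have h4 : f 4 ∉ N := fun h => hR.ind _ (hS 2 i2) _ (hS 4 i4) h2 h
    ((hF 2 4 i2 i4).mpr (by simp [K, st, ed]))
  rcases o with _ | b'
  · cases b
    · exact (net hNET hR hs _ f I hS hinj hF 4 5 6 7 2 0 8 9 ⟨i4, i5, i6, i7, i2, i0, i8, i9⟩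
        (by norm_num) (by simp [K, st, ed, nxt, rt]) (by simp [K, st, ed, nxt, rt])).resolve_left h4
    · have i1 : I 1 := hI 1 (by norm_num) (Or.inl rfl)
      have i3 : I 3 := hI 3 (by norm_num) (Or.inl rfl)
      exact (net hNET hR hs _ f I hS hinj hF 4 5 6 7 1 3 8 9 ⟨i4, i5, i6, i7, i1, i3, i8, i9⟩
        (by norm_num) (by simp [K, st, ed, nxt, rt]) (by simp [K, st, ed, nxt, rt])).resolve_left h4
  · cases b <;> cases b'
    · exact (net hNET hR hs _ f I hS hinj hF 4 5 6 7 2 0 8 9 ⟨i4, i5, i6, i7, i2, i0, i8, i9⟩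
        (by norm_num) (by simp [K, st, ed, nxt, rt]) (by simp [K, st, ed, nxt, rt])).resolve_left h4
    · exact (net hNET hR hs _ f I hS hinj hF 4 5 6 7 2 0 9 11 ⟨i4, i5, i6, i7, i2, i0, i9, i11⟩
        (by norm_num) (by simp [K, st, ed, nxt, rt]) (by simp [K, st, ed, nxt, rt])).resolve_left h4
    · have i1 : I 1 := hI 1 (by norm_num) (Or.inl rfl)
      have i3 : I 3 := hI 3 (by norm_num) (Or.inl rfl)
      exact (net hNET hR hs _ f I hS hinj hF 4 5 6 7 1 3 8 9 ⟨i4, i5, i6, i7, i1, i3, i8, i9⟩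
        (by norm_num) (by simp [K, st, ed, nxt, rt]) (by simp [K, st, ed, nxt, rt])).resolve_left h4
    · have i1 : I 1 := hI 1 (by norm_num) (Or.inl rfl)
      have i3 : I 3 := hI 3 (by norm_num) (Or.inl rfl)
      exact (net hNET hR hs _ f I hS hinj hF 4 5 6 7 1 3 9 11 ⟨i4, i5, i6, i7, i1, i3, i9, i11⟩
        (by norm_num) (by simp [K, st, ed, nxt, rt]) (by simp [K, st, ed, nxt, rt])).resolve_left h4

theorem claw (hCLW : SpecCLW) (hR : Rp F S N l r) (hs : ∀ u v, F u v → F v u)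
    (J : ℕ → ℕ → Prop) (f : ℕ → ℕ) (hS : ∀ i, i < 9 → f i ∈ S)
    (hinj : ∀ i j, i < 9 → j < 9 → f i = f j → i = j)
    (hF : ∀ i j, i < 9 → j < 9 → (F (f i) (f j) ↔ J i j)) (c : ℕ) (m t : Fin 3 → ℕ) (hc : c < 9)
    (hm : ∀ i, m i < 9 ∧ t i < 9 ∧ m i ≠ t i ∧ c ≠ m i ∧ c ≠ t i ∧ J c (m i) ∧ J (m i) (t i) ∧
      ¬ J c (t i))
    (hmt : ∀ i j, i ≠ j → m i ≠ m j ∧ m i ≠ t j ∧ t i ≠ t j ∧ ¬ J (m i) (m j) ∧ ¬ J (m i) (t j) ∧
      ¬ J (t i) (t j)) : f c ∈ N := by
  refine hCLW F S N l r hR hs (f c) (fun i => f (m i)) (fun i => f (t i)) (hS c hc) ?_ ?_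
  · intro i
    obtain ⟨h1, h2, h3, h4, h5, h6, h7, h8⟩ := hm i
    exact ⟨hS _ h1, hS _ h2, fun h => h3 (hinj _ _ h1 h2 h), fun h => h4 (hinj _ _ hc h1 h),
      fun h => h5 (hinj _ _ hc h2 h), (hF _ _ hc h1).mpr h6, (hF _ _ h1 h2).mpr h7,
      fun h => h8 ((hF _ _ hc h2).mp h)⟩
  · intro i j hij
    obtain ⟨h1, h2, -⟩ := hm i
    obtain ⟨h1', h2', -⟩ := hm j
    obtain ⟨h3, h4, h5, h6, h7, h8⟩ := hmt i j hij
    exact ⟨fun h => h3 (hinj _ _ h1 h1' h), fun h => h4 (hinj _ _ h1 h2' h),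
      fun h => h5 (hinj _ _ h2 h2' h), fun h => h6 ((hF _ _ h1 h1').mp h),
      fun h => h7 ((hF _ _ h1 h2').mp h), fun h => h8 ((hF _ _ h2 h2').mp h)⟩

end

/-- the edges near the step `b` after the word `w` -/
def Q (b : Bool) (o : Option Bool) (w : List Bool) (a d : ℕ) : Prop :=
  EE w a d ∨ st b (pp w) (nn w) a d ∨ nxt o (nn w + 2) (nn w + 4) a d

theorem Q_some (v w : List Bool) (b b' : Bool) (a d : ℕ) (ha : a < nn w + 8) (hd : d < nn w + 8) :
    EF (v ++ (b' :: b :: w)) a d ↔ Q b (some b') w a d := by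
  have h1 : nn (b' :: b :: w) = nn w + 8 := by rw [nn_cons, nn_cons]
  have h2 : EE (v ++ (b' :: b :: w)) a d ↔ EE (b' :: b :: w) a d :=
    EE_app v _ a d (by omega) (by omega)
  have h3 : ¬ rt (pp (v ++ (b' :: b :: w))) (nn (v ++ (b' :: b :: w))) a d := by
    intro h
    have := rt_ge h
    have := nn_app v (b' :: b :: w)
    omega
  have h4 : EE (b' :: b :: w) a d ↔ Q b (some b') w a d := by
    show (EE w a d ∨ st b (pp w) (nn w) a d) ∨ st b' (pp (b :: w)) (nn (b :: w)) a d ↔ _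
    rw [pp_cons, nn_cons, or_assoc]
    exact Iff.rfl
  show (EE (v ++ (b' :: b :: w)) a d ∨ rt _ _ a d) ↔ _
  rw [h2, h4]
  exact ⟨fun h => h.resolve_right h3, Or.inl⟩

theorem Q_none (w : List Bool) (b : Bool) (a d : ℕ) : EF (b :: w) a d ↔ Q b none w a d := by
  show ((EE w a d ∨ st b (pp w) (nn w) a d) ∨ rt (pp (b :: w)) (nn (b :: w)) a d) ↔ _
  rw [pp_cons, nn_cons, or_assoc]
  exact Iff.rfl

theorem ed_iff {A B a b u v i j : ℕ} (h1 : u = A ↔ i = a) (h2 : v = B ↔ j = b)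
    (h3 : u = B ↔ i = b) (h4 : v = A ↔ j = a) : ed A B u v ↔ ed a b i j := by
  unfold ed
  rw [h1, h2, h3, h4]

theorem ed_add (q a b i j : ℕ) : ed (q + a) (q + b) (q + i) (q + j) ↔ ed a b i j :=
  ed_iff (by omega) (by omega) (by omega) (by omega)

theorem ed_no {A B u v : ℕ} (h : u ≠ A) (h' : v ≠ A) : ¬ ed A B u v := by
  unfold ed
  omega

theorem st_add (b : Bool) (q p x i j : ℕ) (hp : 1 ≤ p) :
    st b (q + p) (q + x) (q + i) (q + j) ↔ st b p x i j := by
  have h : q + p - 1 = q + (p - 1) := by omega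
  unfold st
  rw [h, Nat.add_assoc q x 1, Nat.add_assoc q x 2, Nat.add_assoc q x 3, ed_add, ed_add, ed_add,
    ed_add, ed_add, ed_add, ed_add]

theorem rt_add (q p x i j : ℕ) : rt (q + p) (q + x) (q + i) (q + j) ↔ rt p x i j := by
  unfold rt
  rw [Nat.add_assoc q x 1, Nat.add_assoc q x 2, Nat.add_assoc q x 3, Nat.add_assoc q x 4, ed_add,
    ed_add, ed_add, ed_add, ed_add]

theorem nxt_add (o : Option Bool) (q p x i j : ℕ) (hp : 1 ≤ p) :
    nxt o (q + p) (q + x) (q + i) (q + j) ↔ nxt o p x i j := by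
  rcases o with _ | b
  · exact rt_add q p x i j
  · exact st_add b q p x i j hp

/-- a step seen from its new vertices -/
theorem st_in (c : Bool) (p q i j : ℕ) (hp : p < q) : st c p q (q + i) (q + j) ↔
    (ed 0 1 i j ∨ ed 0 2 i j ∨ ed 1 2 i j ∨ ed 1 3 i j) := by
  have h1 : ∀ B, ¬ ed p B (q + i) (q + j) := fun B => ed_no (by omega) (by omega)
  have h2 : ∀ B, ¬ ed (p - 1) B (q + i) (q + j) := fun B => ed_no (by omega) (by omega)
  have e1 := ed_add q 0 1 i j
  have e2 := ed_add q 0 2 i j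
  have e3 := ed_add q 1 2 i j
  have e4 := ed_add q 1 3 i j
  rw [Nat.add_zero] at e1 e2
  unfold st
  rw [e1, e2, e3, e4]
  constructor
  · rintro (h | h | h | h | h | ⟨-, h | h⟩)
    · exact absurd h (h1 _)
    · exact Or.inl h
    · exact Or.inr (Or.inl h)
    · exact Or.inr (Or.inr (Or.inl h))
    · exact Or.inr (Or.inr (Or.inr h))
    · exact absurd h (h2 _)
    · exact absurd h (h1 _)
  · rintro (h | h | h | h)
    · exact Or.inr (Or.inl h)
    · exact Or.inr (Or.inr (Or.inl h))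
    · exact Or.inr (Or.inr (Or.inr (Or.inl h)))
    · exact Or.inr (Or.inr (Or.inr (Or.inr (Or.inl h))))

/-- the vertices at the left end -/
def fl (i : ℕ) : ℕ := if i = 2 then 0 else if i = 0 then 1 else i + 1

theorem fl_zero {i : ℕ} : fl i = 0 ↔ i = 2 := by
  unfold fl
  by_cases h : i = 2
  · simp [h]
  · by_cases h' : i = 0
    · simp [h']
    · simp [h, h']

theorem fl_one {i : ℕ} : fl i = 1 ↔ i = 0 := by
  unfold fl
  by_cases h : i = 2
  · simp [h]
  · by_cases h' : i = 0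
    · simp [h']
    · simp [h, h']

theorem fl_two {i : ℕ} (h1 : i ≠ 1) : fl i ≠ 2 := by
  unfold fl
  split_ifs <;> omega

theorem fl_three {i : ℕ} : fl i ≠ 3 := by
  unfold fl
  split_ifs <;> omega

theorem fl_big {i : ℕ} (A : ℕ) (hA : 3 ≤ A) : fl i = A + 1 ↔ i = A := by
  unfold fl
  by_cases h : i = 2
  · rw [if_pos h]
    omega
  · by_cases h' : i = 0
    · rw [if_neg h, if_pos h']
      omega
    · rw [if_neg h, if_neg h']
      omega

theorem ed_fl (A B i j : ℕ) (hA : 3 ≤ A) (hB : 3 ≤ B) :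
    ed (A + 1) (B + 1) (fl i) (fl j) ↔ ed A B i j :=
  ed_iff (fl_big A hA) (fl_big B hB) (fl_big B hB) (fl_big A hA)

theorem nxt_fl (o : Option Bool) (i j : ℕ) : nxt o 7 9 (fl i) (fl j) ↔ nxt o 6 8 i j := by
  have h1 := ed_fl 6 8 i j (by norm_num) (by norm_num)
  have h2 := ed_fl 8 9 i j (by norm_num) (by norm_num)
  rcases o with _ | b
  · have h3 := ed_fl 9 10 i j (by norm_num) (by norm_num)
    have h4 := ed_fl 8 11 i j (by norm_num) (by norm_num)
    have h5 := ed_fl 11 12 i j (by norm_num) (by norm_num)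
    show (_ ∨ _ ∨ _ ∨ _ ∨ _) ↔ _
    exact or_congr h1 (or_congr h2 (or_congr h3 (or_congr h4 h5)))
  · have h3 := ed_fl 8 10 i j (by norm_num) (by norm_num)
    have h4 := ed_fl 9 10 i j (by norm_num) (by norm_num)
    have h5 := ed_fl 9 11 i j (by norm_num) (by norm_num)
    have h6 := ed_fl 5 8 i j (by norm_num) (by norm_num)
    have h7 := ed_fl 6 9 i j (by norm_num) (by norm_num)
    show (_ ∨ _ ∨ _ ∨ _ ∨ _ ∨ _) ↔ _
    exact or_congr h1 (or_congr h2 (or_congr h3 (or_congr h4 (or_congr h5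
      (and_congr_right fun _ => or_congr h6 h7)))))

theorem Q_nil (o : Option Bool) (i j : ℕ) (hi1 : i ≠ 1) (hi3 : i ≠ 3) (hj1 : j ≠ 1) (hj3 : j ≠ 3) :
    Q false o [] (fl i) (fl j) ↔ K false o i j := by
  have hn : nn [] = 5 := rfl
  have hp : pp [] = 0 := rfl
  have a1 : ed 0 1 (fl i) (fl j) ↔ ed 0 2 i j := by
    unfold ed
    rw [fl_zero, fl_one, fl_one, fl_zero]
    omega
  have a2 : ¬ ed 1 2 (fl i) (fl j) := by
    unfold ed
    have := fl_two hi1
    have := fl_two hj1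
    omega
  have a3 : ¬ ed 0 3 (fl i) (fl j) := by
    unfold ed
    have := @fl_three i
    have := @fl_three j
    omega
  have a4 : ¬ ed 3 4 (fl i) (fl j) := by
    unfold ed
    have := @fl_three i
    have := @fl_three j
    omega
  have b1 : ed 0 5 (fl i) (fl j) ↔ ed 2 4 i j :=
    ed_iff fl_zero (fl_big 4 (by norm_num)) (fl_big 4 (by norm_num)) fl_zero
  have b2 := ed_fl 4 5 i j (by norm_num) (by norm_num)
  have b3 := ed_fl 4 6 i j (by norm_num) (by norm_num)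
  have b4 := ed_fl 5 6 i j (by norm_num) (by norm_num)
  have b5 := ed_fl 5 7 i j (by norm_num) (by norm_num)
  have k1 : ¬ ed 0 1 i j := by unfold ed; omega
  have k2 : ¬ ed 1 2 i j := by unfold ed; omega
  have k3 : ¬ ed 1 3 i j := by unfold ed; omega
  have c1 : EE [] (fl i) (fl j) ↔ ed 0 2 i j := by
    show (_ ∨ _ ∨ _ ∨ _) ↔ _
    rw [a1]
    constructor
    · rintro (h | h | h | h)
      · exact h
      · exact absurd h a2
      · exact absurd h a3
      · exact absurd h a4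
    · exact Or.inl
  have c2 : st false 0 5 (fl i) (fl j) ↔ st false 2 4 i j := by
    show (_ ∨ _ ∨ _ ∨ _ ∨ _ ∨ _) ↔ _
    refine or_congr b1 (or_congr b2 (or_congr b3 (or_congr b4 (or_congr b5 ?_))))
    simp
  have c3 := nxt_fl o i j
  unfold Q K
  rw [hn, hp, c1, c2]
  constructor
  · rintro (h | h | h)
    · exact Or.inr (Or.inl h)
    · exact Or.inr (Or.inr (Or.inr (Or.inr (Or.inl h))))
    · exact Or.inr (Or.inr (Or.inr (Or.inr (Or.inr (c3.mp h)))))
  · rintro (h | h | h | h | h | h)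
    · exact absurd h k1
    · exact Or.inl h
    · exact absurd h k2
    · exact absurd h k3
    · exact Or.inr (Or.inl h)
    · exact Or.inr (Or.inr (c3.mpr h))

theorem Q_cons (hBS : SpecBS2) (b : Bool) (o : Option Bool) (c : Bool) (w : List Bool) (i j : ℕ) :
    Q b o (c :: w) (nn w + i) (nn w + j) ↔ K b o i j := by
  have h1 : ¬ EE w (nn w + i) (nn w + j) := by
    intro h
    have := (hBS.bnd _ _ _ h).1
    omega
  have h3 : EE (c :: w) (nn w + i) (nn w + j) ↔
      (ed 0 1 i j ∨ ed 0 2 i j ∨ ed 1 2 i j ∨ ed 1 3 i j) := by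
    rw [← st_in c (pp w) (nn w) i j (hBS.plt w)]
    show (EE w _ _ ∨ st c (pp w) (nn w) _ _) ↔ _
    exact ⟨fun h => h.resolve_left h1, Or.inr⟩
  unfold Q K
  rw [h3, pp_cons, nn_cons, Nat.add_assoc (nn w) 4 2, Nat.add_assoc (nn w) 4 4, st_add _ _ _ _ _ _
    (by norm_num), nxt_add _ _ _ _ _ _ (by norm_num)]
  simp only [or_assoc]

end FR2M

theorem specFR2 (hBS : SpecBS2) (hCLW : SpecCLW) (hNET : SpecNET) : SpecFR2 := by
  intro W hW0 hOk
  rintro ⟨N, l, r, hR⟩
  have hs : ∀ u v, EF W u v → EF W v u := hBS.symF W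
  -- every exit is in `N`
  have hall : ∀ u v : List Bool, W = v ++ u → pp u ∈ N := by
    intro u
    induction u with
    | nil =>
      intro v hv
      obtain ⟨v', hv'⟩ := FR2M.Ok_last W hW0 hOk
      have hlen := FR2M.nn_app v' [false]
      rw [← hv', FR2M.nn_cons] at hlen
      have hn : nn [] = 5 := rfl
      refine FR2M.claw hCLW hR hs (EE [false]) id (fun i hi => ?_) (fun i j _ _ h => h)
        (fun i j hi hj => ?_) 0 ![1, 3, 5] ![2, 4, 6] (by norm_num) ?_ ?_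
      · show i < nn W + 5
        omega
      · have h1 := FR2M.EE_app v' [false] i j (by rw [FR2M.nn_cons]; omega)
          (by rw [FR2M.nn_cons]; omega)
        rw [← hv'] at h1
        show (EE W i j ∨ rt (pp W) (nn W) i j) ↔ _
        rw [h1]
        refine ⟨fun h => h.resolve_right fun h => ?_, Or.inl⟩
        have := FR2M.rt_ge h
        omega
      · intro i
        fin_cases i <;> simp [EE, ed, st, pp, nn]
      · intro i j hij
        fin_cases i <;> fin_cases j <;> simp [EE, ed, st, pp, nn] at hij ⊢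
    | cons b w ih =>
      intro v hv
      have hpw : pp w ∈ N := ih (v ++ [b]) (by rw [hv]; simp)
      have hOk2 : Ok (b :: w) := FR2M.Ok_app v (b :: w) (hv ▸ hOk)
      have hlen := FR2M.nn_app v (b :: w)
      rw [← hv, FR2M.nn_cons] at hlen
      -- the next step
      obtain ⟨o, ho⟩ : ∃ o : Option Bool, ∀ a d, a < nn w + 8 → d < nn w + 8 →
          (EF W a d ↔ FR2M.Q b o w a d) := by
        rcases List.eq_nil_or_concat v with h | ⟨v', b', h⟩
        · refine ⟨none, fun a d _ _ => ?_⟩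
          rw [hv, h, List.nil_append]
          exact FR2M.Q_none w b a d
        · refine ⟨some b', fun a d ha hd => ?_⟩
          have h2 : W = v' ++ (b' :: b :: w) := by
            rw [hv, h]
            simp
          rw [h2]
          exact FR2M.Q_some v' w b b' a d ha hd
      rw [FR2M.pp_cons]
      rcases w with _ | ⟨c, w'⟩
      · have hb : b = false := by
          cases b
          · rfl
          · exact absurd rfl (hOk2.2 rfl)
        subst hb
        have hn : nn [] = 5 := rfl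
        have hstep := FR2M.step hNET hR hs false o
          FR2M.fl (fun i => i < 12 ∧ i ≠ 1 ∧ i ≠ 3) (fun i hi h => ⟨hi, by simpa using h⟩) ?_ ?_ ?_ ?_
        · exact hstep
        · intro i hi
          show FR2M.fl i < nn W + 5
          have := hi.1
          unfold FR2M.fl
          split_ifs <;> omega
        · intro i j hi hj h
          have := hi.2
          have := hj.2
          unfold FR2M.fl at h
          split_ifs at h <;> omega
        · intro i j hi hj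
          rw [ho _ _ (by have := hi.1; unfold FR2M.fl; split_ifs <;> omega)
            (by have := hj.1; unfold FR2M.fl; split_ifs <;> omega)]
          exact FR2M.Q_nil o i j hi.2.1 hi.2.2 hj.2.1 hj.2.2
        · exact hpw
      · rw [FR2M.nn_cons]
        rw [FR2M.nn_cons] at hlen
        have hstep := FR2M.step hNET hR hs b o (fun i => nn w' + i) (fun i => i < 12)
          (fun i hi _ => hi) ?_ ?_ ?_ ?_
        · exact hstep
        · intro i hi
          show nn w' + i < nn W + 5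
          omega
        · intro i j _ _ h
          have h' : nn w' + i = nn w' + j := h
          omega
        · intro i j hi hj
          rw [ho _ _ (by rw [FR2M.nn_cons]; omega) (by rw [FR2M.nn_cons]; omega)]
          exact FR2M.Q_cons hBS b o c w' i j
        · exact hpw
  -- the right end
  rcases W with _ | ⟨b, w⟩
  · exact hW0 rfl
  have hpW := hall (b :: w) [] rfl
  have hnW : nn (b :: w) = nn w + 4 := FR2M.nn_cons b w
  have hF : ∀ i j, EF (b :: w) (nn w + i) (nn w + j) ↔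
      (ed 0 1 i j ∨ ed 0 2 i j ∨ ed 1 2 i j ∨ ed 1 3 i j ∨ rt 2 4 i j) := by
    intro i j
    rw [FR2M.Q_none]
    have h1 : ¬ EE w (nn w + i) (nn w + j) := by
      intro h
      have := (hBS.bnd _ _ _ h).1
      omega
    have h2 := FR2M.rt_add (nn w) 2 4 i j
    show (EE w _ _ ∨ st b (pp w) (nn w) _ _ ∨ rt (nn w + 2) (nn w + 4) _ _) ↔ _
    rw [FR2M.st_in b (pp w) (nn w) i j (hBS.plt w), h2]
    simp only [h1, false_or, or_assoc]
  have hc : nn w + 4 ∈ N := by
    refine FR2M.claw hCLW hR hs _ (fun i => nn w + i) (fun i hi => ?_) (fun i j _ _ h => ?_)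
      (fun i j _ _ => hF i j) 4 ![5, 7, 2] ![6, 8, 0] (by norm_num) ?_ ?_
    · show nn w + i < nn (b :: w) + 5
      omega
    · have h' : nn w + i = nn w + j := h
      omega
    · intro i
      fin_cases i <;> simp [ed, rt]
    · intro i j hij
      fin_cases i <;> fin_cases j <;> simp [ed, rt] at hij ⊢
  have hp2 : nn w + 2 ∈ N := hpW
  refine hR.ind (nn w + 2) ?_ (nn w + 4) ?_ hp2 hc ((hF 2 4).mpr ?_)
  · show nn w + 2 < nn (b :: w) + 5
    omega
  · show nn w + 4 < nn (b :: w) + 5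
    omega
  · simp [ed, rt]

end Pool.Agent.Lib.MPc95e9c.CH

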