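import Pool.Agent.Lib.MP_c95e9c_lc.CH.Spec

/-! # Module GL2: gluing of representations along an edge. -/

set_option autoImplicit false

namespace Pool.Agent.Lib.MPc95e9c.CH

open Classical in
theorem specGL2 : SpecGL2 := by
  intro E E' S T N NT l r a b t p M e f hR hdis hpT htT htp hM1 hMp hMt he hf hsym hSS hST hab
    hTind hpind htind hTT hpT2 htT2
  have hnT : ∀ v ∈ S, v ∉ T := fun v hv hT => Set.disjoint_left.mp hdis hv hT
  let l' : ℕ → ℝ := fun v => if v ∈ T then M + a v else l v
  let r' : ℕ → ℝ := fun v => if v ∈ T then M + b v else if v = p then M + e else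
    if v = t then M + f else r v
  let N' : Set ℕ := (N ∩ S) ∪ (NT ∩ T)
  have lT : ∀ v ∈ T, l' v = M + a v := fun v hv => if_pos hv
  have rT : ∀ v ∈ T, r' v = M + b v := fun v hv => if_pos hv
  have lS : ∀ v ∈ S, l' v = l v := fun v hv => if_neg (hnT v hv)
  have rS : ∀ v ∈ S, v ≠ p → v ≠ t → r' v = r v := by
    intro v hv hvp hvt
    simp only [r', if_neg (hnT v hv), if_neg hvp, if_neg hvt]
  have rp : r' p = M + e := by
    simp only [r', if_neg hpT, if_true]
  have rt' : r' t = M + f := by
    simp only [r', if_neg htT, if_neg htp, if_true]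
  have NS : ∀ v ∈ S, (v ∈ N' ↔ v ∈ N) := by
    intro v hv
    constructor
    · rintro (h | h)
      · exact h.1
      · exact absurd h.2 (hnT v hv)
    · intro h
      exact Or.inl ⟨h, hv⟩
  have NTT : ∀ v ∈ T, (v ∈ N' ↔ v ∈ NT) := by
    intro v hv
    constructor
    · rintro (h | h)
      · exact absurd hv (hnT v h.2)
      · exact h.1
    · intro h
      exact Or.inr ⟨h, hv⟩
  -- mixed independence and adjacency
  have indST : ∀ u ∈ S, ∀ v ∈ T, u ∈ N' → v ∈ N' → ¬ E' u v := by
    intro u hu v hv huN hvN
    by_cases hup : u = p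
    · subst hup
      exact hpind hu ((NS u hu).mp huN) v hv ((NTT v hv).mp hvN)
    · by_cases hut : u = t
      · subst hut
        exact htind hu ((NS u hu).mp huN) v hv ((NTT v hv).mp hvN)
      · exact hST u hu hup hut v hv
  have adjST : ∀ u ∈ S, ∀ v ∈ T, ¬ (u ∈ N' ∧ v ∈ N') → (E' u v ↔ l' u ≤ r' v ∧ l' v ≤ r' u) := by
    intro u hu v hv hn
    rw [lS u hu, lT v hv, rT v hv]
    obtain ⟨ha1, ha2⟩ := hab v hv
    by_cases hup : u = p
    · subst hup
      rw [NS u hu, NTT v hv] at hn
      rw [rp, hpT2 hu v hv hn]
      have h1 := hMp hu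
      constructor
      · intro h
        exact ⟨by linarith [h1.1], by linarith⟩
      · intro h
        linarith [h.2]
    · by_cases hut : u = t
      · subst hut
        rw [NS u hu, NTT v hv] at hn
        rw [rt', htT2 hu v hv hn]
        have h1 := hMt hu
        constructor
        · intro h
          exact ⟨by linarith [h1.1], by linarith⟩
        · intro h
          linarith [h.2]
      · rw [rS u hu hup hut]
        have h1 := hM1 u hu hup hut
        constructor
        · intro h
          exact absurd h (hST u hu hup hut v hv)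
        · intro h
          linarith [h.2]
  -- facts on `S`
  have Sle : ∀ v ∈ S, l' v ≤ r' v := by
    intro v hv
    rw [lS v hv]
    by_cases hvp : v = p
    · subst hvp
      rw [rp]
      linarith [(hMp hv).1]
    · by_cases hvt : v = t
      · subst hvt
        rw [rt']
        linarith [(hMt hv).1]
      · rw [rS v hv hvp hvt]
        exact hR.le v hv
  -- the condition `l u ≤ r v` does not change
  have key : ∀ u ∈ S, ∀ v ∈ S, u ≠ v → (l u ≤ r v ↔ l' u ≤ r' v) := by
    intro u hu v hv huv
    rw [lS u hu]
    by_cases hvp : v = p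
    · subst hvp
      rw [rp]
      have h1 := hMp hv
      have h2 : l u ≤ M := by
        by_cases hut : u = t
        · subst hut
          exact (hMt hu).1
        · exact ((hR.le u hu).trans_lt (hM1 u hu huv hut)).le
      exact ⟨fun _ => by linarith, fun _ => by linarith [h1.2]⟩
    · by_cases hvt : v = t
      · subst hvt
        rw [rt']
        have h1 := hMt hv
        have h2 : l u ≤ M := by
          by_cases hup : u = p
          · subst hup
            exact (hMp hu).1
          · exact ((hR.le u hu).trans_lt (hM1 u hu hup huv)).le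
        exact ⟨fun _ => by linarith, fun _ => by linarith [h1.2]⟩
      · rw [rS v hv hvp hvt]
  refine ⟨N', l', r', ⟨?_, ?_, ?_⟩, ?_, ?_, ?_, ?_⟩
  · rintro v (hv | hv)
    · exact Sle v hv
    · rw [lT v hv, rT v hv]
      have := (hab v hv).2
      linarith
  · rintro u (hu | hu) v (hv | hv) huN hvN
    · rw [hSS u hu v hv]
      exact hR.ind u hu v hv ((NS u hu).mp huN) ((NS v hv).mp hvN)
    · exact indST u hu v hv huN hvN
    · intro h
      exact indST v hv u hu hvN huN (hsym u v h)
    · exact hTind u hu v hv ((NTT u hu).mp huN) ((NTT v hv).mp hvN)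
  · rintro u (hu | hu) v (hv | hv) huv hn
    · rw [NS u hu, NS v hv] at hn
      rw [hSS u hu v hv, hR.adj u hu v hv huv hn, key u hu v hv huv, key v hv u hu huv.symm]
    · exact adjST u hu v hv hn
    · have h1 := adjST v hv u hu (fun h => hn ⟨h.2, h.1⟩)
      constructor
      · intro h
        exact (h1.mp (hsym u v h)).symm
      · intro h
        exact hsym v u (h1.mpr h.symm)
    · rw [NTT u hu, NTT v hv] at hn
      rw [hTT u hu v hv huv hn, lT u hu, lT v hv, rT u hu, rT v hv]
      constructor
      · intro h
        exact ⟨by linarith [h.1], by linarith [h.2]⟩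
      · intro h
        exact ⟨by linarith [h.1], by linarith [h.2]⟩
  · intro v hv
    exact ⟨NTT v hv, rT v hv⟩
  · intro v hv hvp hvt
    rw [rS v hv hvp hvt]
    exact hM1 v hv hvp hvt
  · intro hp
    exact ⟨rp, NS p hp⟩
  · intro ht
    exact ⟨rt', NS t ht⟩

end Pool.Agent.Lib.MPc95e9c.CH
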