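import Pool.Agent.Lib.MP_c95e9c_lc.CH.Spec

/-!
# MP_c95e9c, module ISV: an isolated vertex is placed to the left of everything
-/

set_option autoImplicit false

namespace Pool.Agent.Lib.MPc95e9c.CH

theorem specISV : SpecISV := by
  intro E n S N l r i hR hn hi hE hii
  obtain ⟨m, hm⟩ : ∃ m : ℝ, ∀ v ∈ S, m < l v := by
    refine ⟨-(∑ v ∈ Finset.range n, |l v|) - 1, fun v hv => ?_⟩
    have h1 : |l v| ≤ ∑ v ∈ Finset.range n, |l v| :=
      Finset.single_le_sum (f := fun v => |l v|) (fun _ _ => abs_nonneg _)
        (Finset.mem_range.2 (hn v hv))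
    have h2 := neg_abs_le (l v)
    linarith
  have hne : ∀ v ∈ S, v ≠ i := fun v hv h => hi (h ▸ hv)
  have hl : ∀ v ∈ S, (if v = i then m else l v) = l v := fun v hv => if_neg (hne v hv)
  have hr : ∀ v ∈ S, (if v = i then m else r v) = r v := fun v hv => if_neg (hne v hv)
  refine ⟨N \ {i}, fun v => if v = i then m else l v, fun v => if v = i then m else r v,
    ⟨?_, ?_, ?_⟩, ?_, ?_⟩
  · rintro v (hv | hv)
    · change (if v = i then m else l v) ≤ (if v = i then m else r v)
      rw [hl v hv, hr v hv]
      exact hR.le v hv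
    · rw [Set.mem_singleton_iff] at hv
      subst hv
      change (if v = v then m else l v) ≤ (if v = v then m else r v)
      rw [if_pos rfl, if_pos rfl]
  · rintro u (hu | hu) v (hv | hv) huN hvN
    · exact hR.ind u hu v hv huN.1 hvN.1
    · exact absurd hv hvN.2
    · exact absurd hu huN.2
    · exact absurd hv hvN.2
  · rintro u (hu | hu) v (hv | hv) huv hN
    · change E u v ↔ (if u = i then m else l u) ≤ (if v = i then m else r v) ∧
        (if v = i then m else l v) ≤ (if u = i then m else r u)
      rw [hl u hu, hl v hv, hr u hu, hr v hv]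
      refine hR.adj u hu v hv huv fun h => hN ⟨⟨h.1, hne u hu⟩, ⟨h.2, hne v hv⟩⟩
    · rw [Set.mem_singleton_iff] at hv
      subst hv
      change E u v ↔ (if u = v then m else l u) ≤ (if v = v then m else r v) ∧
        (if v = v then m else l v) ≤ (if u = v then m else r u)
      rw [hl u hu, hr u hu, if_pos rfl, if_pos rfl]
      refine ⟨fun h => absurd h (hE u hu).2, fun h => ?_⟩
      exact absurd (hm u hu) (not_lt.2 h.1)
    · rw [Set.mem_singleton_iff] at hu
      subst hu
      change E u v ↔ (if u = u then m else l u) ≤ (if v = u then m else r v) ∧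
        (if v = u then m else l v) ≤ (if u = u then m else r u)
      rw [hl v hv, hr v hv, if_pos rfl, if_pos rfl]
      refine ⟨fun h => absurd h (hE v hv).1, fun h => ?_⟩
      exact absurd (hm v hv) (not_lt.2 h.2)
    · rw [Set.mem_singleton_iff] at hu hv
      exact absurd (hu.trans hv.symm) huv
  · intro v hv
    refine ⟨⟨fun h => h.1, fun h => ⟨h, hne v hv⟩⟩, hr v hv, ?_⟩
    change (if i = i then m else r i) < r v
    rw [if_pos rfl]
    exact lt_of_lt_of_le (hm v hv) (hR.le v hv)
  · exact fun h => h.2 rfl

end Pool.Agent.Lib.MPc95e9c.CH
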