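import Pool.Agent.Lib.MP_c95e9c_lc.CH.Spec

/-!
# Module LE2: the distances
-/

set_option autoImplicit false

namespace Pool.Agent.Lib.MPc95e9c.CH

namespace LE2M

theorem DD_lt (b : Bool) (w : List Bool) {v : ℕ} (h : v < nn w) : DD (b :: w) v = DD w v := by
  show (if v < nn w then _ else _) = _
  rw [if_pos h]

theorem DD_0 (b : Bool) (w : List Bool) :
    DD (b :: w) (nn w) = (if b then min (DD w (pp w)) (DD w (pp w - 1)) else DD w (pp w)) + 1 := by
  show (if nn w < nn w then _ else if nn w = nn w then _ else _) = _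
  rw [if_neg (by omega), if_pos rfl]

theorem DD_1 (b : Bool) (w : List Bool) :
    DD (b :: w) (nn w + 1) =
      (if b then min (DD (b :: w) (nn w)) (DD w (pp w)) else DD (b :: w) (nn w)) + 1 := by
  rw [DD_0]
  show (if nn w + 1 < nn w then _ else if nn w + 1 = nn w then _ else if nn w + 1 = nn w + 1 then _
    else _) = _
  rw [if_neg (by omega), if_neg (by omega), if_pos rfl]

theorem DD_2 (b : Bool) (w : List Bool) :
    DD (b :: w) (nn w + 2) = min (DD (b :: w) (nn w)) (DD (b :: w) (nn w + 1)) + 1 := by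
  rw [DD_1, DD_0]
  show (if nn w + 2 < nn w then _ else if nn w + 2 = nn w then _ else if nn w + 2 = nn w + 1 then _
    else if nn w + 2 = nn w + 2 then _ else _) = _
  rw [if_neg (by omega), if_neg (by omega), if_neg (by omega), if_pos rfl]

theorem DD_3 (b : Bool) (w : List Bool) :
    DD (b :: w) (nn w + 3) = DD (b :: w) (nn w + 1) + 1 := by
  rw [DD_1, DD_0]
  show (if nn w + 3 < nn w then _ else if nn w + 3 = nn w then _ else if nn w + 3 = nn w + 1 then _
    else if nn w + 3 = nn w + 2 then _ else _) = _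
  rw [if_neg (by omega), if_neg (by omega), if_neg (by omega), if_neg (by omega)]

theorem five (w : List Bool) : 5 ≤ nn w := by
  unfold nn
  omega

theorem DD_zero (w : List Bool) : DD w 0 = 0 := by
  induction w with
  | nil => rfl
  | cons b w ih =>
    have h5 := five w
    rw [DD_lt b w (by omega), ih]

/-- the last entry and the last exit are adjacent -/
theorem adj_pp {w : List Bool} (hw : w ≠ []) : EE w (pp w - 1) (pp w) ∧ EE w (pp w) (pp w - 1) := by
  cases w with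
  | nil => exact absurd rfl hw
  | cons b w =>
    have h : pp (b :: w) = nn w + 2 := rfl
    rw [h]
    have h1 : nn w + 2 - 1 = nn w + 1 := rfl
    rw [h1]
    exact ⟨Or.inr (Or.inr (Or.inr (Or.inr (Or.inl (Or.inl ⟨rfl, rfl⟩))))),
      Or.inr (Or.inr (Or.inr (Or.inr (Or.inl (Or.inr ⟨rfl, rfl⟩)))))⟩

theorem step_DD (hB : SpecBS2) (w : List Bool) : Ok w → ∀ u v, EE w u v → DD w v ≤ DD w u + 1 := by
  induction w with
  | nil =>
    intro _ u v h
    simp only [EE, ed] at h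
    rcases h with (⟨rfl, rfl⟩ | ⟨rfl, rfl⟩) | (⟨rfl, rfl⟩ | ⟨rfl, rfl⟩) |
      (⟨rfl, rfl⟩ | ⟨rfl, rfl⟩) | (⟨rfl, rfl⟩ | ⟨rfl, rfl⟩) <;> simp [DD]
  | cons b w ih =>
    intro hok u v h
    have hok' : Ok w ∧ (b = true → w ≠ []) := hok
    have ih' := ih hok'.1
    have hp := hB.plt w
    have hp1 : pp w - 1 < nn w := by omega
    have h0 := DD_0 b w
    have h1 := DD_1 b w
    have h2 := DD_2 b w
    have h3 := DD_3 b w
    have h' : EE w u v ∨ st b (pp w) (nn w) u v := h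
    rcases h' with h | h
    · obtain ⟨hu, hv⟩ := hB.bnd w u v h
      rw [DD_lt b w hu, DD_lt b w hv]
      exact ih' u v h
    · have e1 := DD_lt b w hp
      have e2 := DD_lt b w hp1
      cases b
      · simp only [st, ed, Bool.false_eq_true, false_and, or_false, if_false] at h h0 h1
        rcases h with (⟨rfl, rfl⟩ | ⟨rfl, rfl⟩) | (⟨rfl, rfl⟩ | ⟨rfl, rfl⟩) |
          (⟨rfl, rfl⟩ | ⟨rfl, rfl⟩) | (⟨rfl, rfl⟩ | ⟨rfl, rfl⟩) | (⟨rfl, rfl⟩ | ⟨rfl, rfl⟩) <;>
        omega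
      · have hadj := adj_pp (hok'.2 rfl)
        have d1 := ih' _ _ hadj.1
        have d2 := ih' _ _ hadj.2
        simp only [st, ed, true_and, if_true] at h h0 h1
        rcases h with (⟨rfl, rfl⟩ | ⟨rfl, rfl⟩) | (⟨rfl, rfl⟩ | ⟨rfl, rfl⟩) |
          (⟨rfl, rfl⟩ | ⟨rfl, rfl⟩) | (⟨rfl, rfl⟩ | ⟨rfl, rfl⟩) | (⟨rfl, rfl⟩ | ⟨rfl, rfl⟩) |
          (⟨rfl, rfl⟩ | ⟨rfl, rfl⟩) | (⟨rfl, rfl⟩ | ⟨rfl, rfl⟩) <;>
        omega

theorem pre_DD (hB : SpecBS2) (w : List Bool) : Ok w → ∀ v, v < nn w → v ≠ 0 →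
    ∃ u, EE w u v ∧ DD w v = DD w u + 1 := by
  induction w with
  | nil =>
    intro _ v hv h0
    have hv' : v < 5 := hv
    have hc : v = 1 ∨ v = 2 ∨ v = 3 ∨ v = 4 := by omega
    rcases hc with rfl | rfl | rfl | rfl
    · exact ⟨0, by simp [EE, ed], by simp [DD]⟩
    · exact ⟨1, by simp [EE, ed], by simp [DD]⟩
    · exact ⟨0, by simp [EE, ed], by simp [DD]⟩
    · exact ⟨3, by simp [EE, ed], by simp [DD]⟩
  | cons b w ih =>
    intro hok v hv hv0
    have hok' : Ok w ∧ (b = true → w ≠ []) := hok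
    have hp := hB.plt w
    have hp1 : pp w - 1 < nn w := by omega
    have h0 := DD_0 b w
    have h1 := DD_1 b w
    have h2 := DD_2 b w
    have h3 := DD_3 b w
    have hv' : v < nn w + 4 := by
      have : nn (b :: w) = nn w + 4 := by
        simp only [nn, List.length_cons]
        omega
      omega
    by_cases hlt : v < nn w
    · obtain ⟨u, hu, hd⟩ := ih hok'.1 v hlt hv0
      have hb := (hB.bnd w u v hu).1
      exact ⟨u, Or.inl hu, by rw [DD_lt b w hlt, DD_lt b w hb, hd]⟩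
    · have hc : v = nn w ∨ v = nn w + 1 ∨ v = nn w + 2 ∨ v = nn w + 3 := by omega
      rcases hc with rfl | rfl | rfl | rfl
      · by_cases hd : b = true ∧ DD w (pp w - 1) < DD w (pp w)
        · obtain ⟨rfl, hd⟩ := hd
          simp only [if_true] at h0
          refine ⟨pp w - 1, Or.inr (Or.inr (Or.inr (Or.inr (Or.inr (Or.inr
            ⟨rfl, Or.inl (Or.inl ⟨rfl, rfl⟩)⟩))))), ?_⟩
          rw [DD_lt true w hp1]
          omega
        · refine ⟨pp w, Or.inr (Or.inl (Or.inl ⟨rfl, rfl⟩)), ?_⟩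
          rw [DD_lt b w hp]
          cases b
          · simp only [Bool.false_eq_true, if_false] at h0
            omega
          · simp only [if_true] at h0
            have : ¬ DD w (pp w - 1) < DD w (pp w) := fun h => hd ⟨rfl, h⟩
            omega
      · by_cases hd : b = true ∧ DD w (pp w) < DD (b :: w) (nn w)
        · obtain ⟨rfl, hd⟩ := hd
          simp only [if_true] at h1
          refine ⟨pp w, Or.inr (Or.inr (Or.inr (Or.inr (Or.inr (Or.inr
            ⟨rfl, Or.inr (Or.inl ⟨rfl, rfl⟩)⟩))))), ?_⟩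
          rw [DD_lt true w hp]
          omega
        · refine ⟨nn w, Or.inr (Or.inr (Or.inl (Or.inl ⟨rfl, rfl⟩))), ?_⟩
          cases b
          · simp only [Bool.false_eq_true, if_false] at h1
            exact h1
          · simp only [if_true] at h1
            have : ¬ DD w (pp w) < DD (true :: w) (nn w) := fun h => hd ⟨rfl, h⟩
            omega
      · by_cases hd : DD (b :: w) (nn w) ≤ DD (b :: w) (nn w + 1)
        · exact ⟨nn w, Or.inr (Or.inr (Or.inr (Or.inl (Or.inl ⟨rfl, rfl⟩)))), by omega⟩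
        · exact ⟨nn w + 1, Or.inr (Or.inr (Or.inr (Or.inr (Or.inl (Or.inl ⟨rfl, rfl⟩))))),
            by omega⟩
      · exact ⟨nn w + 1, Or.inr (Or.inr (Or.inr (Or.inr (Or.inr (Or.inl (Or.inl ⟨rfl, rfl⟩)))))),
          h3⟩

theorem DF_lt {w : List Bool} {v : ℕ} (h : v < nn w) : DF w v = DD w v := by
  unfold DF
  rw [if_pos h]

theorem DF_0 (w : List Bool) : DF w (nn w) = DD w (pp w) + 1 := by
  unfold DF
  rw [if_neg (by omega), if_pos rfl]

theorem DF_1 (w : List Bool) : DF w (nn w + 1) = DD w (pp w) + 2 := by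
  unfold DF
  rw [if_neg (by omega), if_neg (by omega), if_pos (Or.inl rfl)]

theorem DF_2 (w : List Bool) : DF w (nn w + 2) = DD w (pp w) + 3 := by
  unfold DF
  rw [if_neg (by omega), if_neg (by omega), if_neg (by omega)]

theorem DF_3 (w : List Bool) : DF w (nn w + 3) = DD w (pp w) + 2 := by
  unfold DF
  rw [if_neg (by omega), if_neg (by omega), if_pos (Or.inr rfl)]

theorem DF_4 (w : List Bool) : DF w (nn w + 4) = DD w (pp w) + 3 := by
  unfold DF
  rw [if_neg (by omega), if_neg (by omega), if_neg (by omega)]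

theorem step_DF (hB : SpecBS2) (w : List Bool) (hok : Ok w) (u v : ℕ) (h : EF w u v) :
    DF w v ≤ DF w u + 1 := by
  have hp := hB.plt w
  rcases h with h | h
  · obtain ⟨hu, hv⟩ := hB.bnd w u v h
    rw [DF_lt hu, DF_lt hv]
    exact step_DD hB w hok u v h
  · simp only [rt, ed] at h
    rcases h with (⟨rfl, rfl⟩ | ⟨rfl, rfl⟩) | (⟨rfl, rfl⟩ | ⟨rfl, rfl⟩) |
      (⟨rfl, rfl⟩ | ⟨rfl, rfl⟩) | (⟨rfl, rfl⟩ | ⟨rfl, rfl⟩) | (⟨rfl, rfl⟩ | ⟨rfl, rfl⟩) <;>
    simp only [DF_lt hp, DF_0, DF_1, DF_2, DF_3, DF_4] <;> omega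

theorem pre_DF (hB : SpecBS2) (w : List Bool) (hok : Ok w) (v : ℕ) (hv : v < nn w + 5)
    (h0 : v ≠ 0) : ∃ u, EF w u v ∧ DF w v = DF w u + 1 := by
  have hp := hB.plt w
  by_cases hlt : v < nn w
  · obtain ⟨u, hu, hd⟩ := pre_DD hB w hok v hlt h0
    have hb := (hB.bnd w u v hu).1
    exact ⟨u, Or.inl hu, by rw [DF_lt hlt, DF_lt hb, hd]⟩
  · have hc : v = nn w ∨ v = nn w + 1 ∨ v = nn w + 2 ∨ v = nn w + 3 ∨ v = nn w + 4 := by omega
    rcases hc with rfl | rfl | rfl | rfl | rfl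
    · exact ⟨pp w, Or.inr (Or.inl (Or.inl ⟨rfl, rfl⟩)), by rw [DF_lt hp, DF_0]⟩
    · exact ⟨nn w, Or.inr (Or.inr (Or.inl (Or.inl ⟨rfl, rfl⟩))), by rw [DF_1, DF_0]⟩
    · exact ⟨nn w + 1, Or.inr (Or.inr (Or.inr (Or.inl (Or.inl ⟨rfl, rfl⟩)))), by
        rw [DF_2, DF_1]⟩
    · exact ⟨nn w, Or.inr (Or.inr (Or.inr (Or.inr (Or.inl (Or.inl ⟨rfl, rfl⟩))))), by
        rw [DF_3, DF_0]⟩
    · exact ⟨nn w + 3, Or.inr (Or.inr (Or.inr (Or.inr (Or.inr (Or.inl ⟨rfl, rfl⟩))))), by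
        rw [DF_4, DF_3]⟩

end LE2M

open LE2M in
theorem specLE2 (hBS2 : SpecBS2) : SpecLE2 := by
  intro w n h0 hok hn
  refine ⟨?_, ?_, ?_⟩
  · have h5 := five w
    show DF w 0 = 0
    rw [DF_lt (by omega), DD_zero]
  · intro u v h
    exact step_DF hBS2 w hok u v ((hBS2.adjG n w u v).1 h)
  · intro v hv
    have hv0 : (v : ℕ) ≠ 0 := fun h => hv (Fin.ext h)
    obtain ⟨u, hu, hd⟩ := pre_DF hBS2 w hok v (by have := v.2; omega) hv0
    have hb := (hBS2.bndF w u v hu).1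
    exact ⟨⟨u, by omega⟩, (hBS2.adjG n w _ _).2 hu, hd⟩

end Pool.Agent.Lib.MPc95e9c.CH
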