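import Pool.Agent.Lib.MP_c95e9c_lc.CH.Spec

/-!
# Module MI2 (helper12), after OB/MIN of helper52
-/

set_option autoImplicit false

namespace Pool.Agent.Lib.MPc95e9c.CH

namespace MI2M

theorem inv_of_ok (hNI2 : SpecNI2) (hSTB : SpecSTB) (hSTS : SpecSTS) :
    ∀ w : List Bool, Ok w → Inv w := by
  intro w
  induction w with
  | nil => exact fun _ => hNI2
  | cons x w ih =>
    cases x with
    | false => exact fun h => hSTB w (ih h.1)
    | true => exact fun h => hSTS w (h.2 rfl) (ih h.1)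

end MI2M

theorem specMI2 (hBS2 : SpecBS2) (hNI2 : SpecNI2) (hSTB : SpecSTB) (hSTS : SpecSTS)
    (hEN2 : SpecEN2) (hFR2 : SpecFR2) (hCNV : SpecCNV) : SpecMI2 := by
  intro w n hw hok hn
  have hadj : ∀ u v : Fin n, (GG n w).Adj u v ↔ EF w u v := hBS2.adjG n w
  constructor
  · intro hI
    have h1 := hCNV.fwd n _ _ hadj hI
    rw [hn] at h1
    exact hFR2 w hw hok h1
  · intro S hS
    obtain ⟨u, hu⟩ := (Set.ne_univ_iff_exists_notMem S).1 hS
    have hinv := MI2M.inv_of_ok hNI2 hSTB hSTS _ hok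
    have hlt : (u : ℕ) < nn w + 5 := hn ▸ u.2
    have hpl := hEN2 _ hinv u hlt
    refine hCNV.bwd n _ _ hadj S ({v | v < nn w + 5} \ {(u : ℕ)})
      (fun v hv => ⟨?_, ?_⟩) hpl
    · show (v : ℕ) < nn w + 5
      exact hn ▸ v.2
    · intro h
      have h2 : v = u := Fin.ext h
      exact hu (h2 ▸ hv)

end Pool.Agent.Lib.MPc95e9c.CH
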