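import Pool.Agent.Lib.MP_c95e9c_lc.CH.Spec

/-! # Module NI2: the left end. -/

set_option autoImplicit false

namespace Pool.Agent.Lib.MPc95e9c.CH

theorem specNI2 (hNIL : Pool.Agent.Lib.MPc95e9c.SpecNIL) : SpecNI2 := by
  obtain ⟨h1, h2, h3⟩ := hNIL
  refine ⟨?_, ?_, h3, fun h => absurd rfl h⟩
  · obtain ⟨N, l, r, hR, hp, hs, hl⟩ := h1
    exact ⟨N, l, r, hR, hp, hs, hl, fun h => absurd rfl h⟩
  · intro u hu hu0
    obtain ⟨N, l, r, hR, hp, hs, hl⟩ := h2 u hu hu0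
    exact ⟨N, l, r, hR, hp, hs, hl, fun h => absurd rfl h⟩

end Pool.Agent.Lib.MPc95e9c.CH
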