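import Pool.Agent.Lib.MP_c95e9c_lc.CH.Spec

/-!
# Module ORD: the neighbours before a vertex
-/

set_option autoImplicit false

namespace Pool.Agent.Lib.MPc95e9c.CH

namespace ORDM

/-- the neighbours before `i` are one vertex or two adjacent vertices -/
def El (E : ℕ → ℕ → Prop) (i : ℕ) : Prop :=
  ∃ x y, x < i ∧ y < i ∧ (x = y ∨ E x y) ∧ ∀ j < i, (E j i ↔ j = x ∨ j = y)

theorem El.mono {E E' : ℕ → ℕ → Prop} {n i : ℕ} (h : El E i) (hi : i < n)
    (hE : ∀ u < n, ∀ v < n, (E' u v ↔ E u v)) : El E' i := by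
  obtain ⟨x, y, hx, hy, h1, h2⟩ := h
  refine ⟨x, y, hx, hy, ?_, fun j hj => ?_⟩
  · rcases h1 with h1 | h1
    · exact Or.inl h1
    · exact Or.inr ((hE x (by omega) y (by omega)).mpr h1)
  · rw [hE j (by omega) i hi]
    exact h2 j hj

theorem edge (w : List Bool) (hw : w ≠ []) : 1 ≤ pp w ∧ EE w (pp w - 1) (pp w) := by
  cases w with
  | nil => exact absurd rfl hw
  | cons b w =>
    have hp : pp (b :: w) = nn w + 2 := rfl
    refine ⟨by omega, Or.inr (Or.inr (Or.inr (Or.inr (Or.inl ?_))))⟩
    unfold ed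
    omega

theorem nn_cons (b : Bool) (w : List Bool) : nn (b :: w) = nn w + 4 := by
  unfold nn
  rw [List.length_cons]
  omega

theorem low (hBS2 : SpecBS2) (b : Bool) (w : List Bool) (u v : ℕ) (hu : u < nn w) (hv : v < nn w) :
    EE (b :: w) u v ↔ EE w u v := by
  have hp := hBS2.plt w
  constructor
  · rintro (h | h)
    · exact h
    · exfalso
      unfold st ed at h
      omega
  · exact Or.inl

theorem lowF (hBS2 : SpecBS2) (w : List Bool) (u v : ℕ) (hu : u < nn w) (hv : v < nn w) :
    EF w u v ↔ EE w u v := by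
  have hp := hBS2.plt w
  constructor
  · rintro (h | h)
    · exact h
    · exfalso
      unfold rt ed at h
      omega
  · exact Or.inl

theorem main (hBS2 : SpecBS2) : ∀ w : List Bool, Ok w → ∀ i < nn w, i ≠ 0 → El (EE w) i
  | [], _, i, hi, hi0 => by
    have h5 : nn ([] : List Bool) = 5 := rfl
    rw [h5] at hi
    have key : ∀ u v, EE [] u v ↔ (ed 0 1 u v ∨ ed 1 2 u v ∨ ed 0 3 u v ∨ ed 3 4 u v) := fun u v => Iff.rfl
    have hc : i = 1 ∨ i = 2 ∨ i = 3 ∨ i = 4 := by omega
    rcases hc with rfl | rfl | rfl | rfl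
    · refine ⟨0, 0, by omega, by omega, Or.inl rfl, fun j hj => ?_⟩
      rw [key]; unfold ed; omega
    · refine ⟨1, 1, by omega, by omega, Or.inl rfl, fun j hj => ?_⟩
      rw [key]; unfold ed; omega
    · refine ⟨0, 0, by omega, by omega, Or.inl rfl, fun j hj => ?_⟩
      rw [key]; unfold ed; omega
    · refine ⟨3, 3, by omega, by omega, Or.inl rfl, fun j hj => ?_⟩
      rw [key]; unfold ed; omega
  | b :: w, hok, i, hi, hi0 => by
    have hp := hBS2.plt w
    rw [nn_cons] at hi
    by_cases hlt : i < nn w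
    · exact El.mono (main hBS2 w hok.1 i hlt hi0) hlt (fun u hu v hv => low hBS2 b w u v hu hv)
    · have hno : ∀ j, ¬ EE w j i := fun j h => hlt (hBS2.bnd w j i h).2
      have key : ∀ j, EE (b :: w) j i ↔ st b (pp w) (nn w) j i := fun j =>
        ⟨fun h => h.resolve_left (hno j), Or.inr⟩
      have hc : i = nn w ∨ i = nn w + 1 ∨ i = nn w + 2 ∨ i = nn w + 3 := by omega
      cases b with
      | false =>
        rcases hc with rfl | rfl | rfl | rfl
        · refine ⟨pp w, pp w, by omega, by omega, Or.inl rfl, fun j hj => ?_⟩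
          rw [key]; unfold st ed; simp only [Bool.false_eq_true, false_and, or_false, and_true]; omega
        · refine ⟨nn w, nn w, by omega, by omega, Or.inl rfl, fun j hj => ?_⟩
          rw [key]; unfold st ed; simp only [Bool.false_eq_true, false_and, or_false, and_true]; omega
        · refine ⟨nn w, nn w + 1, by omega, by omega, Or.inr (Or.inr (Or.inr (Or.inl ?_))), fun j hj => ?_⟩
          · exact Or.inl ⟨rfl, rfl⟩
          rw [key]; unfold st ed; simp only [Bool.false_eq_true, false_and, or_false, and_true]; omega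
        · refine ⟨nn w + 1, nn w + 1, by omega, by omega, Or.inl rfl, fun j hj => ?_⟩
          rw [key]; unfold st ed; simp only [Bool.false_eq_true, false_and, or_false, and_true]; omega
      | true =>
        have hw : w ≠ [] := hok.2 rfl
        obtain ⟨h1, h2⟩ := edge w hw
        rcases hc with rfl | rfl | rfl | rfl
        · refine ⟨pp w - 1, pp w, by omega, by omega, Or.inr (Or.inl h2), fun j hj => ?_⟩
          rw [key]; unfold st ed; simp only [true_and, and_true]; omega
        · refine ⟨pp w, nn w, by omega, by omega, Or.inr (Or.inr (Or.inl ?_)), fun j hj => ?_⟩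
          · exact Or.inl ⟨rfl, rfl⟩
          rw [key]; unfold st ed; simp only [true_and, and_true]; omega
        · refine ⟨nn w, nn w + 1, by omega, by omega, Or.inr (Or.inr (Or.inr (Or.inl ?_))), fun j hj => ?_⟩
          · exact Or.inl ⟨rfl, rfl⟩
          rw [key]; unfold st ed; simp only [true_and, and_true]; omega
        · refine ⟨nn w + 1, nn w + 1, by omega, by omega, Or.inl rfl, fun j hj => ?_⟩
          rw [key]; unfold st ed; simp only [true_and, and_true]; omega

theorem mainF (hBS2 : SpecBS2) (w : List Bool) (hok : Ok w) (i : ℕ) (hi : i < nn w + 5) (hi0 : i ≠ 0) :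
    El (EF w) i := by
  have hp := hBS2.plt w
  by_cases hlt : i < nn w
  · exact El.mono (main hBS2 w hok i hlt hi0) hlt (fun u hu v hv => lowF hBS2 w u v hu hv)
  · have hno : ∀ j, ¬ EE w j i := fun j h => hlt (hBS2.bnd w j i h).2
    have key : ∀ j, EF w j i ↔ rt (pp w) (nn w) j i := fun j =>
      ⟨fun h => h.resolve_left (hno j), Or.inr⟩
    have hc : i = nn w ∨ i = nn w + 1 ∨ i = nn w + 2 ∨ i = nn w + 3 ∨ i = nn w + 4 := by omega
    rcases hc with rfl | rfl | rfl | rfl | rfl
    · refine ⟨pp w, pp w, by omega, by omega, Or.inl rfl, fun j hj => ?_⟩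
      rw [key]; unfold rt ed; omega
    · refine ⟨nn w, nn w, by omega, by omega, Or.inl rfl, fun j hj => ?_⟩
      rw [key]; unfold rt ed; omega
    · refine ⟨nn w + 1, nn w + 1, by omega, by omega, Or.inl rfl, fun j hj => ?_⟩
      rw [key]; unfold rt ed; omega
    · refine ⟨nn w, nn w, by omega, by omega, Or.inl rfl, fun j hj => ?_⟩
      rw [key]; unfold rt ed; omega
    · refine ⟨nn w + 3, nn w + 3, by omega, by omega, Or.inl rfl, fun j hj => ?_⟩
      rw [key]; unfold rt ed; omega

end ORDM

open ORDM in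
theorem specORD (hBS2 : SpecBS2) : SpecORD := by
  intro w n hok hn i hi0
  obtain ⟨x, y, hx, hy, h1, h2⟩ := mainF hBS2 w hok i (by have := i.2; omega) hi0
  have hin : (i : ℕ) < n := i.2
  refine ⟨⟨x, by omega⟩, ⟨y, by omega⟩, Fin.lt_def.mpr hx, Fin.lt_def.mpr hy, ?_, fun j hj => ?_⟩
  · rcases h1 with h1 | h1
    · exact Or.inl (Fin.ext h1)
    · exact Or.inr ((hBS2.adjG n w _ _).mpr h1)
  · rw [hBS2.adjG, h2 j (Fin.lt_def.mp hj), Fin.ext_iff, Fin.ext_iff]

end Pool.Agent.Lib.MPc95e9c.CH
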