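import Pool.Agent.Lib.MP_c95e9c_lc.CH.Spec

/-!
# Module RO2: an isomorphism maps the vertex 0 to the vertex 0
-/

set_option autoImplicit false

namespace Pool.Agent.Lib.MPc95e9c.CH

namespace RO2M

/-- `r` starts a path `r, u, l` with `l` a leaf and `r, l` the only neighbours of `u`. -/
def Root {V : Type} (G : SimpleGraph V) (r : V) : Prop :=
  ∃ u l, l ≠ r ∧ G.Adj r u ∧ G.Adj u l ∧ (∀ t, G.Adj u t → t = r ∨ t = l) ∧
    ∀ t, G.Adj l t → t = u

/-- `r` starts a path `r, z, x` and `x` has four neighbours. -/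
def Q {V : Type} (G : SimpleGraph V) (r : V) : Prop :=
  ∃ z x, G.Adj r z ∧ G.Adj z x ∧ x ≠ r ∧ ∃ a b c d, G.Adj x a ∧ G.Adj x b ∧ G.Adj x c ∧
    G.Adj x d ∧ a ≠ b ∧ a ≠ c ∧ a ≠ d ∧ b ≠ c ∧ b ≠ d ∧ c ≠ d

theorem root_iso {V V' : Type} {G : SimpleGraph V} {G' : SimpleGraph V'} (φ : G ≃g G') {r : V}
    (h : Root G r) : Root G' (φ r) := by
  obtain ⟨u, l, h1, h2, h3, h4, h5⟩ := h
  refine ⟨φ u, φ l, fun h => h1 (φ.injective h), φ.map_adj_iff.2 h2, φ.map_adj_iff.2 h3, ?_, ?_⟩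
  · intro t ht
    obtain ⟨s, rfl⟩ := φ.surjective t
    rcases h4 s (φ.map_adj_iff.1 ht) with h | h
    · exact Or.inl (by rw [h])
    · exact Or.inr (by rw [h])
  · intro t ht
    obtain ⟨s, rfl⟩ := φ.surjective t
    rw [h5 s (φ.map_adj_iff.1 ht)]

theorem Q_iso {V V' : Type} {G : SimpleGraph V} {G' : SimpleGraph V'} (φ : G ≃g G') {r : V}
    (h : Q G r) : Q G' (φ r) := by
  obtain ⟨z, x, h1, h2, h3, a, b, c, d, ha, hb, hc, hd, n1, n2, n3, n4, n5, n6⟩ := h
  exact ⟨φ z, φ x, φ.map_adj_iff.2 h1, φ.map_adj_iff.2 h2, fun h => h3 (φ.injective h),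
    φ a, φ b, φ c, φ d, φ.map_adj_iff.2 ha, φ.map_adj_iff.2 hb, φ.map_adj_iff.2 hc,
    φ.map_adj_iff.2 hd, fun h => n1 (φ.injective h), fun h => n2 (φ.injective h),
    fun h => n3 (φ.injective h), fun h => n4 (φ.injective h), fun h => n5 (φ.injective h),
    fun h => n6 (φ.injective h)⟩

theorem nn_cons (b : Bool) (w : List Bool) : nn (b :: w) = nn w + 4 := by
  simp only [nn, List.length_cons]
  omega

theorem pp_cons (b : Bool) (w : List Bool) : pp (b :: w) = nn w + 2 := rfl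

/-- three different neighbours -/
def Three (E : ℕ → ℕ → Prop) (u : ℕ) : Prop :=
  ∃ a b c, a ≠ b ∧ a ≠ c ∧ b ≠ c ∧ E u a ∧ E u b ∧ E u c

/-- at most one neighbour -/
def One (E : ℕ → ℕ → Prop) (u : ℕ) : Prop := ∃ s, ∀ t, E u t → t = s

theorem two_pp (w : List Bool) : ∃ s t, s ≠ t ∧ EE w (pp w) s ∧ EE w (pp w) t := by
  cases w with
  | nil =>
    exact ⟨1, 3, by omega, Or.inl (Or.inl ⟨rfl, rfl⟩), Or.inr (Or.inr (Or.inl (Or.inl ⟨rfl, rfl⟩)))⟩
  | cons b w =>
    exact ⟨nn w, nn w + 1, by omega, Or.inr (Or.inr (Or.inr (Or.inl (Or.inr ⟨rfl, rfl⟩)))),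
      Or.inr (Or.inr (Or.inr (Or.inr (Or.inl (Or.inr ⟨rfl, rfl⟩)))))⟩

/-- All vertices of `EE w` but `1`, `3` and the exit have one or at least three neighbours. -/
theorem classify (hB : SpecBS2) (w : List Bool) : ∀ u, u < nn w → u ≠ pp w →
    u = 1 ∨ u = 3 ∨ Three (EE w) u ∨ (One (EE w) u ∧ u ≠ pp w - 1) := by
  induction w with
  | nil =>
    intro u hu hp
    have hu' : u < 5 := hu
    have hp' : u ≠ 0 := hp
    have hc : u = 1 ∨ u = 2 ∨ u = 3 ∨ u = 4 := by omega
    rcases hc with rfl | rfl | rfl | rfl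
    · exact Or.inl rfl
    · refine Or.inr (Or.inr (Or.inr ⟨⟨1, fun t ht => ?_⟩, ?_⟩))
      · simp only [EE, ed] at ht; omega
      · simp [pp]
    · exact Or.inr (Or.inl rfl)
    · refine Or.inr (Or.inr (Or.inr ⟨⟨3, fun t ht => ?_⟩, ?_⟩))
      · simp only [EE, ed] at ht; omega
      · simp [pp]
  | cons b w ih =>
    intro u hu hp
    rw [nn_cons] at hu
    rw [pp_cons] at hp
    rw [pp_cons]
    have hpl := hB.plt w
    by_cases hlt : u < nn w
    · by_cases hup : u = pp w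
      · subst hup
        obtain ⟨s, t, hst, hs, ht⟩ := two_pp w
        have hb1 := (hB.bnd w _ _ hs).2
        have hb2 := (hB.bnd w _ _ ht).2
        exact Or.inr (Or.inr (Or.inl ⟨s, t, nn w, hst, by omega, by omega, Or.inl hs, Or.inl ht,
          Or.inr (Or.inl (Or.inl ⟨rfl, rfl⟩))⟩))
      · rcases ih u hlt hup with h | h | ⟨x, y, z, h1, h2, h3, h4, h5, h6⟩ | ⟨⟨s, hs⟩, h⟩
        · exact Or.inl h
        · exact Or.inr (Or.inl h)
        · exact Or.inr (Or.inr (Or.inl ⟨x, y, z, h1, h2, h3, Or.inl h4, Or.inl h5, Or.inl h6⟩))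
        · refine Or.inr (Or.inr (Or.inr ⟨⟨s, fun t ht => ?_⟩, by omega⟩))
          rcases ht with ht | ht
          · exact hs t ht
          · simp only [st, ed] at ht
            omega
    · have hc : u = nn w ∨ u = nn w + 1 ∨ u = nn w + 3 := by omega
      rcases hc with rfl | rfl | rfl
      · exact Or.inr (Or.inr (Or.inl ⟨pp w, nn w + 1, nn w + 2, by omega, by omega, by omega,
          Or.inr (Or.inl (Or.inr ⟨rfl, rfl⟩)), Or.inr (Or.inr (Or.inl (Or.inl ⟨rfl, rfl⟩))),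
          Or.inr (Or.inr (Or.inr (Or.inl (Or.inl ⟨rfl, rfl⟩))))⟩))
      · exact Or.inr (Or.inr (Or.inl ⟨nn w, nn w + 2, nn w + 3, by omega, by omega, by omega,
          Or.inr (Or.inr (Or.inl (Or.inr ⟨rfl, rfl⟩))),
          Or.inr (Or.inr (Or.inr (Or.inr (Or.inl (Or.inl ⟨rfl, rfl⟩))))),
          Or.inr (Or.inr (Or.inr (Or.inr (Or.inr (Or.inl (Or.inl ⟨rfl, rfl⟩))))))⟩))
      · refine Or.inr (Or.inr (Or.inr ⟨⟨nn w + 1, fun t ht => ?_⟩, by omega⟩))
        rcases ht with ht | ht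
        · have := (hB.bnd w _ _ ht).1
          omega
        · simp only [st, ed] at ht
          omega

/-- The same for the whole graph. -/
theorem classifyF (hB : SpecBS2) (w : List Bool) (u : ℕ) (hu : u < nn w + 5) :
    u = 1 ∨ u = 3 ∨ u = nn w + 1 ∨ u = nn w + 3 ∨ Three (EF w) u ∨ One (EF w) u := by
  have hpl := hB.plt w
  by_cases hlt : u < nn w
  · by_cases hup : u = pp w
    · subst hup
      obtain ⟨s, t, hst, hs, ht⟩ := two_pp w
      have hb1 := (hB.bnd w _ _ hs).2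
      have hb2 := (hB.bnd w _ _ ht).2
      exact Or.inr (Or.inr (Or.inr (Or.inr (Or.inl ⟨s, t, nn w, hst, by omega, by omega,
        Or.inl hs, Or.inl ht, Or.inr (Or.inl (Or.inl ⟨rfl, rfl⟩))⟩))))
    · rcases classify hB w u hlt hup with h | h | ⟨x, y, z, h1, h2, h3, h4, h5, h6⟩ | ⟨⟨s, hs⟩, h⟩
      · exact Or.inl h
      · exact Or.inr (Or.inl h)
      · exact Or.inr (Or.inr (Or.inr (Or.inr (Or.inl ⟨x, y, z, h1, h2, h3, Or.inl h4, Or.inl h5,
          Or.inl h6⟩))))
      · refine Or.inr (Or.inr (Or.inr (Or.inr (Or.inr ⟨s, fun t ht => ?_⟩))))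
        rcases ht with ht | ht
        · exact hs t ht
        · simp only [rt, ed] at ht
          omega
  · have hc : u = nn w ∨ u = nn w + 1 ∨ u = nn w + 2 ∨ u = nn w + 3 ∨ u = nn w + 4 := by omega
    rcases hc with h | h | h | h | h
    · subst h
      exact Or.inr (Or.inr (Or.inr (Or.inr (Or.inl ⟨pp w, nn w + 1, nn w + 3, by omega, by omega,
        by omega, Or.inr (Or.inl (Or.inr ⟨rfl, rfl⟩)), Or.inr (Or.inr (Or.inl (Or.inl ⟨rfl, rfl⟩))),
        Or.inr (Or.inr (Or.inr (Or.inr (Or.inl (Or.inl ⟨rfl, rfl⟩)))))⟩))))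
    · exact Or.inr (Or.inr (Or.inl h))
    · refine Or.inr (Or.inr (Or.inr (Or.inr (Or.inr ⟨nn w + 1, fun t ht => ?_⟩))))
      rcases ht with ht | ht
      · have := (hB.bnd w _ _ ht).1
        omega
      · simp only [rt, ed] at ht
        omega
    · exact Or.inr (Or.inr (Or.inr (Or.inl h)))
    · refine Or.inr (Or.inr (Or.inr (Or.inr (Or.inr ⟨nn w + 3, fun t ht => ?_⟩))))
      rcases ht with ht | ht
      · have := (hB.bnd w _ _ ht).1
        omega
      · simp only [rt, ed] at ht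
        omega

theorem far (w : List Bool) : 11 ≤ pp (w ++ [false, false]) ∧ 13 ≤ nn (w ++ [false, false]) := by
  cases w with
  | nil => exact ⟨le_rfl, le_rfl⟩
  | cons b w =>
    have h1 : 13 ≤ nn (w ++ [false, false]) := by
      simp only [nn, List.length_append, List.length_cons, List.length_nil]
      omega
    rw [List.cons_append, nn_cons, pp_cons]
    omega

/-- The neighbours of the vertices near the left end. -/
theorem near (w : List Bool) : ∀ v,
    (EE (w ++ [false, false]) 0 v → v = 1 ∨ v = 3 ∨ v = 5) ∧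
    (EE (w ++ [false, false]) 1 v → v = 0 ∨ v = 2) ∧
    (EE (w ++ [false, false]) 2 v → v = 1) ∧
    (EE (w ++ [false, false]) 3 v → v = 0 ∨ v = 4) ∧
    (EE (w ++ [false, false]) 4 v → v = 3) ∧
    (EE (w ++ [false, false]) 5 v → v = 0 ∨ v = 6 ∨ v = 7) ∧
    (EE (w ++ [false, false]) 6 v → v = 5 ∨ v = 7 ∨ v = 8) ∧
    (EE (w ++ [false, false]) 7 v → v = 5 ∨ v = 6 ∨ v = 9) := by
  induction w with
  | nil =>
    intro v
    have e1 : nn [false] = 9 := rfl
    have e2 : nn ([] : List Bool) = 5 := rfl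
    simp only [List.nil_append, EE, st, ed, pp, e1, e2, Bool.false_eq_true, false_and, or_false]
    refine ⟨?_, ?_, ?_, ?_, ?_, ?_, ?_, ?_⟩ <;> intro h <;> omega
  | cons b w ih =>
    intro v
    obtain ⟨f1, f2⟩ := far w
    have key : ∀ u, u ≤ 8 → EE (b :: (w ++ [false, false])) u v → EE (w ++ [false, false]) u v := by
      intro u hu h
      rcases h with h | h
      · exact h
      · exfalso
        simp only [st, ed] at h
        omega
    obtain ⟨i0, i1, i2, i3, i4, i5, i6, i7⟩ := ih v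
    rw [List.cons_append]
    exact ⟨fun h => i0 (key 0 (by omega) h), fun h => i1 (key 1 (by omega) h),
      fun h => i2 (key 2 (by omega) h), fun h => i3 (key 3 (by omega) h),
      fun h => i4 (key 4 (by omega) h), fun h => i5 (key 5 (by omega) h),
      fun h => i6 (key 6 (by omega) h), fun h => i7 (key 7 (by omega) h)⟩

theorem nearF (w : List Bool) (v : ℕ) :
    (EF (w ++ [false, false]) 0 v → v = 1 ∨ v = 3 ∨ v = 5) ∧
    (EF (w ++ [false, false]) 1 v → v = 0 ∨ v = 2) ∧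
    (EF (w ++ [false, false]) 2 v → v = 1) ∧
    (EF (w ++ [false, false]) 3 v → v = 0 ∨ v = 4) ∧
    (EF (w ++ [false, false]) 4 v → v = 3) ∧
    (EF (w ++ [false, false]) 5 v → v = 0 ∨ v = 6 ∨ v = 7) ∧
    (EF (w ++ [false, false]) 6 v → v = 5 ∨ v = 7 ∨ v = 8) ∧
    (EF (w ++ [false, false]) 7 v → v = 5 ∨ v = 6 ∨ v = 9) := by
  obtain ⟨f1, f2⟩ := far w
  have key : ∀ u, u ≤ 8 → EF (w ++ [false, false]) u v → EE (w ++ [false, false]) u v := by
    intro u hu h
    rcases h with h | h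
    · exact h
    · exfalso
      simp only [rt, ed] at h
      omega
  obtain ⟨i0, i1, i2, i3, i4, i5, i6, i7⟩ := near w v
  exact ⟨fun h => i0 (key 0 (by omega) h), fun h => i1 (key 1 (by omega) h),
    fun h => i2 (key 2 (by omega) h), fun h => i3 (key 3 (by omega) h),
    fun h => i4 (key 4 (by omega) h), fun h => i5 (key 5 (by omega) h),
    fun h => i6 (key 6 (by omega) h), fun h => i7 (key 7 (by omega) h)⟩

/-- The neighbours of two vertices of the right end. -/
theorem newF (hB : SpecBS2) (w : List Bool) (v : ℕ) :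
    (EF w (nn w + 1) v → v = nn w ∨ v = nn w + 2) ∧
    (EF w (nn w + 3) v → v = nn w ∨ v = nn w + 4) := by
  have hp := hB.plt w
  refine ⟨fun h => ?_, fun h => ?_⟩
  · rcases h with h | h
    · have := (hB.bnd w _ _ h).1; omega
    · simp only [rt, ed] at h; omega
  · rcases h with h | h
    · have := (hB.bnd w _ _ h).1; omega
    · simp only [rt, ed] at h; omega

/-- More steps, more edges. -/
theorem EE_app (w v : List Bool) (a b : ℕ) (h : EE v a b) : EE (w ++ v) a b := by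
  induction w with
  | nil => exact h
  | cons l w ih => exact Or.inl ih

theorem e01 (w : List Bool) : EF w 0 1 := Or.inl (by
  have := EE_app w [] 0 1 (Or.inl (Or.inl ⟨rfl, rfl⟩))
  rwa [List.append_nil] at this)

theorem e12 (w : List Bool) : EF w 1 2 := Or.inl (by
  have := EE_app w [] 1 2 (Or.inr (Or.inl (Or.inl ⟨rfl, rfl⟩)))
  rwa [List.append_nil] at this)

theorem e03 (w : List Bool) : EF w 0 3 := Or.inl (by
  have := EE_app w [] 0 3 (Or.inr (Or.inr (Or.inl (Or.inl ⟨rfl, rfl⟩))))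
  rwa [List.append_nil] at this)

/-- The vertex `0` is a root. -/
theorem root_zero (hB : SpecBS2) (w : List Bool) (n : ℕ) (h0 : 0 < n)
    (hn : n = nn (w ++ [false, false]) + 5) : Root (GG n (w ++ [false, false])) ⟨0, h0⟩ := by
  have hadj := hB.adjG n (w ++ [false, false])
  obtain ⟨f1, f2⟩ := far w
  refine ⟨⟨1, by omega⟩, ⟨2, by omega⟩, ?_, (hadj _ _).2 (e01 _), (hadj _ _).2 (e12 _), ?_, ?_⟩
  · intro h
    have := congrArg Fin.val h
    simp at this
  · intro t ht
    have h := (nearF w t).2.1 ((hadj _ _).1 ht)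
    rcases h with h | h
    · exact Or.inl (Fin.ext h)
    · exact Or.inr (Fin.ext h)
  · intro t ht
    exact Fin.ext ((nearF w t).2.2.1 ((hadj _ _).1 ht))

/-- The vertex `0` does not have the property `Q`. -/
theorem not_Q_zero (hB : SpecBS2) (w : List Bool) (n : ℕ) (h0 : 0 < n) :
    ¬ Q (GG n (w ++ [false, false])) ⟨0, h0⟩ := by
  rintro ⟨z, x, h1, h2, h3, a, b, c, d, ha, hb, hc, hd, n1, n2, n3, n4, n5, n6⟩
  have hadj := hB.adjG n (w ++ [false, false])
  rw [hadj] at h1 h2 ha hb hc hd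
  have m1 : (a : ℕ) ≠ b := fun h => n1 (Fin.ext h)
  have m2 : (a : ℕ) ≠ c := fun h => n2 (Fin.ext h)
  have m3 : (a : ℕ) ≠ d := fun h => n3 (Fin.ext h)
  have m4 : (b : ℕ) ≠ c := fun h => n4 (Fin.ext h)
  have m5 : (b : ℕ) ≠ d := fun h => n5 (Fin.ext h)
  have m6 : (c : ℕ) ≠ d := fun h => n6 (Fin.ext h)
  have hx0 : (x : ℕ) ≠ 0 := fun h => h3 (Fin.ext h)
  have hz := (nearF w z).1 h1
  have hx : (x : ℕ) = 2 ∨ (x : ℕ) = 4 ∨ (x : ℕ) = 6 ∨ (x : ℕ) = 7 := by
    rcases hz with hz | hz | hz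
    · rw [hz] at h2
      have := (nearF w x).2.1 h2
      omega
    · rw [hz] at h2
      have := (nearF w x).2.2.2.1 h2
      omega
    · rw [hz] at h2
      have := (nearF w x).2.2.2.2.2.1 h2
      omega
  rcases hx with hx | hx | hx | hx <;> rw [hx] at ha hb hc hd
  · have := (nearF w a).2.2.1 ha
    have := (nearF w b).2.2.1 hb
    omega
  · have := (nearF w a).2.2.2.2.1 ha
    have := (nearF w b).2.2.2.2.1 hb
    omega
  · have := (nearF w a).2.2.2.2.2.2.1 ha
    have := (nearF w b).2.2.2.2.2.2.1 hb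
    have := (nearF w c).2.2.2.2.2.2.1 hc
    have := (nearF w d).2.2.2.2.2.2.1 hd
    omega
  · have := (nearF w a).2.2.2.2.2.2.2 ha
    have := (nearF w b).2.2.2.2.2.2.2 hb
    have := (nearF w c).2.2.2.2.2.2.2 hc
    have := (nearF w d).2.2.2.2.2.2.2 hd
    omega

/-- The roots. -/
theorem root_only (hB : SpecBS2) (w : List Bool) (n : ℕ) (hn : n = nn (w ++ [false, false]) + 5)
    (r : Fin n) (h : Root (GG n (w ++ [false, false])) r) :
    (r : ℕ) = 0 ∨ (r : ℕ) = nn (w ++ [false, false]) := by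
  obtain ⟨u, l, h1, h2, h3, h4, h5⟩ := h
  have hadj := hB.adjG n (w ++ [false, false])
  rw [hadj] at h2 h3
  have h2' := hB.symF _ _ _ h2
  have hlr : (l : ℕ) ≠ r := fun h => h1 (Fin.ext h)
  have h4' : ∀ t, EF (w ++ [false, false]) u t → t = r ∨ t = l := by
    intro t ht
    have hb := (hB.bndF _ _ _ ht).2
    rcases h4 ⟨t, by omega⟩ ((hadj _ _).2 ht) with h | h
    · exact Or.inl (congrArg Fin.val h)
    · exact Or.inr (congrArg Fin.val h)
  have h5' : ∀ t, EF (w ++ [false, false]) l t → t = u := by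
    intro t ht
    have hb := (hB.bndF _ _ _ ht).2
    exact congrArg Fin.val (h5 ⟨t, by omega⟩ ((hadj _ _).2 ht))
  obtain ⟨f1, f2⟩ := far w
  rcases classifyF hB (w ++ [false, false]) u (by have := u.2; omega) with
    hu | hu | hu | hu | ⟨a, b, c, n1, n2, n3, ha, hb, hc⟩ | ⟨s, hs⟩
  · rw [hu] at h2' h3
    have hr := (nearF w r).2.1 h2'
    have hl := (nearF w l).2.1 h3
    rcases hl with hl | hl
    · have := h5' 3 (by rw [hl]; exact e03 _)
      omega
    · omega
  · rw [hu] at h2' h3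
    have hr := (nearF w r).2.2.2.1 h2'
    have hl := (nearF w l).2.2.2.1 h3
    rcases hl with hl | hl
    · have := h5' 1 (by rw [hl]; exact e01 _)
      omega
    · omega
  · rw [hu] at h2' h3
    have hr := (newF hB _ r).1 h2'
    have hl := (newF hB _ l).1 h3
    rcases hl with hl | hl
    · have := h5' (nn (w ++ [false, false]) + 3) (by
        rw [hl]
        exact Or.inr (Or.inr (Or.inr (Or.inr (Or.inl (Or.inl ⟨rfl, rfl⟩))))))
      omega
    · omega
  · rw [hu] at h2' h3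
    have hr := (newF hB _ r).2 h2'
    have hl := (newF hB _ l).2 h3
    rcases hl with hl | hl
    · have := h5' (nn (w ++ [false, false]) + 1) (by
        rw [hl]
        exact Or.inr (Or.inr (Or.inl (Or.inl ⟨rfl, rfl⟩))))
      omega
    · omega
  · have := h4' a ha
    have := h4' b hb
    have := h4' c hc
    omega
  · exact absurd ((hs _ h3).trans (hs _ h2').symm) hlr

/-- The right end has the property `Q` if the last step is `true`. -/
theorem Q_right (hB : SpecBS2) (u : List Bool) (n : ℕ) (hn : n = nn (true :: false :: u) + 5)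
    (r : Fin n) (hr : (r : ℕ) = nn (true :: false :: u)) : Q (GG n (true :: false :: u)) r := by
  have hadj := hB.adjG n (true :: false :: u)
  have e1 : nn (true :: false :: u) = nn u + 8 := by rw [nn_cons, nn_cons]
  have e2 : nn (false :: u) = nn u + 4 := nn_cons _ _
  have e3 : pp (true :: false :: u) = nn u + 6 := by rw [pp_cons, nn_cons]
  have e4 : pp (false :: u) = nn u + 2 := pp_cons _ _
  have hst : ∀ a b, st true (nn u + 2) (nn u + 4) a b → EF (true :: false :: u) a b := by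
    intro a b h
    refine Or.inl (Or.inr ?_)
    rw [e2, e4]
    exact h
  have f1 : EF (true :: false :: u) (nn u + 8) (nn u + 6) := by
    refine Or.inr ?_
    rw [e1, e3]
    exact Or.inl (Or.inr ⟨rfl, rfl⟩)
  have f2 : EF (true :: false :: u) (nn u + 6) (nn u + 5) :=
    hst _ _ (Or.inr (Or.inr (Or.inr (Or.inl (Or.inr ⟨rfl, rfl⟩)))))
  have f3 : EF (true :: false :: u) (nn u + 5) (nn u + 4) :=
    hst _ _ (Or.inr (Or.inl (Or.inr ⟨rfl, rfl⟩)))
  have f4 : EF (true :: false :: u) (nn u + 5) (nn u + 6) :=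
    hst _ _ (Or.inr (Or.inr (Or.inr (Or.inl (Or.inl ⟨rfl, rfl⟩)))))
  have f5 : EF (true :: false :: u) (nn u + 5) (nn u + 7) :=
    hst _ _ (Or.inr (Or.inr (Or.inr (Or.inr (Or.inl (Or.inl ⟨rfl, rfl⟩))))))
  have f6 : EF (true :: false :: u) (nn u + 5) (nn u + 2) :=
    hst _ _ (Or.inr (Or.inr (Or.inr (Or.inr (Or.inr ⟨rfl, Or.inr (Or.inr ⟨rfl, rfl⟩)⟩)))))
  rw [e1] at hn hr
  refine ⟨⟨nn u + 6, by omega⟩, ⟨nn u + 5, by omega⟩, ?_, (hadj _ _).2 f2, ?_,
    ⟨nn u + 4, by omega⟩, ⟨nn u + 6, by omega⟩, ⟨nn u + 7, by omega⟩, ⟨nn u + 2, by omega⟩,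
    (hadj _ _).2 f3, (hadj _ _).2 f4, (hadj _ _).2 f5, (hadj _ _).2 f6, ?_⟩
  · rw [hadj, hr]
    exact f1
  · intro h
    have h' := congrArg Fin.val h
    rw [hr] at h'
    simp at h'
  · simp only [ne_eq, Fin.mk.injEq]
    omega

theorem WW_app (k : ℕ) (bs : List Bool) : ∃ v, WW k bs = v ++ [false, false] := by
  have key : ∀ bs : List Bool, ∃ v, false :: wd (k + 1) bs = v ++ [false, false] := by
    intro bs
    induction bs with
    | nil =>
      refine ⟨List.replicate k false, ?_⟩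
      have e : wd (k + 1) [] = List.replicate (k + 1) false := rfl
      rw [e, ← List.replicate_succ, List.replicate_succ', List.replicate_succ',
        List.append_assoc]
      rfl
    | cons b bs ih =>
      obtain ⟨v, hv⟩ := ih
      refine ⟨false :: b :: v, ?_⟩
      have e : wd (k + 1) (b :: bs) = b :: false :: wd (k + 1) bs := rfl
      rw [e, hv]
      rfl
  obtain ⟨v, hv⟩ := key bs
  refine ⟨true :: v, ?_⟩
  have e : WW k bs = true :: (false :: wd (k + 1) bs) := rfl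
  rw [e, hv]
  rfl

end RO2M

open RO2M in
theorem specRO2 (hBS2 : SpecBS2) : SpecRO2 := by
  intro k k' bs bs' n h0 hn hn' φ
  obtain ⟨v, hv⟩ := WW_app k bs
  obtain ⟨v', hv'⟩ := WW_app k' bs'
  have hr : Root (GG n (WW k bs)) ⟨0, h0⟩ := by
    rw [hv] at hn ⊢
    exact root_zero hBS2 v n h0 hn
  have hr' := root_iso φ hr
  have hc : ((φ ⟨0, h0⟩ : Fin n) : ℕ) = 0 ∨ ((φ ⟨0, h0⟩ : Fin n) : ℕ) = nn (WW k' bs') := by
    rw [hv'] at hn'
    have := root_only hBS2 v' n hn' (φ ⟨0, h0⟩) (hv' ▸ hr')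
    rwa [← hv'] at this
  rcases hc with hc | hc
  · exact Fin.ext hc
  · exfalso
    have hQ' : Q (GG n (WW k' bs')) (φ ⟨0, h0⟩) :=
      Q_right hBS2 (wd (k' + 1) bs') n hn' _ hc
    have hQ := Q_iso φ.symm hQ'
    rw [RelIso.symm_apply_apply] at hQ
    rw [hv] at hQ
    exact not_Q_zero hBS2 v n h0 hQ

end Pool.Agent.Lib.MPc95e9c.CH
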