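import Pool.Agent.Lib.MP_c95e9c_lc.CH.Spec

/-!
# Module STB (helper12): a step with the bit `false`; after OB/STA
-/

set_option autoImplicit false

namespace Pool.Agent.Lib.MPc95e9c.CH

namespace STBM

/-- the data of the new vertices -/
structure ND (R : ℕ → ℕ → Prop) (n : ℕ) (T NT : Set ℕ) (a b : ℕ → ℝ) : Prop where
  ge : ∀ v ∈ T, n ≤ v
  pos : ∀ v ∈ T, 0 < a v ∧ a v ≤ b v
  ind : ∀ u ∈ T, ∀ v ∈ T, u ∈ NT → v ∈ NT → ¬ R u v
  adj : ∀ u ∈ T, ∀ v ∈ T, u ≠ v → ¬ (u ∈ NT ∧ v ∈ NT) → (R u v ↔ a u ≤ b v ∧ a v ≤ b u)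

/-- the new edges -/
structure NR (w : List Bool) (R : ℕ → ℕ → Prop) : Prop where
  sym : ∀ u v, R u v → R v u
  sup : ∀ u v, R u v → (u = pp w ∨ nn w ≤ u) ∧ (v = pp w ∨ nn w ≤ v) ∧ (nn w ≤ u ∨ nn w ≤ v)

theorem glue (hB : SpecBS2) (hG : SpecGLU) {w : List Bool} {R : ℕ → ℕ → Prop} (hR : NR w R)
    {S T N NT : Set ℕ} {l r a b : ℕ → ℝ} {M e : ℝ} (hRp : Rp (EE w) S N l r) (hS : S ⊆ Vw w)
    (hT : ND R (nn w) T NT a b) (h1 : ∀ v ∈ S, v ≠ pp w → r v < M) (h2 : pp w ∈ S → r (pp w) = M)
    (he : 0 ≤ e) (h3 : pp w ∈ S → pp w ∈ N → ∀ v ∈ T, v ∈ NT → ¬ R (pp w) v)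
    (h4 : pp w ∈ S → ∀ v ∈ T, ¬ (pp w ∈ N ∧ v ∈ NT) → (R (pp w) v ↔ a v ≤ e)) :
    ∃ (N' : Set ℕ) (l' r' : ℕ → ℝ), Rp (fun u v => EE w u v ∨ R u v) (S ∪ T) N' l' r' ∧
      (∀ v ∈ T, (v ∈ N' ↔ v ∈ NT) ∧ r' v = M + b v) ∧ (∀ v ∈ S, r' v ≤ M + e) := by
  have hp := hB.plt w
  have k1 : Disjoint S T := by
    rw [Set.disjoint_left]
    intro v hv hv'
    have h5 : v < nn w := hS hv
    have h6 := hT.ge v hv'
    omega
  have k2 : pp w ∉ T := by
    intro h
    have := hT.ge _ h
    omega
  have k3 : ∀ u v, (EE w u v ∨ R u v) → (EE w v u ∨ R v u) := by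
    rintro u v (h | h)
    · exact Or.inl (hB.sym w u v h)
    · exact Or.inr (hR.sym u v h)
  have k4 : ∀ u ∈ S, ∀ v ∈ S, ((EE w u v ∨ R u v) ↔ EE w u v) := by
    intro u hu v hv
    refine ⟨?_, Or.inl⟩
    rintro (h | h)
    · exact h
    · have h5 : u < nn w := hS hu
      have h6 : v < nn w := hS hv
      have := (hR.sup u v h).2.2
      omega
  have k5 : ∀ u ∈ S, u ≠ pp w → ∀ v ∈ T, ¬ (EE w u v ∨ R u v) := by
    rintro u hu hup v hv (h | h)
    · have := (hB.bnd w u v h).2
      have := hT.ge v hv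
      omega
    · have h5 : u < nn w := hS hu
      rcases (hR.sup u v h).1 with h6 | h6
      · exact hup h6
      · omega
  have k6 : ∀ u ∈ T, ∀ v ∈ T, u ∈ NT → v ∈ NT → ¬ (EE w u v ∨ R u v) := by
    rintro u hu v hv hu' hv' (h | h)
    · have := (hB.bnd w u v h).2
      have := hT.ge v hv
      omega
    · exact hT.ind u hu v hv hu' hv' h
  have k7 : pp w ∈ S → pp w ∈ N → ∀ v ∈ T, v ∈ NT → ¬ (EE w (pp w) v ∨ R (pp w) v) := by
    rintro hpS hpN v hv hv' (h | h)
    · have := (hB.bnd w _ v h).2
      have := hT.ge v hv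
      omega
    · exact h3 hpS hpN v hv hv' h
  have k8 : ∀ u ∈ T, ∀ v ∈ T, u ≠ v → ¬ (u ∈ NT ∧ v ∈ NT) →
      ((EE w u v ∨ R u v) ↔ a u ≤ b v ∧ a v ≤ b u) := by
    intro u hu v hv huv hN
    rw [← hT.adj u hu v hv huv hN]
    refine ⟨?_, Or.inr⟩
    rintro (h | h)
    · have := (hB.bnd w u v h).2
      have := hT.ge v hv
      omega
    · exact h
  have k9 : pp w ∈ S → ∀ v ∈ T, ¬ (pp w ∈ N ∧ v ∈ NT) →
      ((EE w (pp w) v ∨ R (pp w) v) ↔ a v ≤ e) := by
    intro hpS v hv hN
    rw [← h4 hpS v hv hN]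
    refine ⟨?_, Or.inr⟩
    rintro (h | h)
    · have := (hB.bnd w _ v h).2
      have := hT.ge v hv
      omega
    · exact h
  obtain ⟨N', l', r', g1, g2, g3, g4⟩ := hG (EE w) (fun u v => EE w u v ∨ R u v) S T N NT l r a b
    (pp w) M e hRp k1 k2 h1 h2 he k3 k4 k5 hT.pos k6 k7 k8 k9
  refine ⟨N', l', r', g1, g2, fun v hv => ?_⟩
  by_cases hvp : v = pp w
  · subst hvp
    exact (g4 hv).1.le
  · have := g3 v hv hvp
    linarith

/-- the result of the gluing -/
def Res (E : ℕ → ℕ → Prop) (S T NT : Set ℕ) (b : ℕ → ℝ) (e : ℝ) : Prop :=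
  ∃ (N' : Set ℕ) (l' r' : ℕ → ℝ) (M : ℝ), Rp E (S ∪ T) N' l' r' ∧
      (∀ v ∈ T, (v ∈ N' ↔ v ∈ NT) ∧ r' v = M + b v) ∧ (∀ v ∈ S, r' v ≤ M + e)

/-- gluing, from a representation in which the interval of the exit ends last -/
theorem fromEx (hB : SpecBS2) (hG : SpecGLU) {w : List Bool} {R : ℕ → ℕ → Prop} (hR : NR w R)
    {S T NT : Set ℕ} {a b : ℕ → ℝ} {e : ℝ} {s : Bool} (hE : Ex2 (EE w) S (pp w) s)
    (hS : S ⊆ Vw w) (hT : ND R (nn w) T NT a b) (he : 0 ≤ e)
    (h3 : s = true → ∀ v ∈ T, v ∈ NT → ¬ R (pp w) v)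
    (h4 : ∀ v ∈ T, ¬ (s = true ∧ v ∈ NT) → (R (pp w) v ↔ a v ≤ e)) :
    Res (fun u v => EE w u v ∨ R u v) S T NT b e := by
  obtain ⟨N, l, r, g1, g2, g3, g4, -⟩ := hE
  obtain ⟨N', l', r', k⟩ := glue hB hG hR g1 hS hT g4 (fun _ => rfl) he
    (fun _ hp => h3 (g3.1 hp)) (fun _ v hv hN => h4 v hv (fun h => hN ⟨g3.2 h.1, h.2⟩))
  exact ⟨N', l', r', _, k⟩

/-- gluing, the exit is deleted -/
theorem fromPl (hB : SpecBS2) (hG : SpecGLU) {w : List Bool} {R : ℕ → ℕ → Prop} (hR : NR w R)
    {S T NT : Set ℕ} {a b : ℕ → ℝ} (hE : Pl (EE w) S) (hpS : pp w ∉ S)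
    (hS : S ⊆ Vw w) (hT : ND R (nn w) T NT a b) :
    Res (fun u v => EE w u v ∨ R u v) S T NT b 0 := by
  obtain ⟨N, l, r, g1⟩ := hE
  have hfin : (r '' S).Finite := (Set.Finite.subset (Set.finite_lt_nat (nn w)) hS).image r
  obtain ⟨M, hM⟩ := hfin.bddAbove
  obtain ⟨N', l', r', k⟩ := glue hB hG hR (M := M + 1) (e := 0) g1 hS hT
    (fun v hv _ => by
      have := hM ⟨v, hv, rfl⟩
      linarith) (fun h => absurd h hpS) le_rfl (fun h => absurd h hpS) (fun h => absurd h hpS)
  exact ⟨N', l', r', _, k⟩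

/-- the exit `q` with `q - 1` present -/
theorem toEx2 {E : ℕ → ℕ → Prop} {S T NT U : Set ℕ} {b : ℕ → ℝ} {e : ℝ} {p : ℕ} {s : Bool}
    (h : Res E S T NT b e)
    (hU : U = S ∪ T) (hp : p ∈ T) (hs : p ∈ NT ↔ s = true) (hb : ∀ v ∈ T, v ≠ p → b v < b p)
    (he : e < b p) (hq : p - 1 ∈ T) (hqN : p - 1 ∉ NT)
    (hqb : ∀ v ∈ T, v ≠ p → v ≠ p - 1 → b v < b (p - 1)) (hqe : e < b (p - 1)) : Ex2 E U p s := by
  obtain ⟨N', l', r', M, h1, h2, h3⟩ := h
  subst hU
  refine ⟨N', l', r', h1, Or.inr hp, (h2 p hp).1.trans hs, ?_, ?_⟩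
  · rintro v (hv | hv) hvp
    · rw [(h2 p hp).2]
      have := h3 v hv
      linarith
    · rw [(h2 p hp).2, (h2 v hv).2]
      have := hb v hv hvp
      linarith
  · intro _ _
    refine ⟨fun hc => hqN ((h2 _ hq).1.1 hc), ?_⟩
    rintro v (hv | hv) hvp hvq
    · rw [(h2 _ hq).2]
      have := h3 v hv
      linarith
    · rw [(h2 _ hq).2, (h2 v hv).2]
      have := hqb v hv hvp hvq
      linarith

theorem toEx1 {E : ℕ → ℕ → Prop} {S T NT U : Set ℕ} {b : ℕ → ℝ} {e : ℝ} {p : ℕ}
    (h : Res E S T NT b e)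
    (hU : U = S ∪ T) (hp : p ∈ T) (hs : p ∉ NT) (hb : ∀ v ∈ T, v ≠ p → b v < b p)
    (he : e < b p) : Ex1 E U p := by
  obtain ⟨N', l', r', M, h1, h2, h3⟩ := h
  subst hU
  refine ⟨N', l', r', h1, Or.inr hp, fun hc => hs ((h2 p hp).1.1 hc), ?_⟩
  rintro v (hv | hv) hvp
  · rw [(h2 p hp).2]
    have := h3 v hv
    linarith
  · rw [(h2 p hp).2, (h2 v hv).2]
    have := hb v hv hvp
    linarith

theorem toPl {E : ℕ → ℕ → Prop} {S T NT U : Set ℕ} {b : ℕ → ℝ} {e : ℝ}
    (h : Res E S T NT b e) (hU : U = S ∪ T) : Pl E U := by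
  obtain ⟨N', l', r', M, h1, h2, h3⟩ := h
  subst hU
  exact ⟨N', l', r', h1⟩

/-- `p - 1` is absent and an isolated vertex `i` is added -/
theorem toIso (hI : SpecISV) {E : ℕ → ℕ → Prop} {S T NT U : Set ℕ} {b : ℕ → ℝ} {e : ℝ} {p n i : ℕ}
    {s : Bool} (h : Res E S T NT b e) (hU : U = (S ∪ T) ∪ {i}) (hp : p ∈ T)
    (hs : p ∈ NT ↔ s = true) (hb : ∀ v ∈ T, v ≠ p → b v < b p) (he : e < b p)
    (hn : ∀ v ∈ S ∪ T, v < n) (hi : i ∉ S ∪ T) (hiE : ∀ v ∈ S ∪ T, ¬ E i v ∧ ¬ E v i) (hii : ¬ E i i)
    (hq : p - 1 ∉ U) : Ex2 E U p s := by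
  obtain ⟨N', l', r', M, h1, h2, h3⟩ := h
  obtain ⟨N2, l2, r2, g1, g2, g3⟩ := hI E n (S ∪ T) N' l' r' i h1 hn hi hiE hii
  have hpS : p ∈ S ∪ T := Or.inr hp
  refine ⟨N2, l2, r2, ?_, ?_, ?_, ?_, ?_⟩
  · rw [hU]
    exact g1
  · rw [hU]
    exact Or.inl hpS
  · exact (g2 p hpS).1.trans ((h2 p hp).1.trans hs)
  · rw [hU]
    rintro v (hv | hv) hvp
    · rw [(g2 v hv).2.1, (g2 p hpS).2.1]
      rcases hv with hv | hv
      · rw [(h2 p hp).2]
        have := h3 v hv
        linarith
      · rw [(h2 p hp).2, (h2 v hv).2]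
        have := hb v hv hvp
        linarith
    · rw [Set.mem_singleton_iff] at hv
      subst hv
      rw [(g2 p hpS).2.1]
      exact (g2 p hpS).2.2
  · intro _ hc
    exact absurd hc hq

/-- a function with four given values -/
def f4 (n : ℕ) (a0 a1 a2 a3 : ℝ) (v : ℕ) : ℝ :=
  if v = n then a0 else if v = n + 1 then a1 else if v = n + 2 then a2 else a3

theorem f40 (n : ℕ) (a0 a1 a2 a3 : ℝ) : f4 n a0 a1 a2 a3 n = a0 := by simp [f4]
theorem f41 (n : ℕ) (a0 a1 a2 a3 : ℝ) : f4 n a0 a1 a2 a3 (n + 1) = a1 := by simp [f4]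
theorem f42 (n : ℕ) (a0 a1 a2 a3 : ℝ) : f4 n a0 a1 a2 a3 (n + 2) = a2 := by simp [f4]
theorem f43 (n : ℕ) (a0 a1 a2 a3 : ℝ) : f4 n a0 a1 a2 a3 (n + 3) = a3 := by simp [f4]

/-- the edges of the step -/
def R0 (p x u v : ℕ) : Prop :=
  ed p x u v ∨ ed x (x + 1) u v ∨ ed x (x + 2) u v ∨ ed (x + 1) (x + 2) u v ∨ ed (x + 1) (x + 3) u v

theorem EEf (w : List Bool) : EE (false :: w) = fun u v => EE w u v ∨ R0 (pp w) (nn w) u v := by
  funext u v
  simp [EE, st, R0]

theorem nnf (w : List Bool) : nn (false :: w) = nn w + 4 := by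
  simp only [nn, List.length_cons]
  ring

theorem ppf (w : List Bool) : pp (false :: w) = nn w + 2 := rfl

theorem Vwf (w : List Bool) : Vw (false :: w) = {v | v < nn w + 4} := by
  unfold Vw
  rw [nnf]

theorem nr (hB : SpecBS2) (w : List Bool) : NR w (R0 (pp w) (nn w)) := by
  have hp := hB.plt w
  constructor
  · intro u v h
    unfold R0 ed at *
    omega
  · intro u v h
    unfold R0 ed at *
    omega

/-- four new vertices, statuses `P, P, N, N` -/
theorem nd1 (hB : SpecBS2) (w : List Bool) : ND (R0 (pp w) (nn w)) (nn w)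
    {nn w, nn w + 1, nn w + 2, nn w + 3} {nn w + 2, nn w + 3}
    (f4 (nn w) 1 3 3 5) (f4 (nn w) 4 7 9 6) := by
  have hp := hB.plt w
  refine ⟨?_, ?_, ?_, ?_⟩
  · rintro v (rfl | rfl | rfl | rfl) <;> omega
  · rintro v (rfl | rfl | rfl | rfl) <;> simp only [f40, f41, f42, f43] <;> norm_num
  · rintro u (rfl | rfl | rfl | rfl) v (rfl | rfl | rfl | rfl) hu hv h <;> unfold R0 ed at h <;>
      simp only [Set.mem_insert_iff, Set.mem_singleton_iff] at hu hv <;> omega
  · rintro u (rfl | rfl | rfl | rfl) v (rfl | rfl | rfl | rfl) huv hN <;>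
      simp only [f40, f41, f42, f43] <;>
      first
      | exact absurd rfl huv
      | (refine absurd ?_ hN; (constructor <;> simp); done)
      | exact iff_of_true (by unfold R0 ed; omega) (by norm_num)
      | exact iff_of_false (by unfold R0 ed; omega) (by norm_num)

/-- four new vertices, statuses `N, P, P, N` -/
theorem nd2 (hB : SpecBS2) (w : List Bool) : ND (R0 (pp w) (nn w)) (nn w)
    {nn w, nn w + 1, nn w + 2, nn w + 3} {nn w, nn w + 3}
    (f4 (nn w) 1 2 5 3) (f4 (nn w) 6 8 12 4) := by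
  have hp := hB.plt w
  refine ⟨?_, ?_, ?_, ?_⟩
  · rintro v (rfl | rfl | rfl | rfl) <;> omega
  · rintro v (rfl | rfl | rfl | rfl) <;> simp only [f40, f41, f42, f43] <;> norm_num
  · rintro u (rfl | rfl | rfl | rfl) v (rfl | rfl | rfl | rfl) hu hv h <;> unfold R0 ed at h <;>
      simp only [Set.mem_insert_iff, Set.mem_singleton_iff] at hu hv <;> omega
  · rintro u (rfl | rfl | rfl | rfl) v (rfl | rfl | rfl | rfl) huv hN <;>
      simp only [f40, f41, f42, f43] <;>
      first
      | exact absurd rfl huv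
      | (refine absurd ?_ hN; (constructor <;> simp); done)
      | exact iff_of_true (by unfold R0 ed; omega) (by norm_num)
      | exact iff_of_false (by unfold R0 ed; omega) (by norm_num)

end STBM

open STBM in
theorem specSTB (hB : SpecBS2) (hG : SpecGLU) (hI : SpecISV) : SpecSTB := by
  intro w hw
  have hp := hB.plt w
  have hR := nr hB w
  have hsub : ∀ u, Vw w \ {u} ⊆ Vw w := fun u => Set.sdiff_subset
  refine ⟨?_, ?_, ?_, ?_⟩
  · -- full
    rw [EEf, ppf, Vwf]
    refine toEx2 (fromEx hB hG hR (S := Vw w) (e := 1) hw.full subset_rfl (nd1 hB w)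
      (by norm_num) ?_ ?_) ?_ ?_ ?_ ?_ ?_ ?_ ?_ ?_ ?_
    · rintro - v (rfl | rfl | rfl | rfl) hv h <;> unfold R0 ed at h <;>
        simp only [Set.mem_insert_iff, Set.mem_singleton_iff] at hv <;> omega
    · rintro v (rfl | rfl | rfl | rfl) hN <;> simp only [f40, f41, f42, f43] <;>
        first
        | (refine absurd ?_ hN; (constructor <;> simp); done)
        | exact iff_of_true (by unfold R0 ed; omega) (by norm_num)
        | exact iff_of_false (by unfold R0 ed; omega) (by norm_num)
    · ext v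
      simp only [Vw, Set.mem_ofPred_eq, Set.mem_union, Set.mem_insert_iff, Set.mem_singleton_iff]
      omega
    · simp
    · simp
    · rintro v (rfl | rfl | rfl | rfl) hv <;> simp only [f40, f41, f42, f43] <;>
        first
        | exact absurd rfl hv
        | norm_num
    · simp only [f42]
      norm_num
    · simp
    · simp
    · rintro v (rfl | rfl | rfl | rfl) hv hv' <;>
        simp only [Nat.add_sub_cancel, Nat.add_succ_sub_one, f40, f41, f42, f43] at hv' ⊢ <;>
        first
        | exact absurd rfl hv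
        | exact absurd rfl hv'
        | norm_num
    · simp only [Nat.add_succ_sub_one, f41]
      norm_num
  · -- del
    intro u hu hup
    rw [EEf, ppf, Vwf]
    rw [Vwf] at hu
    rw [ppf] at hup
    change u < nn w + 4 at hu
    by_cases h1 : u = pp w
    · subst h1
      refine toEx2 (fromPl hB hG hR (S := Vw w \ {pp w}) hw.pdel (by simp) (hsub _) (nd2 hB w))
        ?_ ?_ ?_ ?_ ?_ ?_ ?_ ?_ ?_
      · ext v
        simp only [Vw, Set.mem_ofPred_eq, Set.mem_union, Set.mem_insert_iff,
          Set.mem_singleton_iff, Set.mem_sdiff]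
        omega
      · simp
      · simp
      · rintro v (rfl | rfl | rfl | rfl) hv <;> simp only [f40, f41, f42, f43] <;>
          first
          | exact absurd rfl hv
          | norm_num
      · simp only [f42]
        norm_num
      · simp
      · simp
      · rintro v (rfl | rfl | rfl | rfl) hv hv' <;>
          simp only [Nat.add_sub_cancel, Nat.add_succ_sub_one, f40, f41, f42, f43] at hv' ⊢ <;>
          first
          | exact absurd rfl hv
          | exact absurd rfl hv'
          | norm_num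
      · simp only [Nat.add_succ_sub_one, f41]
        norm_num
    by_cases h2 : u < nn w
    · refine toEx2 (fromEx hB hG hR (S := Vw w \ {u}) (e := 1) (hw.del u h2 h1) (hsub _) (nd2 hB w)
        (by norm_num) ?_ ?_) ?_ ?_ ?_ ?_ ?_ ?_ ?_ ?_ ?_
      · intro h
        exact absurd h (by simp)
      · rintro v (rfl | rfl | rfl | rfl) hN <;> simp only [f40, f41, f42, f43] <;>
          first
          | exact iff_of_true (by unfold R0 ed; omega) (by norm_num)
          | exact iff_of_false (by unfold R0 ed; omega) (by norm_num)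
      · ext v
        simp only [Vw, Set.mem_ofPred_eq, Set.mem_union, Set.mem_insert_iff,
          Set.mem_singleton_iff, Set.mem_sdiff]
        omega
      · simp
      · simp
      · rintro v (rfl | rfl | rfl | rfl) hv <;> simp only [f40, f41, f42, f43] <;>
          first
          | exact absurd rfl hv
          | norm_num
      · simp only [f42]
        norm_num
      · simp
      · simp
      · rintro v (rfl | rfl | rfl | rfl) hv hv' <;>
          simp only [Nat.add_sub_cancel, Nat.add_succ_sub_one, f40, f41, f42, f43] at hv' ⊢ <;>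
          first
          | exact absurd rfl hv
          | exact absurd rfl hv'
          | norm_num
      · simp only [Nat.add_succ_sub_one, f41]
        norm_num
    by_cases h3 : u = nn w
    · -- `z` deleted
      subst h3
      refine toEx2 (fromEx hB hG hR (S := Vw w) (T := {nn w + 1, nn w + 2, nn w + 3}) (NT := ∅)
        (a := f4 (nn w) 0 2 5 3) (b := f4 (nn w) 0 8 12 4) (e := 1) hw.full subset_rfl
        ⟨?_, ?_, ?_, ?_⟩ (by norm_num) ?_ ?_) ?_ ?_ ?_ ?_ ?_ ?_ ?_ ?_ ?_
      · rintro v (rfl | rfl | rfl) <;> omega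
      · rintro v (rfl | rfl | rfl) <;> simp only [f41, f42, f43] <;> norm_num
      · rintro u hu v hv hu' hv' h
        exact hu'
      · rintro u (rfl | rfl | rfl) v (rfl | rfl | rfl) huv hN <;>
          simp only [f41, f42, f43] <;>
          first
          | exact absurd rfl huv
          | exact iff_of_true (by unfold R0 ed; omega) (by norm_num)
          | exact iff_of_false (by unfold R0 ed; omega) (by norm_num)
      · rintro - v hv hv' h
        exact hv'
      · rintro v (rfl | rfl | rfl) hN <;> simp only [f41, f42, f43] <;>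
          first
          | exact iff_of_true (by unfold R0 ed; omega) (by norm_num)
          | exact iff_of_false (by unfold R0 ed; omega) (by norm_num)
      · ext v
        simp only [Vw, Set.mem_ofPred_eq, Set.mem_union, Set.mem_insert_iff,
          Set.mem_singleton_iff, Set.mem_sdiff]
        omega
      · simp
      · simp
      · rintro v (rfl | rfl | rfl) hv <;> simp only [f41, f42, f43] <;>
          first
          | exact absurd rfl hv
          | norm_num
      · simp only [f42]
        norm_num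
      · simp
      · simp
      · rintro v (rfl | rfl | rfl) hv hv' <;>
          simp only [Nat.add_sub_cancel, Nat.add_succ_sub_one, f41, f42, f43] at hv' ⊢ <;>
          first
          | exact absurd rfl hv
          | exact absurd rfl hv'
          | norm_num
      · simp only [Nat.add_succ_sub_one, f41]
        norm_num
    by_cases h4 : u = nn w + 1
    · -- `t'` deleted
      subst h4
      refine toIso hI (n := nn w + 4) (i := nn w + 3)
        (fromEx hB hG hR (S := Vw w) (T := {nn w, nn w + 2}) (NT := ∅)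
        (a := f4 (nn w) 1 0 3 0) (b := f4 (nn w) 4 0 9 0) (e := 1) hw.full subset_rfl
        ⟨?_, ?_, ?_, ?_⟩ (by norm_num) ?_ ?_) ?_ ?_ ?_ ?_ ?_ ?_ ?_ ?_ ?_ ?_
      · rintro v (rfl | rfl) <;> omega
      · rintro v (rfl | rfl) <;> simp only [f40, f42] <;> norm_num
      · rintro u hu v hv hu' hv' h
        exact hu'
      · rintro u (rfl | rfl) v (rfl | rfl) huv hN <;>
          simp only [f40, f42] <;>
          first
          | exact absurd rfl huv
          | exact iff_of_true (by unfold R0 ed; omega) (by norm_num)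
          | exact iff_of_false (by unfold R0 ed; omega) (by norm_num)
      · rintro - v hv hv' h
        exact hv'
      · rintro v (rfl | rfl) hN <;> simp only [f40, f42] <;>
          first
          | exact iff_of_true (by unfold R0 ed; omega) (by norm_num)
          | exact iff_of_false (by unfold R0 ed; omega) (by norm_num)
      · ext v
        simp only [Vw, Set.mem_ofPred_eq, Set.mem_union, Set.mem_insert_iff,
          Set.mem_singleton_iff, Set.mem_sdiff]
        omega
      · simp
      · simp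
      · rintro v (rfl | rfl) hv <;> simp only [f40, f42] <;>
          first
          | exact absurd rfl hv
          | norm_num
      · simp only [f42]
        norm_num
      · intro v hv
        simp only [Vw, Set.mem_ofPred_eq, Set.mem_union, Set.mem_insert_iff,
          Set.mem_singleton_iff] at hv
        omega
      · intro hv
        simp only [Vw, Set.mem_ofPred_eq, Set.mem_union, Set.mem_insert_iff,
          Set.mem_singleton_iff] at hv
        omega
      · intro v hv
        simp only [Vw, Set.mem_ofPred_eq, Set.mem_union, Set.mem_insert_iff,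
          Set.mem_singleton_iff] at hv
        constructor
        · rintro (h | h)
          · have := (hB.bnd w _ v h).1
            omega
          · unfold R0 ed at h
            omega
        · rintro (h | h)
          · have := (hB.bnd w v _ h).2
            omega
          · unfold R0 ed at h
            omega
      · rintro (h | h)
        · have := (hB.bnd w _ _ h).1
          omega
        · unfold R0 ed at h
          omega
      · intro hv
        simp only [Set.mem_ofPred_eq, Set.mem_singleton_iff, Set.mem_sdiff] at hv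
        omega
    · -- `a'` deleted
      have h5 : u = nn w + 3 := by omega
      subst h5
      refine toEx2 (fromEx hB hG hR (S := Vw w) (T := {nn w, nn w + 1, nn w + 2}) (NT := ∅)
        (a := f4 (nn w) 1 3 3 0) (b := f4 (nn w) 4 7 9 0) (e := 1) hw.full subset_rfl
        ⟨?_, ?_, ?_, ?_⟩ (by norm_num) ?_ ?_) ?_ ?_ ?_ ?_ ?_ ?_ ?_ ?_ ?_
      · rintro v (rfl | rfl | rfl) <;> omega
      · rintro v (rfl | rfl | rfl) <;> simp only [f40, f41, f42] <;> norm_num
      · rintro u hu v hv hu' hv' h
        exact hu'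
      · rintro u (rfl | rfl | rfl) v (rfl | rfl | rfl) huv hN <;>
          simp only [f40, f41, f42] <;>
          first
          | exact absurd rfl huv
          | exact iff_of_true (by unfold R0 ed; omega) (by norm_num)
          | exact iff_of_false (by unfold R0 ed; omega) (by norm_num)
      · rintro - v hv hv' h
        exact hv'
      · rintro v (rfl | rfl | rfl) hN <;> simp only [f40, f41, f42] <;>
          first
          | exact iff_of_true (by unfold R0 ed; omega) (by norm_num)
          | exact iff_of_false (by unfold R0 ed; omega) (by norm_num)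
      · ext v
        simp only [Vw, Set.mem_ofPred_eq, Set.mem_union, Set.mem_insert_iff,
          Set.mem_singleton_iff, Set.mem_sdiff]
        omega
      · simp
      · simp
      · rintro v (rfl | rfl | rfl) hv <;> simp only [f40, f41, f42] <;>
          first
          | exact absurd rfl hv
          | norm_num
      · simp only [f42]
        norm_num
      · simp
      · simp
      · rintro v (rfl | rfl | rfl) hv hv' <;>
          simp only [Nat.add_sub_cancel, Nat.add_succ_sub_one, f40, f41, f42] at hv' ⊢ <;>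
          first
          | exact absurd rfl hv
          | exact absurd rfl hv'
          | norm_num
      · simp only [Nat.add_succ_sub_one, f41]
        norm_num
  · -- pdel
    rw [EEf, ppf, Vwf]
    refine toPl (fromEx hB hG hR (S := Vw w) (T := {nn w, nn w + 1, nn w + 3}) (NT := ∅)
      (a := f4 (nn w) 1 3 0 5) (b := f4 (nn w) 4 7 0 6) (e := 1) hw.full subset_rfl
      ⟨?_, ?_, ?_, ?_⟩ (by norm_num) ?_ ?_) ?_
    · rintro v (rfl | rfl | rfl) <;> omega
    · rintro v (rfl | rfl | rfl) <;> simp only [f40, f41, f43] <;> norm_num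
    · rintro u hu v hv hu' hv' h
      exact hu'
    · rintro u (rfl | rfl | rfl) v (rfl | rfl | rfl) huv hN <;>
        simp only [f40, f41, f43] <;>
        first
        | exact absurd rfl huv
        | exact iff_of_true (by unfold R0 ed; omega) (by norm_num)
        | exact iff_of_false (by unfold R0 ed; omega) (by norm_num)
    · rintro - v hv hv' h
      exact hv'
    · rintro v (rfl | rfl | rfl) hN <;> simp only [f40, f41, f43] <;>
        first
        | exact iff_of_true (by unfold R0 ed; omega) (by norm_num)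
        | exact iff_of_false (by unfold R0 ed; omega) (by norm_num)
    · ext v
      simp only [Vw, Set.mem_ofPred_eq, Set.mem_union, Set.mem_insert_iff,
        Set.mem_singleton_iff, Set.mem_sdiff]
      omega
  · -- pdel1
    intro _
    rw [EEf, ppf, Vwf]
    refine toEx1 (fromEx hB hG hR (S := Vw w) (T := {nn w, nn w + 1, nn w + 3}) (NT := ∅)
      (a := f4 (nn w) 1 3 0 5) (b := f4 (nn w) 4 7 0 6) (e := 1) hw.full subset_rfl
      ⟨?_, ?_, ?_, ?_⟩ (by norm_num) ?_ ?_) ?_ ?_ ?_ ?_ ?_
    · rintro v (rfl | rfl | rfl) <;> omega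
    · rintro v (rfl | rfl | rfl) <;> simp only [f40, f41, f43] <;> norm_num
    · rintro u hu v hv hu' hv' h
      exact hu'
    · rintro u (rfl | rfl | rfl) v (rfl | rfl | rfl) huv hN <;>
        simp only [f40, f41, f43] <;>
        first
        | exact absurd rfl huv
        | exact iff_of_true (by unfold R0 ed; omega) (by norm_num)
        | exact iff_of_false (by unfold R0 ed; omega) (by norm_num)
    · rintro - v hv hv' h
      exact hv'
    · rintro v (rfl | rfl | rfl) hN <;> simp only [f40, f41, f43] <;>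
        first
        | exact iff_of_true (by unfold R0 ed; omega) (by norm_num)
        | exact iff_of_false (by unfold R0 ed; omega) (by norm_num)
    · ext v
      simp only [Vw, Set.mem_ofPred_eq, Set.mem_union, Set.mem_insert_iff,
        Set.mem_singleton_iff, Set.mem_sdiff]
      omega
    · simp
    · simp
    · rintro v (rfl | rfl | rfl) hv <;>
        simp only [Nat.add_succ_sub_one, f40, f41, f43] at hv ⊢ <;>
        first
        | exact absurd rfl hv
        | norm_num
    · simp only [Nat.add_succ_sub_one, f41]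
      norm_num

end Pool.Agent.Lib.MPc95e9c.CH
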