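import Pool.Agent.Lib.MP_c95e9c_lc.CH.Spec

/-!
# STS: a step with the bit `true`
-/

set_option autoImplicit false

namespace Pool.Agent.Lib.MPc95e9c.CH

namespace STSM

/-- the new edges -/
def RR (p x u v : ℕ) : Prop :=
  ed p x u v ∨ ed x (x + 1) u v ∨ ed x (x + 2) u v ∨ ed (x + 1) (x + 2) u v ∨
    ed (x + 1) (x + 3) u v ∨ ed (p - 1) x u v ∨ ed p (x + 1) u v

theorem eds {a b u v : ℕ} (h : ed a b u v) : ed a b v u := by
  rcases h with ⟨h1, h2⟩ | ⟨h1, h2⟩
  · exact Or.inr ⟨h2, h1⟩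
  · exact Or.inl ⟨h2, h1⟩

theorem RRs {p x u v : ℕ} (h : RR p x u v) : RR p x v u := by
  rcases h with h | h | h | h | h | h | h
  · exact Or.inl (eds h)
  · exact Or.inr (Or.inl (eds h))
  · exact Or.inr (Or.inr (Or.inl (eds h)))
  · exact Or.inr (Or.inr (Or.inr (Or.inl (eds h))))
  · exact Or.inr (Or.inr (Or.inr (Or.inr (Or.inl (eds h)))))
  · exact Or.inr (Or.inr (Or.inr (Or.inr (Or.inr (Or.inl (eds h))))))
  · exact Or.inr (Or.inr (Or.inr (Or.inr (Or.inr (Or.inr (eds h))))))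

theorem edl {a b u v x : ℕ} (hb : x ≤ b) (h : ed a b u v) :
    (u = a ∨ x ≤ u) ∧ (x ≤ u ∨ x ≤ v) := by
  rcases h with ⟨h1, h2⟩ | ⟨h1, h2⟩
  · exact ⟨Or.inl h1, Or.inr (by omega)⟩
  · exact ⟨Or.inr (by omega), Or.inl (by omega)⟩

theorem RRl {p x u v : ℕ} (h : RR p x u v) :
    (u = p ∨ u = p - 1 ∨ x ≤ u) ∧ (x ≤ u ∨ x ≤ v) := by
  rcases h with h | h | h | h | h | h | h
  · have := edl (x := x) (by omega) h
    exact ⟨this.1.elim Or.inl (fun h => Or.inr (Or.inr h)), this.2⟩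
  · have := edl (x := x) (by omega) h
    exact ⟨this.1.elim (fun h => Or.inr (Or.inr (by omega))) (fun h => Or.inr (Or.inr h)), this.2⟩
  · have := edl (x := x) (by omega) h
    exact ⟨this.1.elim (fun h => Or.inr (Or.inr (by omega))) (fun h => Or.inr (Or.inr h)), this.2⟩
  · have := edl (x := x) (by omega) h
    exact ⟨this.1.elim (fun h => Or.inr (Or.inr (by omega))) (fun h => Or.inr (Or.inr h)), this.2⟩
  · have := edl (x := x) (by omega) h
    exact ⟨this.1.elim (fun h => Or.inr (Or.inr (by omega))) (fun h => Or.inr (Or.inr h)), this.2⟩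
  · have := edl (x := x) (by omega) h
    exact ⟨this.1.elim (fun h => Or.inr (Or.inl h)) (fun h => Or.inr (Or.inr h)), this.2⟩
  · have := edl (x := x) (by omega) h
    exact ⟨this.1.elim Or.inl (fun h => Or.inr (Or.inr h)), this.2⟩

/-- the arithmetic facts -/
structure AF (p n : ℕ) : Prop where
  a : ∀ i, ¬ n + i = p
  b : ¬ n = p
  c : ∀ i, ¬ n + i = p - 1
  d : ¬ n = p - 1
  e : ∀ i, ¬ p = n + i
  f : ¬ p = n
  g : ∀ i, ¬ p - 1 = n + i
  h : ¬ p - 1 = n
  i : ¬ p = p - 1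
  j : ¬ p - 1 = p

theorem af {p n : ℕ} (hp1 : 1 ≤ p) (hp2 : p < n) : AF p n := by
  constructor <;> (try intro i) <;> omega

theorem EEt (w : List Bool) : EE (true :: w) = fun u v => EE w u v ∨ RR (pp w) (nn w) u v := by
  funext u v
  simp only [EE, st, RR, true_and]

theorem nnc (b : Bool) (w : List Bool) : nn (b :: w) = nn w + 4 := by
  simp only [nn, List.length_cons]
  ring

/-- the vertices `t`, `p` -/
theorem tp {w : List Bool} (hw : w ≠ []) : 1 ≤ pp w ∧ pp w < nn w ∧ EE w (pp w - 1) (pp w) := by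
  cases w with
  | nil => exact absurd rfl hw
  | cons b w =>
    refine ⟨by simp only [pp]; omega, by rw [nnc]; simp only [pp]; omega, ?_⟩
    refine Or.inr ?_
    simp only [pp, st]
    right; right; right; left
    unfold ed
    omega

/-- the data of the new vertices -/
structure ND (p n : ℕ) (T NT : Set ℕ) (a b : ℕ → ℝ) : Prop where
  ge : ∀ v ∈ T, n ≤ v
  pos : ∀ v ∈ T, 0 < a v ∧ a v ≤ b v
  ind : ∀ u ∈ T, ∀ v ∈ T, u ∈ NT → v ∈ NT → ¬ RR p n u v
  adj : ∀ u ∈ T, ∀ v ∈ T, u ≠ v → ¬ (u ∈ NT ∧ v ∈ NT) → (RR p n u v ↔ a u ≤ b v ∧ a v ≤ b u)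
  tad : ∀ v ∈ T, RR p n (p - 1) v ↔ a v ≤ 1

theorem glue (hB : SpecBS2) (hG : SpecGL2) {w : List Bool} (hw : w ≠ [])
    {S T N NT : Set ℕ} {l r a b : ℕ → ℝ} {M : ℝ} (hRp : Rp (EE w) S N l r) (hS : S ⊆ Vw w)
    (hT : ND (pp w) (nn w) T NT a b)
    (h1 : ∀ v ∈ S, v ≠ pp w → v ≠ pp w - 1 → r v < M)
    (h2 : pp w ∈ S → l (pp w) ≤ M ∧ M ≤ r (pp w))
    (h3 : pp w - 1 ∈ S → l (pp w - 1) ≤ M ∧ M ≤ r (pp w - 1))
    (htN : pp w - 1 ∈ S → pp w - 1 ∉ N)
    (h4 : pp w ∈ S → pp w ∈ N → ∀ v ∈ T, v ∈ NT → ¬ RR (pp w) (nn w) (pp w) v)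
    (h5 : pp w ∈ S → ∀ v ∈ T, ¬ (pp w ∈ N ∧ v ∈ NT) → (RR (pp w) (nn w) (pp w) v ↔ a v ≤ 3)) :
    ∃ (N' : Set ℕ) (l' r' : ℕ → ℝ), Rp (fun u v => EE w u v ∨ RR (pp w) (nn w) u v) (S ∪ T) N' l' r' ∧
      (∀ v ∈ T, (v ∈ N' ↔ v ∈ NT) ∧ r' v = M + b v) ∧ (∀ v ∈ S, r' v ≤ M + 3) := by
  obtain ⟨hp1, hp2, hp3⟩ := tp hw
  have k1 : Disjoint S T := by
    rw [Set.disjoint_left]
    intro v hv hv'
    have h7 : v < nn w := hS hv
    have h8 := hT.ge v hv'
    omega
  have k2 : pp w ∉ T := by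
    intro h
    have := hT.ge _ h
    omega
  have k2' : pp w - 1 ∉ T := by
    intro h
    have := hT.ge _ h
    omega
  have k3 : ∀ u v, (EE w u v ∨ RR (pp w) (nn w) u v) → (EE w v u ∨ RR (pp w) (nn w) v u) := by
    rintro u v (h | h)
    · exact Or.inl (hB.sym w u v h)
    · exact Or.inr (RRs h)
  have k4 : ∀ u ∈ S, ∀ v ∈ S, ((EE w u v ∨ RR (pp w) (nn w) u v) ↔ EE w u v) := by
    intro u hu v hv
    refine ⟨?_, Or.inl⟩
    rintro (h | h)
    · exact h
    · have h7 : u < nn w := hS hu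
      have h8 : v < nn w := hS hv
      have := (RRl h).2
      omega
  have k5 : ∀ u ∈ S, u ≠ pp w → u ≠ pp w - 1 → ∀ v ∈ T, ¬ (EE w u v ∨ RR (pp w) (nn w) u v) := by
    rintro u hu hup hut v hv (h | h)
    · have := (hB.bnd w u v h).2
      have := hT.ge v hv
      omega
    · have h7 : u < nn w := hS hu
      rcases (RRl h).1 with h8 | h8 | h8
      · exact hup h8
      · exact hut h8
      · omega
  have k6 : ∀ u ∈ T, ∀ v ∈ T, u ∈ NT → v ∈ NT → ¬ (EE w u v ∨ RR (pp w) (nn w) u v) := by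
    rintro u hu v hv hu' hv' (h | h)
    · have := (hB.bnd w u v h).2
      have := hT.ge v hv
      omega
    · exact hT.ind u hu v hv hu' hv' h
  have k7 : pp w ∈ S → pp w ∈ N → ∀ v ∈ T, v ∈ NT →
      ¬ (EE w (pp w) v ∨ RR (pp w) (nn w) (pp w) v) := by
    rintro hpS hpN v hv hv' (h | h)
    · have := (hB.bnd w _ v h).2
      have := hT.ge v hv
      omega
    · exact h4 hpS hpN v hv hv' h
  have k7' : pp w - 1 ∈ S → pp w - 1 ∈ N → ∀ v ∈ T, v ∈ NT →
      ¬ (EE w (pp w - 1) v ∨ RR (pp w) (nn w) (pp w - 1) v) :=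
    fun hS' hN' => absurd hN' (htN hS')
  have k8 : ∀ u ∈ T, ∀ v ∈ T, u ≠ v → ¬ (u ∈ NT ∧ v ∈ NT) →
      ((EE w u v ∨ RR (pp w) (nn w) u v) ↔ a u ≤ b v ∧ a v ≤ b u) := by
    intro u hu v hv huv hN
    rw [← hT.adj u hu v hv huv hN]
    refine ⟨?_, Or.inr⟩
    rintro (h | h)
    · have := (hB.bnd w u v h).2
      have := hT.ge v hv
      omega
    · exact h
  have k9 : pp w ∈ S → ∀ v ∈ T, ¬ (pp w ∈ N ∧ v ∈ NT) →
      ((EE w (pp w) v ∨ RR (pp w) (nn w) (pp w) v) ↔ a v ≤ 3) := by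
    intro hpS v hv hN
    rw [← h5 hpS v hv hN]
    refine ⟨?_, Or.inr⟩
    rintro (h | h)
    · have := (hB.bnd w _ v h).2
      have := hT.ge v hv
      omega
    · exact h
  have k9' : pp w - 1 ∈ S → ∀ v ∈ T, ¬ (pp w - 1 ∈ N ∧ v ∈ NT) →
      ((EE w (pp w - 1) v ∨ RR (pp w) (nn w) (pp w - 1) v) ↔ a v ≤ 1) := by
    intro _ v hv _
    rw [← hT.tad v hv]
    refine ⟨?_, Or.inr⟩
    rintro (h | h)
    · have := (hB.bnd w _ v h).2
      have := hT.ge v hv
      omega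
    · exact h
  obtain ⟨N', l', r', g1, g2, g3, g4, g5⟩ := hG (EE w)
    (fun u v => EE w u v ∨ RR (pp w) (nn w) u v) S T N NT l r a b
    (pp w - 1) (pp w) M 3 1 hRp k1 k2 k2' (by omega) h1 h2 h3 (by norm_num) (by norm_num)
    k3 k4 k5 hT.pos k6 k7 k7' k8 k9 k9'
  refine ⟨N', l', r', g1, g2, fun v hv => ?_⟩
  by_cases hvp : v = pp w
  · subst hvp
    exact (g4 hv).1.le
  · by_cases hvt : v = pp w - 1
    · subst hvt
      rw [(g5 hv).1]
      linarith
    · have := g3 v hv hvp hvt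
      linarith

/-- from the conclusion `Ex2` for the shorter word -/
theorem fromEx2 (hB : SpecBS2) (hG : SpecGL2) {w : List Bool} (hw : w ≠ []) {S T NT : Set ℕ}
    {a b : ℕ → ℝ} {s : Bool} (hE : Ex2 (EE w) S (pp w) s) (hS : S ⊆ Vw w)
    (hT : ND (pp w) (nn w) T NT a b)
    (h4 : s = true → ∀ v ∈ T, v ∈ NT → ¬ RR (pp w) (nn w) (pp w) v)
    (h5 : ∀ v ∈ T, ¬ (s = true ∧ v ∈ NT) → (RR (pp w) (nn w) (pp w) v ↔ a v ≤ 3)) :
    ∃ (N' : Set ℕ) (l' r' : ℕ → ℝ) (M : ℝ),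
      Rp (fun u v => EE w u v ∨ RR (pp w) (nn w) u v) (S ∪ T) N' l' r' ∧
      (∀ v ∈ T, (v ∈ N' ↔ v ∈ NT) ∧ r' v = M + b v) ∧ (∀ v ∈ S, r' v ≤ M + 3) := by
  obtain ⟨hp1, hp2, hp3⟩ := tp hw
  obtain ⟨N, l, r, g1, g2, g3, g4, g5⟩ := hE
  have e4 : pp w ∈ S → pp w ∈ N → ∀ v ∈ T, v ∈ NT → ¬ RR (pp w) (nn w) (pp w) v :=
    fun _ hp => h4 (g3.1 hp)
  have e5 : pp w ∈ S → ∀ v ∈ T, ¬ (pp w ∈ N ∧ v ∈ NT) →
      (RR (pp w) (nn w) (pp w) v ↔ a v ≤ 3) :=
    fun _ v hv hN => h5 v hv (fun h => hN ⟨g3.2 h.1, h.2⟩)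
  by_cases ht : pp w - 1 ∈ S
  · obtain ⟨g6, g7⟩ := g5 (by omega) ht
    have g8 := (g1.adj _ ht _ g2 (by omega) (fun h => g6 h.1)).1 hp3
    obtain ⟨N', l', r', k⟩ := glue hB hG hw (M := r (pp w - 1)) g1 hS hT g7
      (fun _ => ⟨g8.2, (g4 _ ht (by omega)).le⟩) (fun _ => ⟨g1.le _ ht, le_rfl⟩) (fun _ => g6) e4 e5
    exact ⟨N', l', r', _, k⟩
  · obtain ⟨N', l', r', k⟩ := glue hB hG hw (M := r (pp w)) g1 hS hT
      (fun v hv h _ => g4 v hv h) (fun _ => ⟨g1.le _ g2, le_rfl⟩) (fun h => absurd h ht)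
      (fun h => absurd h ht) e4 e5
    exact ⟨N', l', r', _, k⟩

/-- from the conclusion `Ex1` for the shorter word -/
theorem fromEx1 (hB : SpecBS2) (hG : SpecGL2) {w : List Bool} (hw : w ≠ []) {S T NT : Set ℕ}
    {a b : ℕ → ℝ} (hE : Ex1 (EE w) S (pp w - 1)) (hpS : pp w ∉ S) (hS : S ⊆ Vw w)
    (hT : ND (pp w) (nn w) T NT a b) :
    ∃ (N' : Set ℕ) (l' r' : ℕ → ℝ) (M : ℝ),
      Rp (fun u v => EE w u v ∨ RR (pp w) (nn w) u v) (S ∪ T) N' l' r' ∧
      (∀ v ∈ T, (v ∈ N' ↔ v ∈ NT) ∧ r' v = M + b v) ∧ (∀ v ∈ S, r' v ≤ M + 3) := by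
  obtain ⟨N, l, r, g1, g2, g3, g4⟩ := hE
  obtain ⟨N', l', r', k⟩ := glue hB hG hw (M := r (pp w - 1)) g1 hS hT
    (fun v hv _ h => g4 v hv h) (fun h => absurd h hpS) (fun _ => ⟨g1.le _ g2, le_rfl⟩)
    (fun _ => g3) (fun h => absurd h hpS) (fun h => absurd h hpS)
  exact ⟨N', l', r', _, k⟩

theorem toEx2 {E : ℕ → ℕ → Prop} {S T NT U : Set ℕ} {b : ℕ → ℝ} {p : ℕ} {s : Bool}
    (h : ∃ (N' : Set ℕ) (l' r' : ℕ → ℝ) (M : ℝ), Rp E (S ∪ T) N' l' r' ∧
      (∀ v ∈ T, (v ∈ N' ↔ v ∈ NT) ∧ r' v = M + b v) ∧ (∀ v ∈ S, r' v ≤ M + 3))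
    (hU : U = S ∪ T) (hp : p ∈ T) (hs : p ∈ NT ↔ s = true) (hb : ∀ v ∈ T, v ≠ p → b v < b p)
    (he : 3 < b p) (ht : p - 1 ∈ T) (htN : p - 1 ∉ NT)
    (htb : ∀ v ∈ T, v ≠ p → v ≠ p - 1 → b v < b (p - 1)) (he' : 3 < b (p - 1)) : Ex2 E U p s := by
  obtain ⟨N', l', r', M, h1, h2, h3⟩ := h
  subst hU
  refine ⟨N', l', r', h1, Or.inr hp, (h2 p hp).1.trans hs, ?_, ?_⟩
  · rintro v (hv | hv) hvp
    · rw [(h2 p hp).2]
      have := h3 v hv
      linarith
    · rw [(h2 p hp).2, (h2 v hv).2]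
      have := hb v hv hvp
      linarith
  · rintro - -
    refine ⟨fun h => htN ((h2 _ ht).1.1 h), ?_⟩
    rintro v (hv | hv) hvp hvt
    · rw [(h2 _ ht).2]
      have := h3 v hv
      linarith
    · rw [(h2 _ ht).2, (h2 v hv).2]
      have := htb v hv hvp hvt
      linarith

theorem toEx1 {E : ℕ → ℕ → Prop} {S T NT U : Set ℕ} {b : ℕ → ℝ} {t : ℕ}
    (h : ∃ (N' : Set ℕ) (l' r' : ℕ → ℝ) (M : ℝ), Rp E (S ∪ T) N' l' r' ∧
      (∀ v ∈ T, (v ∈ N' ↔ v ∈ NT) ∧ r' v = M + b v) ∧ (∀ v ∈ S, r' v ≤ M + 3))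
    (hU : U = S ∪ T) (ht : t ∈ T) (htN : t ∉ NT)
    (htb : ∀ v ∈ T, v ≠ t → b v < b t) (he' : 3 < b t) : Ex1 E U t := by
  obtain ⟨N', l', r', M, h1, h2, h3⟩ := h
  subst hU
  refine ⟨N', l', r', h1, Or.inr ht, fun h => htN ((h2 _ ht).1.1 h), ?_⟩
  rintro v (hv | hv) hvt
  · rw [(h2 _ ht).2]
    have := h3 v hv
    linarith
  · rw [(h2 _ ht).2, (h2 v hv).2]
    have := htb v hv hvt
    linarith

/-- a function with four given values -/
def f4 (n : ℕ) (a0 a1 a2 a3 : ℝ) (v : ℕ) : ℝ :=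
  if v = n then a0 else if v = n + 1 then a1 else if v = n + 2 then a2 else a3

theorem f40 (n : ℕ) (a0 a1 a2 a3 : ℝ) : f4 n a0 a1 a2 a3 n = a0 := by simp [f4]
theorem f41 (n : ℕ) (a0 a1 a2 a3 : ℝ) : f4 n a0 a1 a2 a3 (n + 1) = a1 := by simp [f4]
theorem f42 (n : ℕ) (a0 a1 a2 a3 : ℝ) : f4 n a0 a1 a2 a3 (n + 2) = a2 := by simp [f4]
theorem f43 (n : ℕ) (a0 a1 a2 a3 : ℝ) : f4 n a0 a1 a2 a3 (n + 3) = a3 := by simp [f4]

theorem ndF {p n : ℕ} (hp1 : 1 ≤ p) (hp2 : p < n) :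
    ND p n {n, n + 1, n + 2, n + 3} {n + 2, n + 3} (f4 n 1 2 5 7) (f4 n 6 9 12 8) := by
  have hf := af hp1 hp2
  refine ⟨?_, ?_, ?_, ?_, ?_⟩
  · rintro v (rfl | rfl | rfl | rfl) <;> omega
  · rintro v (rfl | rfl | rfl | rfl) <;> simp only [f40, f41, f42, f43] <;> norm_num
  · rintro u (rfl | rfl | rfl | rfl) v (rfl | rfl | rfl | rfl) hu hv <;>
      first
      | (exfalso; simp at hu; done)
      | (exfalso; simp at hv; done)
      | (norm_num [RR, ed, hf.a, hf.b, hf.c, hf.d, hf.e, hf.f, hf.g, hf.h, hf.i, hf.j]; done)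
  · rintro u (rfl | rfl | rfl | rfl) v (rfl | rfl | rfl | rfl) huv hN <;> simp only [f40, f41, f42, f43] <;>
      first
      | exact absurd rfl huv
      | (refine absurd ?_ hN; (constructor <;> simp); done)
      | (norm_num [RR, ed, hf.a, hf.b, hf.c, hf.d, hf.e, hf.f, hf.g, hf.h, hf.i, hf.j]; done)
  · rintro v (rfl | rfl | rfl | rfl) <;> simp only [f40, f41, f42, f43] <;> norm_num [RR, ed, hf.a, hf.b, hf.c, hf.d, hf.e, hf.f, hf.g, hf.h, hf.i, hf.j]

theorem paF {p n : ℕ} (hp1 : 1 ≤ p) (hp2 : p < n) (v : ℕ) (hv : v ∈ ({n, n + 1, n + 2, n + 3} : Set ℕ)) :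
    RR p n p v ↔ f4 n 1 2 5 7 v ≤ 3 := by
  have hf := af hp1 hp2
  rcases hv with rfl | rfl | rfl | rfl <;> simp only [f40, f41, f42, f43] <;> norm_num [RR, ed, hf.a, hf.b, hf.c, hf.d, hf.e, hf.f, hf.g, hf.h, hf.i, hf.j]

theorem ndD {p n : ℕ} (hp1 : 1 ≤ p) (hp2 : p < n) :
    ND p n {n, n + 1, n + 2, n + 3} {n, n + 3} (f4 n 1 2 6 4) (f4 n 7 9 12 5) := by
  have hf := af hp1 hp2
  refine ⟨?_, ?_, ?_, ?_, ?_⟩
  · rintro v (rfl | rfl | rfl | rfl) <;> omega
  · rintro v (rfl | rfl | rfl | rfl) <;> simp only [f40, f41, f42, f43] <;> norm_num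
  · rintro u (rfl | rfl | rfl | rfl) v (rfl | rfl | rfl | rfl) hu hv <;>
      first
      | (exfalso; simp at hu; done)
      | (exfalso; simp at hv; done)
      | (norm_num [RR, ed, hf.a, hf.b, hf.c, hf.d, hf.e, hf.f, hf.g, hf.h, hf.i, hf.j]; done)
  · rintro u (rfl | rfl | rfl | rfl) v (rfl | rfl | rfl | rfl) huv hN <;> simp only [f40, f41, f42, f43] <;>
      first
      | exact absurd rfl huv
      | (refine absurd ?_ hN; (constructor <;> simp); done)
      | (norm_num [RR, ed, hf.a, hf.b, hf.c, hf.d, hf.e, hf.f, hf.g, hf.h, hf.i, hf.j]; done)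
  · rintro v (rfl | rfl | rfl | rfl) <;> simp only [f40, f41, f42, f43] <;> norm_num [RR, ed, hf.a, hf.b, hf.c, hf.d, hf.e, hf.f, hf.g, hf.h, hf.i, hf.j]

theorem paD {p n : ℕ} (hp1 : 1 ≤ p) (hp2 : p < n) (v : ℕ) (hv : v ∈ ({n, n + 1, n + 2, n + 3} : Set ℕ)) :
    RR p n p v ↔ f4 n 1 2 6 4 v ≤ 3 := by
  have hf := af hp1 hp2
  rcases hv with rfl | rfl | rfl | rfl <;> simp only [f40, f41, f42, f43] <;> norm_num [RR, ed, hf.a, hf.b, hf.c, hf.d, hf.e, hf.f, hf.g, hf.h, hf.i, hf.j]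

theorem ndZ {p n : ℕ} (hp1 : 1 ≤ p) (hp2 : p < n) :
    ND p n {n + 1, n + 2, n + 3} ∅ (f4 n 0 2 5 4) (f4 n 0 9 12 (9 / 2)) := by
  have hf := af hp1 hp2
  refine ⟨?_, ?_, ?_, ?_, ?_⟩
  · rintro v (rfl | rfl | rfl) <;> omega
  · rintro v (rfl | rfl | rfl) <;> simp only [f41, f42, f43] <;> norm_num
  · rintro u _ v _ hu
    exact absurd hu (Set.notMem_empty u)
  · rintro u (rfl | rfl | rfl) v (rfl | rfl | rfl) huv hN <;> simp only [f41, f42, f43] <;>
      first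
      | exact absurd rfl huv
      | (norm_num [RR, ed, hf.a, hf.b, hf.c, hf.d, hf.e, hf.f, hf.g, hf.h, hf.i, hf.j]; done)
  · rintro v (rfl | rfl | rfl) <;> simp only [f41, f42, f43] <;> norm_num [RR, ed, hf.a, hf.b, hf.c, hf.d, hf.e, hf.f, hf.g, hf.h, hf.i, hf.j]

theorem paZ {p n : ℕ} (hp1 : 1 ≤ p) (hp2 : p < n) (v : ℕ) (hv : v ∈ ({n + 1, n + 2, n + 3} : Set ℕ)) :
    RR p n p v ↔ f4 n 0 2 5 4 v ≤ 3 := by
  have hf := af hp1 hp2
  rcases hv with rfl | rfl | rfl <;> simp only [f41, f42, f43] <;> norm_num [RR, ed, hf.a, hf.b, hf.c, hf.d, hf.e, hf.f, hf.g, hf.h, hf.i, hf.j]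

theorem ndT {p n : ℕ} (hp1 : 1 ≤ p) (hp2 : p < n) :
    ND p n {n, n + 2} ∅ (f4 n 1 0 5 0) (f4 n 6 0 12 0) := by
  have hf := af hp1 hp2
  refine ⟨?_, ?_, ?_, ?_, ?_⟩
  · rintro v (rfl | rfl) <;> omega
  · rintro v (rfl | rfl) <;> simp only [f40, f42] <;> norm_num
  · rintro u _ v _ hu
    exact absurd hu (Set.notMem_empty u)
  · rintro u (rfl | rfl) v (rfl | rfl) huv hN <;> simp only [f40, f42] <;>
      first
      | exact absurd rfl huv
      | (norm_num [RR, ed, hf.a, hf.b, hf.c, hf.d, hf.e, hf.f, hf.g, hf.h, hf.i, hf.j]; done)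
  · rintro v (rfl | rfl) <;> simp only [f40, f42] <;> norm_num [RR, ed, hf.a, hf.b, hf.c, hf.d, hf.e, hf.f, hf.g, hf.h, hf.i, hf.j]

theorem paT {p n : ℕ} (hp1 : 1 ≤ p) (hp2 : p < n) (v : ℕ) (hv : v ∈ ({n, n + 2} : Set ℕ)) :
    RR p n p v ↔ f4 n 1 0 5 0 v ≤ 3 := by
  have hf := af hp1 hp2
  rcases hv with rfl | rfl <;> simp only [f40, f42] <;> norm_num [RR, ed, hf.a, hf.b, hf.c, hf.d, hf.e, hf.f, hf.g, hf.h, hf.i, hf.j]

theorem ndA {p n : ℕ} (hp1 : 1 ≤ p) (hp2 : p < n) :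
    ND p n {n, n + 1, n + 2} ∅ (f4 n 1 2 5 0) (f4 n 6 9 12 0) := by
  have hf := af hp1 hp2
  refine ⟨?_, ?_, ?_, ?_, ?_⟩
  · rintro v (rfl | rfl | rfl) <;> omega
  · rintro v (rfl | rfl | rfl) <;> simp only [f40, f41, f42] <;> norm_num
  · rintro u _ v _ hu
    exact absurd hu (Set.notMem_empty u)
  · rintro u (rfl | rfl | rfl) v (rfl | rfl | rfl) huv hN <;> simp only [f40, f41, f42] <;>
      first
      | exact absurd rfl huv
      | (norm_num [RR, ed, hf.a, hf.b, hf.c, hf.d, hf.e, hf.f, hf.g, hf.h, hf.i, hf.j]; done)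
  · rintro v (rfl | rfl | rfl) <;> simp only [f40, f41, f42] <;> norm_num [RR, ed, hf.a, hf.b, hf.c, hf.d, hf.e, hf.f, hf.g, hf.h, hf.i, hf.j]

theorem paA {p n : ℕ} (hp1 : 1 ≤ p) (hp2 : p < n) (v : ℕ) (hv : v ∈ ({n, n + 1, n + 2} : Set ℕ)) :
    RR p n p v ↔ f4 n 1 2 5 0 v ≤ 3 := by
  have hf := af hp1 hp2
  rcases hv with rfl | rfl | rfl <;> simp only [f40, f41, f42] <;> norm_num [RR, ed, hf.a, hf.b, hf.c, hf.d, hf.e, hf.f, hf.g, hf.h, hf.i, hf.j]

theorem ndP {p n : ℕ} (hp1 : 1 ≤ p) (hp2 : p < n) :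
    ND p n {n, n + 1, n + 3} ∅ (f4 n 1 2 0 7) (f4 n 6 9 0 8) := by
  have hf := af hp1 hp2
  refine ⟨?_, ?_, ?_, ?_, ?_⟩
  · rintro v (rfl | rfl | rfl) <;> omega
  · rintro v (rfl | rfl | rfl) <;> simp only [f40, f41, f43] <;> norm_num
  · rintro u _ v _ hu
    exact absurd hu (Set.notMem_empty u)
  · rintro u (rfl | rfl | rfl) v (rfl | rfl | rfl) huv hN <;> simp only [f40, f41, f43] <;>
      first
      | exact absurd rfl huv
      | (norm_num [RR, ed, hf.a, hf.b, hf.c, hf.d, hf.e, hf.f, hf.g, hf.h, hf.i, hf.j]; done)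
  · rintro v (rfl | rfl | rfl) <;> simp only [f40, f41, f43] <;> norm_num [RR, ed, hf.a, hf.b, hf.c, hf.d, hf.e, hf.f, hf.g, hf.h, hf.i, hf.j]

theorem paP {p n : ℕ} (hp1 : 1 ≤ p) (hp2 : p < n) (v : ℕ) (hv : v ∈ ({n, n + 1, n + 3} : Set ℕ)) :
    RR p n p v ↔ f4 n 1 2 0 7 v ≤ 3 := by
  have hf := af hp1 hp2
  rcases hv with rfl | rfl | rfl <;> simp only [f40, f41, f43] <;> norm_num [RR, ed, hf.a, hf.b, hf.c, hf.d, hf.e, hf.f, hf.g, hf.h, hf.i, hf.j]

end STSM

open STSM in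
theorem specSTS (hB : SpecBS2) (hG : SpecGL2) (hI : SpecISV) : SpecSTS := by
  intro w hw hInv
  obtain ⟨hp1, hp2, hp3⟩ := tp hw
  have hsub : ∀ u, Vw w \ {u} ⊆ Vw w := fun u => Set.sdiff_subset
  have hpp : pp (true :: w) = nn w + 2 := rfl
  have htt : nn w + 2 - 1 = nn w + 1 := by omega
  have hfull := hInv.full
  refine ⟨?_, ?_, ?_, ?_⟩
  · rw [hpp, EEt]
    refine toEx2 (fromEx2 hB hG hw (S := Vw w) hfull subset_rfl (ndF hp1 hp2) ?_
      (fun v hv _ => paF hp1 hp2 v hv)) ?_ ?_ ?_ ?_ ?_ ?_ ?_ ?_ ?_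
    · have hf := af hp1 hp2
      rintro - v (rfl | rfl | rfl | rfl) hv <;>
        first
        | (exfalso; simp at hv; done)
        | (norm_num [RR, ed, hf.a, hf.b, hf.c, hf.d, hf.e, hf.f, hf.g, hf.h, hf.i, hf.j]; done)
    · ext v
      simp only [Vw, nnc, Set.mem_ofPred_eq, Set.mem_union, Set.mem_insert_iff,
        Set.mem_singleton_iff, Set.mem_sdiff]
      omega
    · simp
    · simp
    · rintro v (rfl | rfl | rfl | rfl) hv <;> simp only [f40, f41, f42, f43] <;>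
        first
        | exact absurd rfl hv
        | norm_num
    · simp only [f42]
      norm_num
    · rw [htt]
      simp
    · rw [htt]
      simp
    · rw [htt]
      rintro v (rfl | rfl | rfl | rfl) hv hv' <;> simp only [f40, f41, f42, f43] <;>
        first
        | exact absurd rfl hv
        | exact absurd rfl hv'
        | norm_num
    · rw [htt]
      simp only [f41]
      norm_num
  · intro u hu hup
    have hu' : u < nn w + 4 := by
      have h : u < nn (true :: w) := hu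
      rwa [nnc] at h
    rw [hpp] at hup
    rw [hpp, EEt]
    by_cases h1 : u = pp w
    · subst h1
      refine toEx2 (fromEx1 hB hG hw (S := Vw w \ {pp w}) (hInv.pdel1 hw) (by simp) (hsub _)
        (ndD hp1 hp2)) ?_ ?_ ?_ ?_ ?_ ?_ ?_ ?_ ?_
      · ext v
        simp only [Vw, nnc, Set.mem_ofPred_eq, Set.mem_union, Set.mem_insert_iff,
          Set.mem_singleton_iff, Set.mem_sdiff]
        omega
      · simp
      · simp
      · rintro v (rfl | rfl | rfl | rfl) hv <;> simp only [f40, f41, f42, f43] <;>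
          first
          | exact absurd rfl hv
          | norm_num
      · simp only [f42]
        norm_num
      · rw [htt]
        simp
      · rw [htt]
        simp
      · rw [htt]
        rintro v (rfl | rfl | rfl | rfl) hv hv' <;> simp only [f40, f41, f42, f43] <;>
          first
          | exact absurd rfl hv
          | exact absurd rfl hv'
          | norm_num
      · rw [htt]
        simp only [f41]
        norm_num
    by_cases h2 : u < nn w
    · refine toEx2 (fromEx2 hB hG hw (S := Vw w \ {u}) (hInv.del u h2 h1) (hsub _) (ndD hp1 hp2)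
        (fun h => absurd h (by simp)) (fun v hv _ => paD hp1 hp2 v hv)) ?_ ?_ ?_ ?_ ?_ ?_ ?_ ?_ ?_
      · ext v
        simp only [Vw, nnc, Set.mem_ofPred_eq, Set.mem_union, Set.mem_insert_iff,
          Set.mem_singleton_iff, Set.mem_sdiff]
        omega
      · simp
      · simp
      · rintro v (rfl | rfl | rfl | rfl) hv <;> simp only [f40, f41, f42, f43] <;>
          first
          | exact absurd rfl hv
          | norm_num
      · simp only [f42]
        norm_num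
      · rw [htt]
        simp
      · rw [htt]
        simp
      · rw [htt]
        rintro v (rfl | rfl | rfl | rfl) hv hv' <;> simp only [f40, f41, f42, f43] <;>
          first
          | exact absurd rfl hv
          | exact absurd rfl hv'
          | norm_num
      · rw [htt]
        simp only [f41]
        norm_num
    by_cases h3 : u = nn w
    · subst h3
      refine toEx2 (fromEx2 hB hG hw (S := Vw w) hfull subset_rfl (ndZ hp1 hp2)
        (fun _ v _ hv => absurd hv (Set.notMem_empty v))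
        (fun v hv _ => paZ hp1 hp2 v hv)) ?_ ?_ ?_ ?_ ?_ ?_ ?_ ?_ ?_
      · ext v
        simp only [Vw, nnc, Set.mem_ofPred_eq, Set.mem_union, Set.mem_insert_iff,
          Set.mem_singleton_iff, Set.mem_sdiff]
        omega
      · simp
      · simp
      · rintro v (rfl | rfl | rfl) hv <;> simp only [f41, f42, f43] <;>
          first
          | exact absurd rfl hv
          | norm_num
      · simp only [f42]
        norm_num
      · rw [htt]
        simp
      · rw [htt]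
        simp
      · rw [htt]
        rintro v (rfl | rfl | rfl) hv hv' <;> simp only [f41, f42, f43] <;>
          first
          | exact absurd rfl hv
          | exact absurd rfl hv'
          | norm_num
      · rw [htt]
        simp only [f41]
        norm_num
    by_cases h4 : u = nn w + 3
    · subst h4
      refine toEx2 (fromEx2 hB hG hw (S := Vw w) hfull subset_rfl (ndA hp1 hp2)
        (fun _ v _ hv => absurd hv (Set.notMem_empty v))
        (fun v hv _ => paA hp1 hp2 v hv)) ?_ ?_ ?_ ?_ ?_ ?_ ?_ ?_ ?_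
      · ext v
        simp only [Vw, nnc, Set.mem_ofPred_eq, Set.mem_union, Set.mem_insert_iff,
          Set.mem_singleton_iff, Set.mem_sdiff]
        omega
      · simp
      · simp
      · rintro v (rfl | rfl | rfl) hv <;> simp only [f40, f41, f42] <;>
          first
          | exact absurd rfl hv
          | norm_num
      · simp only [f42]
        norm_num
      · rw [htt]
        simp
      · rw [htt]
        simp
      · rw [htt]
        rintro v (rfl | rfl | rfl) hv hv' <;> simp only [f40, f41, f42] <;>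
          first
          | exact absurd rfl hv
          | exact absurd rfl hv'
          | norm_num
      · rw [htt]
        simp only [f41]
        norm_num
    have h5 : u = nn w + 1 := by omega
    subst h5
    obtain ⟨N', l', r', M, g1, g2, g3⟩ := fromEx2 hB hG hw (S := Vw w) hfull subset_rfl
      (ndT hp1 hp2) (fun _ v _ hv => absurd hv (Set.notMem_empty v))
      (fun v hv _ => paT hp1 hp2 v hv)
    have hST : ∀ v ∈ Vw w ∪ {nn w, nn w + 2}, v < nn w ∨ v = nn w ∨ v = nn w + 2 := by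
      rintro v (hv | hv | hv)
      · exact Or.inl hv
      · exact Or.inr (Or.inl hv)
      · exact Or.inr (Or.inr hv)
    obtain ⟨N'', l'', r'', k1, k2, k3⟩ := hI _ (nn w + 3) _ _ _ _ (nn w + 3) g1
      (fun v hv => by
        have := hST v hv
        omega)
      (fun hv => by
        have := hST _ hv
        omega)
      (fun v hv => by
        have h6 := hST _ hv
        have h7 : ¬ RR (pp w) (nn w) (nn w + 3) v := by
          intro h
          rcases h with h | h | h | h | h | h | h <;> unfold ed at h <;> omega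
        refine ⟨?_, ?_⟩
        · rintro (h | h)
          · have := (hB.bnd w _ _ h).1
            omega
          · exact h7 h
        · rintro (h | h)
          · have := (hB.bnd w _ _ h).2
            omega
          · exact h7 (RRs h))
      (by
        rintro (h | h)
        · have := (hB.bnd w _ _ h).2
          omega
        · rcases h with h | h | h | h | h | h | h <;> unfold ed at h <;> omega)
    have hUeq : Vw (true :: w) \ {nn w + 1} = (Vw w ∪ {nn w, nn w + 2}) ∪ {nn w + 3} := by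
      ext v
      simp only [Vw, nnc, Set.mem_ofPred_eq, Set.mem_union, Set.mem_insert_iff,
        Set.mem_singleton_iff, Set.mem_sdiff]
      omega
    have hpT : nn w + 2 ∈ ({nn w, nn w + 2} : Set ℕ) := by simp
    have hzT : nn w ∈ ({nn w, nn w + 2} : Set ℕ) := by simp
    have hpS : nn w + 2 ∈ Vw w ∪ {nn w, nn w + 2} := Or.inr hpT
    have q1 := g2 _ hpT
    have q2 := g2 _ hzT
    simp only [f40, f42] at q1 q2
    have q3 := k2 _ hpS
    rw [hUeq]
    refine ⟨N'', l'', r'', k1, Or.inl hpS, ?_, ?_, ?_⟩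
    · rw [q3.1, q1.1]
      simp
    · rintro v (hv | hv) hvp
      · rw [(k2 v hv).2.1, q3.2.1, q1.2]
        rcases hv with hv | hv | hv
        · have := g3 v hv
          linarith
        · rw [hv, q2.2]
          linarith
        · exact absurd hv hvp
      · rw [hv, q3.2.1]
        exact q3.2.2
    · rintro - h
      rw [htt] at h
      exfalso
      rcases h with h | h
      · have := hST _ h
        omega
      · rw [Set.mem_singleton_iff] at h
        omega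
  · have h := fromEx2 hB hG hw (S := Vw w) hfull subset_rfl (ndP hp1 hp2)
      (fun _ v _ hv => absurd hv (Set.notMem_empty v)) (fun v hv _ => paP hp1 hp2 v hv)
    rw [hpp, EEt]
    obtain ⟨N', l', r', M, g1, g2, g3⟩ := h
    have hUeq : Vw (true :: w) \ {nn w + 2} = Vw w ∪ {nn w, nn w + 1, nn w + 3} := by
      ext v
      simp only [Vw, nnc, Set.mem_ofPred_eq, Set.mem_union, Set.mem_insert_iff,
        Set.mem_singleton_iff, Set.mem_sdiff]
      omega
    rw [hUeq]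
    exact ⟨N', l', r', g1⟩
  · intro _
    rw [hpp, EEt, htt]
    refine toEx1 (fromEx2 hB hG hw (S := Vw w) hfull subset_rfl (ndP hp1 hp2)
      (fun _ v _ hv => absurd hv (Set.notMem_empty v)) (fun v hv _ => paP hp1 hp2 v hv)) ?_ ?_ ?_ ?_ ?_
    · ext v
      simp only [Vw, nnc, Set.mem_ofPred_eq, Set.mem_union, Set.mem_insert_iff,
        Set.mem_singleton_iff, Set.mem_sdiff]
      omega
    · simp
    · simp
    · rintro v (rfl | rfl | rfl) hv <;> simp only [f40, f41, f43] <;>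
        first
        | exact absurd rfl hv
        | norm_num
    · simp only [f41]
      norm_num

end Pool.Agent.Lib.MPc95e9c.CH
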