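import Pool.Agent.Lib.MP_c95e9c_lc.CH.Spec

/-!
# Module TWT: a graph with an order in which the earlier neighbours of every vertex are one vertex or two adjacent
vertices is an induced subgraph of a 2-tree.
-/

set_option autoImplicit false

namespace Pool.Agent.Lib.MPc95e9c.CH

namespace TWTM

/-- the new edges -/
def R {M : ℕ} (T : SimpleGraph (Fin M)) (x y : Fin M) (u v : Fin (M + 1)) : Prop :=
  (∃ a b : Fin M, T.Adj a b ∧ u = a.castSucc ∧ v = b.castSucc) ∨
    (∃ a : Fin M, (a = x ∨ a = y) ∧ u = a.castSucc ∧ v = Fin.last M)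

/-- the graph with a new vertex adjacent to `x` and `y` -/
def TT {M : ℕ} (T : SimpleGraph (Fin M)) (x y : Fin M) : SimpleGraph (Fin (M + 1)) :=
  SimpleGraph.fromRel (R T x y)

theorem adj_old {M : ℕ} (T : SimpleGraph (Fin M)) (x y : Fin M) (u v : Fin M) :
    (TT T x y).Adj u.castSucc v.castSucc ↔ T.Adj u v := by
  unfold TT
  rw [SimpleGraph.fromRel_adj]
  constructor
  · rintro ⟨-, (⟨a, b, h, h1, h2⟩ | ⟨a, h, h1, h2⟩) | (⟨a, b, h, h1, h2⟩ | ⟨a, h, h1, h2⟩)⟩
    · rw [Fin.castSucc_injective M h1, Fin.castSucc_injective M h2]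
      exact h
    · exact absurd h2 (Fin.castSucc_ne_last v)
    · rw [Fin.castSucc_injective M h1, Fin.castSucc_injective M h2]
      exact h.symm
    · exact absurd h2 (Fin.castSucc_ne_last u)
  · intro h
    refine ⟨fun e => h.ne (Fin.castSucc_injective M e), Or.inl (Or.inl ⟨u, v, h, rfl, rfl⟩)⟩

theorem adj_new {M : ℕ} (T : SimpleGraph (Fin M)) (x y : Fin M) (u : Fin M) :
    (TT T x y).Adj u.castSucc (Fin.last M) ↔ u = x ∨ u = y := by
  unfold TT
  rw [SimpleGraph.fromRel_adj]
  constructor
  · rintro ⟨-, (⟨a, b, h, h1, h2⟩ | ⟨a, h, h1, h2⟩) | (⟨a, b, h, h1, h2⟩ | ⟨a, h, h1, h2⟩)⟩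
    · exact absurd h2.symm (Fin.castSucc_ne_last b)
    · rw [Fin.castSucc_injective M h1]
      exact h
    · exact absurd h1.symm (Fin.castSucc_ne_last a)
    · exact absurd h1.symm (Fin.castSucc_ne_last a)
  · intro h
    exact ⟨Fin.castSucc_ne_last u, Or.inl (Or.inr ⟨u, h, rfl, rfl⟩)⟩

theorem ext {M : ℕ} (T : SimpleGraph (Fin M)) (hT : IsTwoTree T) (x y : Fin M)
    (hxy : T.Adj x y) : IsTwoTree (TT T x y) := by
  obtain ⟨h2, h01, hs⟩ := hT
  refine ⟨by omega, ?_, ?_⟩
  · intro u v hu hv
    have e1 : u = (⟨0, by omega⟩ : Fin M).castSucc := Fin.ext (by simpa using hu)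
    have e2 : v = (⟨1, by omega⟩ : Fin M).castSucc := Fin.ext (by simpa using hv)
    rw [e1, e2, adj_old]
    exact h01 _ _ rfl rfl
  · intro v hv
    induction v using Fin.lastCases with
    | last =>
      refine ⟨x.castSucc, y.castSucc, Fin.castSucc_lt_last x, Fin.castSucc_lt_last y,
        (adj_old T x y x y).2 hxy, ?_⟩
      intro u hu
      induction u using Fin.lastCases with
      | last => exact absurd hu (lt_irrefl _)
      | cast u =>
        rw [adj_new, (Fin.castSucc_injective M).eq_iff, (Fin.castSucc_injective M).eq_iff]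
    | cast v =>
      obtain ⟨a, b, ha, hb, hab, hn⟩ := hs v (by simpa using hv)
      refine ⟨a.castSucc, b.castSucc, by simpa using ha, by simpa using hb,
        (adj_old T x y a b).2 hab, ?_⟩
      intro u hu
      induction u using Fin.lastCases with
      | last => exact absurd (hu.trans (Fin.castSucc_lt_last v)) (lt_irrefl _)
      | cast u =>
        rw [adj_old, (Fin.castSucc_injective M).eq_iff, (Fin.castSucc_injective M).eq_iff]
        exact hn u (by simpa using hu)

theorem nbr {M : ℕ} (T : SimpleGraph (Fin M)) (hT : IsTwoTree T) (v : Fin M) :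
    ∃ w : Fin M, T.Adj v w := by
  obtain ⟨h2, h01, hs⟩ := hT
  rcases Nat.lt_or_ge (v : ℕ) 2 with h | h
  · rcases Nat.lt_or_ge (v : ℕ) 1 with h' | h'
    · exact ⟨⟨1, by omega⟩, h01 _ _ (by omega) rfl⟩
    · exact ⟨⟨0, by omega⟩, (h01 ⟨0, by omega⟩ v rfl (by omega)).symm⟩
  · obtain ⟨x, y, hx, hy, hxy, hn⟩ := hs v h
    exact ⟨x, ((hn x hx).2 (Or.inl rfl)).symm⟩

theorem emb {n K : ℕ} (G : SimpleGraph (Fin (n + 1))) (T : SimpleGraph (Fin (K + 1)))
    (φ : Fin n → Fin K) (hφ : Function.Injective φ)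
    (h1 : ∀ a b, T.Adj (φ a).castSucc (φ b).castSucc ↔ G.Adj a.castSucc b.castSucc)
    (h2 : ∀ a, T.Adj (φ a).castSucc (Fin.last K) ↔ G.Adj a.castSucc (Fin.last n)) :
    Nonempty (G ↪g T) := by
  let f : Fin (n + 1) → Fin (K + 1) :=
    fun i => Fin.lastCases (motive := fun _ => Fin (K + 1)) (Fin.last K)
      (fun j => (φ j).castSucc) i
  have fl : f (Fin.last n) = Fin.last K := by simp [f]
  have fc : ∀ j : Fin n, f j.castSucc = (φ j).castSucc := fun j => by simp [f]
  have inj : Function.Injective f := by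
    intro a b hab
    induction a using Fin.lastCases with
    | last =>
      induction b using Fin.lastCases with
      | last => rfl
      | cast b =>
        rw [fl, fc] at hab
        exact absurd hab.symm (Fin.castSucc_ne_last _)
    | cast a =>
      induction b using Fin.lastCases with
      | last =>
        rw [fl, fc] at hab
        exact absurd hab (Fin.castSucc_ne_last _)
      | cast b =>
        rw [fc, fc] at hab
        rw [hφ (Fin.castSucc_injective K hab)]
  refine ⟨⟨⟨f, inj⟩, ?_⟩⟩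
  intro a b
  show T.Adj (f a) (f b) ↔ G.Adj a b
  induction a using Fin.lastCases with
  | last =>
    induction b using Fin.lastCases with
    | last => simp
    | cast b =>
      rw [fl, fc, T.adj_comm, G.adj_comm]
      exact h2 b
  | cast a =>
    induction b using Fin.lastCases with
    | last =>
      rw [fl, fc]
      exact h2 a
    | cast b =>
      rw [fc, fc]
      exact h1 a b

theorem eliCast {n : ℕ} (G : SimpleGraph (Fin (n + 1))) (hG : Eli G) :
    Eli (G.comap Fin.castSucc) := by
  intro i hi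
  obtain ⟨x, y, hx, hy, hxy, hn⟩ := hG i.castSucc (by simpa using hi)
  have lx : (x : ℕ) < n := lt_trans (show (x : ℕ) < i from hx) i.2
  have ly : (y : ℕ) < n := lt_trans (show (y : ℕ) < i from hy) i.2
  obtain ⟨x', rfl⟩ : ∃ x' : Fin n, x = x'.castSucc := ⟨⟨x, lx⟩, rfl⟩
  obtain ⟨y', rfl⟩ : ∃ y' : Fin n, y = y'.castSucc := ⟨⟨y, ly⟩, rfl⟩
  refine ⟨x', y', by simpa using hx, by simpa using hy, ?_, ?_⟩
  · rcases hxy with h | h
    · exact Or.inl (Fin.castSucc_injective n h)
    · exact Or.inr h
  · intro j hj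
    have := hn j.castSucc (by simpa using hj)
    rw [(Fin.castSucc_injective n).eq_iff, (Fin.castSucc_injective n).eq_iff] at this
    exact this

theorem main (m : ℕ) : ∀ G : SimpleGraph (Fin (m + 1)), Eli G →
    ∃ (M : ℕ) (T : SimpleGraph (Fin M)), IsTwoTree T ∧ Nonempty (G ↪g T) := by
  induction m with
  | zero =>
    intro G _
    refine ⟨2, ⊤, ⟨le_rfl, ?_, ?_⟩, ⟨⟨⟨fun _ => 0, ?_⟩, ?_⟩⟩⟩
    · intro u v hu hv
      rw [SimpleGraph.top_adj]
      intro e
      rw [e, hv] at hu
      exact one_ne_zero hu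
    · intro v hv
      exact absurd v.2 (by omega)
    · intro a b _
      exact Subsingleton.elim (α := Fin 1) a b
    · intro a b
      have e : a = b := Subsingleton.elim (α := Fin 1) a b
      subst e
      simp
  | succ m ih =>
    intro G hG
    obtain ⟨M, T, hT, ⟨e⟩⟩ := ih (G.comap Fin.castSucc) (eliCast G hG)
    obtain ⟨x, y, hx, hy, hxy, hn⟩ := hG (Fin.last (m + 1)) (by simp)
    obtain ⟨x', rfl⟩ : ∃ x' : Fin (m + 1), x = x'.castSucc := ⟨⟨x, hx⟩, rfl⟩
    obtain ⟨y', rfl⟩ : ∃ y' : Fin (m + 1), y = y'.castSucc := ⟨⟨y, hy⟩, rfl⟩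
    have he : ∀ a b : Fin (m + 1), T.Adj (e a) (e b) ↔ G.Adj a.castSucc b.castSucc :=
      fun a b => e.map_rel_iff
    have hn' : ∀ a : Fin (m + 1), G.Adj a.castSucc (Fin.last (m + 1)) ↔ a = x' ∨ a = y' := by
      intro a
      have := hn a.castSucc (Fin.castSucc_lt_last a)
      rw [(Fin.castSucc_injective (m + 1)).eq_iff, (Fin.castSucc_injective (m + 1)).eq_iff] at this
      exact this
    by_cases hne : x' = y'
    · subst hne
      obtain ⟨w, hw⟩ := nbr T hT (e x')
      have hT1 := ext T hT (e x') w hw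
      have hadj : (TT T (e x') w).Adj (e x').castSucc (Fin.last M) :=
        (adj_new T (e x') w (e x')).2 (Or.inl rfl)
      refine ⟨M + 1 + 1, TT (TT T (e x') w) (e x').castSucc (Fin.last M),
        ext _ hT1 _ _ hadj, ?_⟩
      refine emb G _ (fun a => (e a).castSucc)
        (fun a b hab => e.injective (Fin.castSucc_injective M hab)) ?_ ?_
      · intro a b
        rw [adj_old, adj_old, he]
      · intro a
        rw [adj_new, hn', (Fin.castSucc_injective M).eq_iff, e.injective.eq_iff]
        constructor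
        · rintro (h | h)
          · exact Or.inl h
          · exact absurd h (Fin.castSucc_ne_last _)
        · rintro (h | h)
          · exact Or.inl h
          · exact Or.inl h
    · have hadj : T.Adj (e x') (e y') := by
        rw [he]
        rcases hxy with h | h
        · exact absurd (Fin.castSucc_injective (m + 1) h) hne
        · exact h
      refine ⟨M + 1, TT T (e x') (e y'), ext T hT _ _ hadj, ?_⟩
      refine emb G _ (fun a => e a) e.injective ?_ ?_
      · intro a b
        rw [adj_old, he]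
      · intro a
        rw [adj_new, hn', e.injective.eq_iff, e.injective.eq_iff]

end TWTM

theorem specTWT : SpecTWT := by
  intro n G hn hG
  obtain ⟨m, rfl⟩ : ∃ m, n = m + 1 := ⟨n - 1, by omega⟩
  exact TWTM.main m G hG

end Pool.Agent.Lib.MPc95e9c.CH
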