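import Pool.Agent.Lib.MP_c95e9c_lc.CH.Spec

/-!
# MP_c95e9c_lc, CH, module WR2: facts on the words
-/

set_option autoImplicit false

namespace Pool.Agent.Lib.MPc95e9c.CH

namespace WR2M

lemma nn_eq (w : List Bool) : nn w = 5 + 4 * w.length := rfl

lemma len_wd (k : ℕ) (bs : List Bool) : (wd k bs).length = k + 2 * bs.length := by
  induction bs with
  | nil => simp [wd]
  | cons b bs ih =>
    cases b <;> simp [wd, ih] <;> ring

lemma ok_false (w : List Bool) (h : Ok w) : Ok (false :: w) := by
  rw [Ok]
  exact ⟨h, fun h => by simp at h⟩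

lemma ok_true (w : List Bool) (h : Ok w) (h0 : w ≠ []) : Ok (true :: w) := by
  rw [Ok]
  exact ⟨h, fun _ => h0⟩

lemma ok_wd (k : ℕ) (bs : List Bool) : Ok (wd k bs) := by
  induction bs with
  | nil =>
    rw [wd]
    induction k with
    | zero => simp [Ok]
    | succ k ih => rw [List.replicate_succ]; exact ok_false _ ih
  | cons b bs ih =>
    cases b
    · rw [wd]
      exact ok_false _ (ok_false _ ih)
    · rw [wd]
      exact ok_true _ (ok_false _ ih) (by simp)

end WR2M

open WR2M in
theorem specWR2 : SpecWR2 where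
  num := by
    intro k bs
    rw [nn_eq, WW, List.length_cons, List.length_cons, len_wd]
    ring
  okk := by
    intro k bs
    rw [WW]
    exact ok_true _ (ok_false _ (ok_wd _ _)) (by simp)

end Pool.Agent.Lib.MPc95e9c.CH
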