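import Pool.Agent.Lib.MP_c95e9c_lc.OB.Main
import Pool.Agent.Lib.MP_c95e9c_lc.CH.BS2
import Pool.Agent.Lib.MP_c95e9c_lc.CH.CT2
import Pool.Agent.Lib.MP_c95e9c_lc.CH.EN2
import Pool.Agent.Lib.MP_c95e9c_lc.CH.FI2
import Pool.Agent.Lib.MP_c95e9c_lc.CH.FR2
import Pool.Agent.Lib.MP_c95e9c_lc.CH.GL2
import Pool.Agent.Lib.MP_c95e9c_lc.CH.ISV
import Pool.Agent.Lib.MP_c95e9c_lc.CH.LE2
import Pool.Agent.Lib.MP_c95e9c_lc.CH.MI2
import Pool.Agent.Lib.MP_c95e9c_lc.CH.NET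
import Pool.Agent.Lib.MP_c95e9c_lc.CH.NI2
import Pool.Agent.Lib.MP_c95e9c_lc.CH.ORD
import Pool.Agent.Lib.MP_c95e9c_lc.CH.RO2
import Pool.Agent.Lib.MP_c95e9c_lc.CH.STB
import Pool.Agent.Lib.MP_c95e9c_lc.CH.STS
import Pool.Agent.Lib.MP_c95e9c_lc.CH.TWT
import Pool.Agent.Lib.MP_c95e9c_lc.CH.WR2

/-!
# MP_c95e9c, CH: assembly
-/

set_option autoImplicit false

namespace Pool.Agent.Lib.MPc95e9c.CH

theorem allMI2 : SpecMI2 :=
  specMI2 specBS2 (specNI2 specNIL) (specSTB specBS2 specGLU specISV) (specSTS specBS2 specGL2 specISV)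
    (specEN2 specBS2 specGLU) (specFR2 specBS2 specCLW specNET) specCNV

theorem allFI2 : SpecFI2 :=
  specFI2 allMI2 specLIS (specLE2 specBS2) (specRO2 specBS2) (specCT2 specBS2) specWR2
    (specORD specBS2) specTWT

end Pool.Agent.Lib.MPc95e9c.CH
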