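import Pool.Agent.Lib.MP_c95e9c_lc.CH.Spec

/-!
# MP_c95e9c, CH, module NET
-/

set_option autoImplicit false

namespace Pool.Agent.Lib.MPc95e9c.CH

open Pool.Agent.Lib.MPc95e9c

namespace NETM

theorem mirror {E : ℕ → ℕ → Prop} {S N : Set ℕ} {l r : ℕ → ℝ} (h : Rp E S N l r) :
    Rp E S N (fun v => - r v) (fun v => - l v) := by
  refine ⟨fun v hv => ?_, h.ind, fun u hu v hv hne hN => ?_⟩
  · have := h.le v hv
    show - r v ≤ - l v
    linarith
  · rw [h.adj u hu v hv hne hN]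
    constructor
    · rintro ⟨h1, h2⟩
      exact ⟨by linarith, by linarith⟩
    · rintro ⟨h1, h2⟩
      exact ⟨by linarith, by linarith⟩

/-- adjacent vertices overlap -/
theorem ov {E : ℕ → ℕ → Prop} {S N : Set ℕ} {l r : ℕ → ℝ} (h : Rp E S N l r) {u v : ℕ}
    (hu : u ∈ S) (hv : v ∈ S) (hne : u ≠ v) (hE : E u v) : l u ≤ r v ∧ l v ≤ r u := by
  have hN : ¬ (u ∈ N ∧ v ∈ N) := fun hh => h.ind u hu v hv hh.1 hh.2 hE
  exact (h.adj u hu v hv hne hN).1 hE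

/-- not adjacent, not both in `N`: disjoint -/
theorem dj {E : ℕ → ℕ → Prop} {S N : Set ℕ} {l r : ℕ → ℝ} (h : Rp E S N l r) {u v : ℕ}
    (hu : u ∈ S) (hv : v ∈ S) (hne : u ≠ v) (hN : ¬ (u ∈ N ∧ v ∈ N)) (hE : ¬ E u v) :
    r v < l u ∨ r u < l v := by
  by_contra hcon
  push_neg at hcon
  exact hE ((h.adj u hu v hv hne hN).2 hcon)

/-- `a` and `y` on the left -/
theorem case2 {E : ℕ → ℕ → Prop} {S N : Set ℕ} {l r : ℕ → ℝ} (h : Rp E S N l r)
    (hs : ∀ u v, E u v → E v u) {z t v a L y : ℕ}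
    (hz : z ∈ S) (ht : t ∈ S) (hv : v ∈ S) (ha : a ∈ S) (hL : L ∈ S) (hy : y ∈ S)
    (zt : z ≠ t) (zL : z ≠ L) (ta : t ≠ a) (tL : t ≠ L) (ty : t ≠ y) (vL : v ≠ L)
    (aL : a ≠ L) (ay : a ≠ y) (Ly : L ≠ y)
    (Ezt : E z t) (Eta : E t a) (EzL : E z L) (ELy : E L y)
    (naL : ¬ E a L) (nay : ¬ E a y) (nLv : ¬ E L v) (nLt : ¬ E L t) (nyt : ¬ E y t)
    (hvN : v ∉ N) (a1 : r a < l z) (y1 : r y < l z) (y2 : r y < l v) : False := by
  have o1 := ov h hz ht zt Ezt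
  have o2 := ov h ht ha ta Eta
  have o3 := ov h hz hL zL EzL
  have o4 := ov h hL hy Ly ELy
  have hlv := h.le v hv
  have hla := h.le a ha
  have hly := h.le y hy
  have hLN : L ∈ N ∧ t ∈ N := by
    by_contra hN
    have hd := dj h hL ht (Ne.symm tL) hN nLt
    rcases hd with hd | hd <;> linarith [o1.1, o1.2, o2.1, o2.2, o3.1, o3.2, o4.1, o4.2]
  have haN : a ∉ N := fun hh => h.ind t ht a ha hLN.2 hh Eta
  have hyN : y ∉ N := fun hh => h.ind L hL y hy hLN.1 hh ELy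
  rcases dj h ha hy ay (fun hh => haN hh.1) nay with hd | hd
  · -- r y < l a
    rcases dj h ha hL aL (fun hh => haN hh.1) naL with he | he <;>
      linarith [o1.1, o1.2, o2.1, o2.2, o3.1, o3.2, o4.1, o4.2]
  · -- r a < l y
    rcases dj h hy ht (Ne.symm ty) (fun hh => hyN hh.1) nyt with he | he <;>
      linarith [o1.1, o1.2, o2.1, o2.2, o3.1, o3.2, o4.1, o4.2]

/-- the position of `L` -/
theorem posL {E : ℕ → ℕ → Prop} {S N : Set ℕ} {l r : ℕ → ℝ} (h : Rp E S N l r)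
    {z v L y : ℕ} (hz : z ∈ S) (hv : v ∈ S) (hL : L ∈ S) (hy : y ∈ S)
    (zL : z ≠ L) (vL : v ≠ L) (Ly : L ≠ y) (EzL : E z L) (ELy : E L y) (nLv : ¬ E L v)
    (hvN : v ∉ N) (y2 : r y < l v) : l z ≤ r L ∧ r L < l v := by
  have o3 := ov h hz hL zL EzL
  have o4 := ov h hL hy Ly ELy
  have hlv := h.le v hv
  refine ⟨o3.1, ?_⟩
  rcases dj h hL hv (Ne.symm vL) (fun hh => hvN hh.2) nLv with hd | hd
  · linarith [o4.1, o4.2]
  · exact hd

/-- `w` is on one side of `z` and `v` -/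
theorem side {E : ℕ → ℕ → Prop} {S N : Set ℕ} {l r : ℕ → ℝ} (h : Rp E S N l r) {z v w : ℕ}
    (hz : z ∈ S) (hv : v ∈ S) (hw : w ∈ S) (zv : z ≠ v) (wz : w ≠ z) (wv : w ≠ v)
    (Ezv : E z v) (nwz : ¬ E w z) (nwv : ¬ E w v) (hzN : z ∉ N) (hvN : v ∉ N) :
    (r w < l z ∧ r w < l v) ∨ (r z < l w ∧ r v < l w) := by
  have o := ov h hz hv zv Ezv
  have hlw := h.le w hw
  have hlz := h.le z hz
  have hlv := h.le v hv
  rcases dj h hw hz wz (fun hh => hzN hh.2) nwz with h1 | h1 <;>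
    rcases dj h hw hv wv (fun hh => hvN hh.2) nwv with h2 | h2
  · exact Or.inr ⟨h1, h2⟩
  · exact absurd o.2 (by linarith)
  · exact absurd o.1 (by linarith)
  · exact Or.inl ⟨h1, h2⟩

end NETM

open NETM in
theorem specNET : SpecNET := by
  intro E S N l r h hs z t v a L y R y' hz ht hv ha hL hy hR hy' zt zv za zL zy zR zy' tv ta tL ty
    tR ty' va vL vy vR vy' aL ay aR ay' Ly Ry' Ezt Ezv Etv Eta EzL ELy EvR ERy' naz nav naL nay naR
    nay' nLv nLt nRz nRt nyz nyv nyt ny'z ny'v ny't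
  by_contra hcon
  push_neg at hcon
  obtain ⟨hzN, hvN⟩ := hcon
  have Evt := hs t v Etv
  have Evz := hs z v Ezv
  -- two on the left is impossible, for every representation
  have core : ∀ l r : ℕ → ℝ, Rp E S N l r →
      (((r y < l z ∧ r y < l v) ∧ (r y' < l z ∧ r y' < l v)) ∨
      ((r a < l z ∧ r a < l v) ∧ (r y < l z ∧ r y < l v)) ∨
      ((r a < l z ∧ r a < l v) ∧ (r y' < l z ∧ r y' < l v))) → False := by
    intro l r h hh
    rcases hh with ⟨h1, h2⟩ | ⟨h1, h2⟩ | ⟨h1, h2⟩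
    · have p1 := posL h hz hv hL hy zL vL Ly EzL ELy nLv hvN h1.2
      have p2 := posL h hv hz hR hy' vR zR Ry' EvR ERy' nRz hzN h2.1
      linarith [p1.1, p1.2, p2.1, p2.2]
    · exact case2 h hs hz ht hv ha hL hy zt zL ta tL ty vL aL ay Ly Ezt Eta EzL ELy naL nay nLv nLt
        nyt hvN h1.1 h2.1 h2.2
    · exact case2 h hs hv ht hz ha hR hy' (Ne.symm tv) vR ta tR ty' zR aR ay' Ry' Evt Eta EvR ERy'
        naR nay' nRz nRt ny't hzN h1.2 h2.2 h2.1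
  have hm := mirror h
  have s1 := side h hz hv ha zv (Ne.symm za) (Ne.symm va) Ezv naz nav hzN hvN
  have s2 := side h hz hv hy zv (Ne.symm zy) (Ne.symm vy) Ezv nyz nyv hzN hvN
  have s3 := side h hz hv hy' zv (Ne.symm zy') (Ne.symm vy') Ezv ny'z ny'v hzN hvN
  have flip : ∀ w : ℕ, (r z < l w ∧ r v < l w) → (- l w < - r z ∧ - l w < - r v) := by
    rintro w ⟨h1, h2⟩
    exact ⟨by linarith, by linarith⟩
  rcases s1 with s1 | s1 <;> rcases s2 with s2 | s2 <;> rcases s3 with s3 | s3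
  · exact core l r h (Or.inl ⟨s2, s3⟩)
  · exact core l r h (Or.inr (Or.inl ⟨s1, s2⟩))
  · exact core l r h (Or.inr (Or.inr ⟨s1, s3⟩))
  · exact core _ _ hm (Or.inl ⟨flip y s2, flip y' s3⟩)
  · exact core l r h (Or.inl ⟨s2, s3⟩)
  · exact core _ _ hm (Or.inr (Or.inr ⟨flip a s1, flip y' s3⟩))
  · exact core _ _ hm (Or.inr (Or.inl ⟨flip a s1, flip y s2⟩))
  · exact core _ _ hm (Or.inl ⟨flip y s2, flip y' s3⟩)

end Pool.Agent.Lib.MPc95e9c.CH
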