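import Pool.Agent.Lib.MP_c95e9c_lc.OB.Spec

/-!
# MP_c95e9c: exponentially many minimal forbidden induced subgraphs of interval probe graphs inside 2-trees

THEOREM (`Results/MP_c95e9c_lc/TwoTreeObstructions.lean`). For every `R` there are `2 ^ (R / 2)` pairwise non-isomorphic graphs with exactly
`4 R + 22` vertices which are induced subgraphs of 2-trees, not interval probe graphs (unpartitioned), but all of whose proper induced
subgraphs are. (Known: Przulj and Corneil 2005, at least 62 minimal forbidden induced subgraphs for 2-trees.)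

THE GRAPHS. A chain of steps from left to right; `p` is the exit of the last step (`0` for the left end), `t = p - 1`. A step adds
`z = x, t' = x + 1, p' = x + 2, a' = x + 3` (`x` the number of vertices) with the edges `p z, z t', z p', t' p', t' a'`, and if the bit is
`true` (not allowed for the first step) also `t z` and `p t'`. At the left end `0` and at the right end `c` (adjacent to the last exit) two pendant
paths with two edges are attached. Lists of steps are read from right to left: the head of the list is the last step.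

NOT A PROBE GRAPH. `0` and `c` are centres of induced subdivided claws, so they are in `N` (`SpecCLW`). If `p` is in `N`, its neighbour `z` is not, and by
NET (a triangle `z, t', p'` with a pendant vertex at `t'` and arms of length two at `z` and `p'`) `p'` is in `N`. So the last exit is in `N`: it is
adjacent to `c`, contradiction.
MINIMAL. If a vertex is deleted the exits on the left are in `N`, those on the right are not (there the `z` are in `N`).

Module `XXX` is the file `CH/XXX.lean` with `theorem specXXX (hYYY : SpecYYY) .. : SpecXXX` (the modules named after USES, in this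
order; `OB.SpecYYY` is `Pool.Agent.Lib.MPc95e9c.SpecYYY` of `OB/Spec.lean`) in the namespace `Pool.Agent.Lib.MPc95e9c.CH`, own lemmas in a namespace
`XXXM`. Every module imports only `Pool.Agent.Lib.MP_c95e9c_lc.CH.Spec` (and `OB` files if it adapts them). No double-quote characters.
-/

set_option autoImplicit false

namespace Pool.Agent.Lib.MPc95e9c.CH

/-! ## Definition which occurs in the theorem -/

/-- `T` is a 2-tree (with its vertices in an order of construction): `0` and `1` are adjacent and every vertex `v ≥ 2` has exactly two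
neighbours `x, y` before it, and these are adjacent. -/
def IsTwoTree {M : ℕ} (T : SimpleGraph (Fin M)) : Prop :=
  2 ≤ M ∧ (∀ u v : Fin M, (u : ℕ) = 0 → (v : ℕ) = 1 → T.Adj u v) ∧
    ∀ v : Fin M, 2 ≤ (v : ℕ) → ∃ x y : Fin M, x < v ∧ y < v ∧ T.Adj x y ∧ ∀ u : Fin M, u < v → (T.Adj u v ↔ u = x ∨ u = y)

/-! ## The graphs -/

/-- the number of vertices (without the right end) -/
def nn (w : List Bool) : ℕ := 5 + 4 * w.length

/-- the exit -/
def pp : List Bool → ℕ
  | [] => 0
  | _ :: w => nn w + 2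

/-- the edges of a step -/
def st (b : Bool) (p x u v : ℕ) : Prop :=
  ed p x u v ∨ ed x (x + 1) u v ∨ ed x (x + 2) u v ∨ ed (x + 1) (x + 2) u v ∨ ed (x + 1) (x + 3) u v ∨
    (b = true ∧ (ed (p - 1) x u v ∨ ed p (x + 1) u v))

/-- the edges (without the right end) -/
def EE : List Bool → ℕ → ℕ → Prop
  | [], u, v => ed 0 1 u v ∨ ed 1 2 u v ∨ ed 0 3 u v ∨ ed 3 4 u v
  | b :: w, u, v => EE w u v ∨ st b (pp w) (nn w) u v

/-- the edges of the right end -/
def rt (p n u v : ℕ) : Prop := ed p n u v ∨ ed n (n + 1) u v ∨ ed (n + 1) (n + 2) u v ∨ ed n (n + 3) u v ∨ ed (n + 3) (n + 4) u v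

/-- all edges -/
def EF (w : List Bool) (u v : ℕ) : Prop := EE w u v ∨ rt (pp w) (nn w) u v

/-- the graph on `Fin n`, used for `n = nn w + 5` -/
def GG (n : ℕ) (w : List Bool) : SimpleGraph (Fin n) := SimpleGraph.fromRel fun u v => EF w u v

/-- the admissible words: the first step is `false` -/
def Ok : List Bool → Prop
  | [] => True
  | b :: w => Ok w ∧ (b = true → w ≠ [])

/-- the distance from the vertex `0` -/
def DD : List Bool → ℕ → ℕ
  | [], v => if v = 0 then 0 else if v = 1 ∨ v = 3 then 1 else 2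
  | b :: w, v =>
    let d := DD w (pp w)
    let dz := (if b then min d (DD w (pp w - 1)) else d) + 1
    let dt := (if b then min dz d else dz) + 1
    if v < nn w then DD w v else if v = nn w then dz else if v = nn w + 1 then dt else if v = nn w + 2 then min dz dt + 1 else dt + 1

/-- the distance from the vertex `0` in the whole graph -/
def DF (w : List Bool) (v : ℕ) : ℕ :=
  if v < nn w then DD w v else if v = nn w then DD w (pp w) + 1 else if v = nn w + 1 ∨ v = nn w + 3 then DD w (pp w) + 2 else DD w (pp w) + 3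

/-- `k` steps `false` on the left, then for every bit two steps: `false`, then the bit -/
def wd (k : ℕ) : List Bool → List Bool
  | [] => List.replicate k false
  | b :: bs => b :: false :: wd k bs

/-- the words of the theorem: they begin (on the left) with `false, false` and end with `false, true` -/
def WW (k : ℕ) (bs : List Bool) : List Bool := true :: false :: wd (k + 1) bs

/-! ## Representations -/

/-- the vertices -/
def Vw (w : List Bool) : Set ℕ := {v | v < nn w}

/-- a representation in which `p` has the status `s` and ends last; if `p ≠ 0` and `p - 1` is present, then `p - 1` is not in `N` and ends after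
all others -/
def Ex2 (E : ℕ → ℕ → Prop) (S : Set ℕ) (p : ℕ) (s : Bool) : Prop :=
  ∃ (N : Set ℕ) (l r : ℕ → ℝ), Rp E S N l r ∧ p ∈ S ∧ (p ∈ N ↔ s = true) ∧ (∀ v ∈ S, v ≠ p → r v < r p) ∧
    (p ≠ 0 → p - 1 ∈ S → p - 1 ∉ N ∧ ∀ v ∈ S, v ≠ p → v ≠ p - 1 → r v < r (p - 1))

/-- a representation in which `t` is not in `N` and ends last -/
def Ex1 (E : ℕ → ℕ → Prop) (S : Set ℕ) (t : ℕ) : Prop :=
  ∃ (N : Set ℕ) (l r : ℕ → ℝ), Rp E S N l r ∧ t ∈ S ∧ t ∉ N ∧ ∀ v ∈ S, v ≠ t → r v < r t

/-- the induction hypothesis for the minimality -/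
structure Inv (w : List Bool) : Prop where
  full : Ex2 (EE w) (Vw w) (pp w) true
  del : ∀ u ∈ Vw w, u ≠ pp w → Ex2 (EE w) (Vw w \ {u}) (pp w) false
  pdel : Pl (EE w) (Vw w \ {pp w})
  pdel1 : w ≠ [] → Ex1 (EE w) (Vw w \ {pp w}) (pp w - 1)

/-! ## Statements of the modules -/

/-- **BS2** (150 lines). Elementary facts (`unfold ed st rt`, `omega`, induction; compare `OB/BAS.lean`). -/
structure SpecBS2 : Prop where
  plt : ∀ w, pp w < nn w
  pne : ∀ w, pp w ≠ 1 ∧ pp w ≠ 2 ∧ pp w ≠ 3 ∧ pp w ≠ 4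
  bnd : ∀ w u v, EE w u v → u < nn w ∧ v < nn w
  sym : ∀ w u v, EE w u v → EE w v u
  irr : ∀ w u, ¬ EE w u u
  bndF : ∀ w u v, EF w u v → u < nn w + 5 ∧ v < nn w + 5
  symF : ∀ w u v, EF w u v → EF w v u
  irrF : ∀ w u, ¬ EF w u u
  adjG : ∀ (n : ℕ) (w : List Bool) (u v : Fin n), (GG n w).Adj u v ↔ EF w u v

/-- **GL2** (200 lines). USES nothing. Gluing along an edge `t p` (compare `OB/GLU.lean`): `p` is prolonged (or cut) to `M + e`, `t` to `M + f`. Also used if
`t` or `p` is not in `S`.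
PROOF. `l' v = M + a v`, `r' v = M + b v` for `v ∈ T`, `r' p = M + e`, `r' t = M + f`, otherwise `l, r`. For `u ∈ S` other than `t, p`: `l u ≤ r u < M`, so the position of the
right ends of `t, p` beyond `M` does not matter; `t` and `p` meet before and after (both contain `M`). -/
def SpecGL2 : Prop := ∀ (E E' : ℕ → ℕ → Prop) (S T N NT : Set ℕ) (l r a b : ℕ → ℝ) (t p : ℕ) (M e f : ℝ),
  Rp E S N l r → Disjoint S T → p ∉ T → t ∉ T → t ≠ p →
  (∀ v ∈ S, v ≠ p → v ≠ t → r v < M) → (p ∈ S → l p ≤ M ∧ M ≤ r p) → (t ∈ S → l t ≤ M ∧ M ≤ r t) → 0 ≤ e → 0 ≤ f →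
  (∀ u v, E' u v → E' v u) →
  (∀ u ∈ S, ∀ v ∈ S, (E' u v ↔ E u v)) →
  (∀ u ∈ S, u ≠ p → u ≠ t → ∀ v ∈ T, ¬ E' u v) →
  (∀ v ∈ T, 0 < a v ∧ a v ≤ b v) →
  (∀ u ∈ T, ∀ v ∈ T, u ∈ NT → v ∈ NT → ¬ E' u v) →
  (p ∈ S → p ∈ N → ∀ v ∈ T, v ∈ NT → ¬ E' p v) →
  (t ∈ S → t ∈ N → ∀ v ∈ T, v ∈ NT → ¬ E' t v) →
  (∀ u ∈ T, ∀ v ∈ T, u ≠ v → ¬ (u ∈ NT ∧ v ∈ NT) → (E' u v ↔ a u ≤ b v ∧ a v ≤ b u)) →
  (p ∈ S → ∀ v ∈ T, ¬ (p ∈ N ∧ v ∈ NT) → (E' p v ↔ a v ≤ e)) →
  (t ∈ S → ∀ v ∈ T, ¬ (t ∈ N ∧ v ∈ NT) → (E' t v ↔ a v ≤ f)) →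
  ∃ (N' : Set ℕ) (l' r' : ℕ → ℝ), Rp E' (S ∪ T) N' l' r' ∧
    (∀ v ∈ T, (v ∈ N' ↔ v ∈ NT) ∧ r' v = M + b v) ∧
    (∀ v ∈ S, v ≠ p → v ≠ t → r' v < M) ∧ (p ∈ S → r' p = M + e ∧ (p ∈ N' ↔ p ∈ N)) ∧ (t ∈ S → r' t = M + f ∧ (t ∈ N' ↔ t ∈ N))

/-- **ISV** (60 lines). USES nothing. An isolated vertex `i` is placed to the left of everything. -/
def SpecISV : Prop := ∀ (E : ℕ → ℕ → Prop) (n : ℕ) (S N : Set ℕ) (l r : ℕ → ℝ) (i : ℕ),
  Rp E S N l r → (∀ v ∈ S, v < n) → i ∉ S → (∀ v ∈ S, ¬ E i v ∧ ¬ E v i) → ¬ E i i →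
  ∃ (N' : Set ℕ) (l' r' : ℕ → ℝ), Rp E (S ∪ {i}) N' l' r' ∧ (∀ v ∈ S, (v ∈ N' ↔ v ∈ N) ∧ r' v = r v ∧ r' i < r v) ∧ i ∉ N'

/-- **NI2** (40 lines). USES OB.NIL. The left end is the same as there (`EE [] = EE []`, `nn [] = 5`, `pp [] = 0`, so the conditions on `p - 1` are empty). -/
def SpecNI2 : Prop := Inv []

/-- **STB** (250 lines). USES BS2, OB.GLU, ISV. A step with the bit `false`: new vertices `z = x, t' = x+1, p' = x+2, a' = x+3` with `x = nn w`, edges `pz, zt', zp', t'p', t'a'`.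
PROOF. Coordinates for GLU (`M = r p`, status in brackets: `N`, `P` = not in `N`), always `e = 1`.
`full`: `p [N]`: `z [P] = [1,4], t' [P] = [3,7], p' [N] = [3,9], a' [N] = [5,6]`.
`del` at `u ≠ p` in `Vw w` (`Inv.del`, `p [P]`) and at `u = p` (`Inv.pdel`, `M` an upper bound): `z [N] = [1,6], t' [P] = [2,8], p' [P] = [5,12], a' [N] = [3,4]`.
The others from `Inv.full` (`p [N]`), all new vertices `[P]`: `del` at `z`: `t' = [2,8], p' = [5,12], a' = [3,4]`; at `t'`: `z = [1,4], p' = [3,9]` and ISV for `a'`;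
at `a'`: `z = [1,4], t' = [3,7], p' = [3,9]`; `pdel1` (and `pdel`): `z = [1,4], t' = [3,7], a' = [5,6]`. -/
def SpecSTB : Prop := ∀ w, Inv w → Inv (false :: w)

/-- **STS** (300 lines). USES BS2, GL2, ISV. A step with the bit `true`: also the edges `tz`, `pt'` with `t = p - 1`.
PROOF. Coordinates for GL2 (`t` is always `[P]`, `M = r t`; `l p ≤ r t` as `t, p` are adjacent and `t` is not in `N`; if `t` is deleted `M = r p`), always `e = 3, f = 1`.
`full`: `p [N]`: `z [P] = [1,6], t' [P] = [2,9], p' [N] = [5,12], a' [N] = [7,8]`.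
`del` at `u ≠ p` in `Vw w` (`Inv.del`, `p [P]`; `u = t` allowed) and at `u = p` (`Inv.pdel1`): `z [N] = [1,7], t' [P] = [2,9], p' [P] = [6,12], a' [N] = [4,5]`.
The others from `Inv.full` (`p [N]`), all new vertices `[P]`: `del` at `z`: `t' = [2,9], p' = [5,12], a' = [4,9/2]`; at `t'`: `z = [1,6], p' = [5,12]` and ISV for `a'`;
at `a'`: `z = [1,6], t' = [2,9], p' = [5,12]`; `pdel1` (and `pdel`): `z = [1,6], t' = [2,9], a' = [7,8]`. -/
def SpecSTS : Prop := ∀ w, w ≠ [] → Inv w → Inv (true :: w)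

/-- **EN2** (200 lines). USES BS2, OB.GLU. The right end: `c = n = nn w`, edges `pn, n(n+1), (n+1)(n+2), n(n+3), (n+3)(n+4)`.
PROOF. Coordinates for GLU, always `e = 1`: `u ≠ p` in `Vw w` deleted (`p [P]`) or `p` deleted: `n [N] = [1,20], n+1 [P] = [2,3], n+2 [N] = [3,4], n+3 [P] = [20,21], n+4 [P] = [21,22]`.
The others from `Inv.full`, all new vertices `[P]`: `n` deleted: `n+1 = [2,3], n+2 = [3,4], n+3 = [20,21], n+4 = [21,22]`; `n+2` deleted: `n = [1,20], n+1 = [2,3], n+3 = [20,21],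
n+4 = [21,22]`; `n+1` deleted: `n = [1,20], n+2 = [30,31], n+3 = [20,21], n+4 = [21,22]`; the other two are symmetric. -/
def SpecEN2 : Prop := ∀ w, Inv w → ∀ u < nn w + 5, Pl (EF w) ({v | v < nn w + 5} \ {u})

/-- **NET** (200 lines). USES nothing. A triangle `z, t, v`, a pendant vertex `a` at `t`, arms `z, L, y` and `v, R, y'`: then `z` or `v` is in `N`.
PROOF. Let `z, v ∉ N`. Then `z, v` overlap; `a, y, y'` are disjoint from `z` and from `v`, so each is to the left of both or to the right of both. Two of them are on the same side, by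
symmetry (`l, r ↦ -r, -l`) to the left. `L` is disjoint from `v` and `R` from `z`.
`y, y'` left: `L` meets `y` and `z`, so (being disjoint from `v`) `l z ≤ r L < l v`; in the same way `l v ≤ r R < l z`: contradiction.
`a, y` left: as before `l z ≤ r L < l v`; `t` meets `a` and `z`; so `t` and `L` both contain `l z`; they are not adjacent, so both are in `N`, and `a, y ∉ N`. `a, y` are disjoint: if `r a < l y` then `t`
contains `y`, if `r y < l a` then `L` contains `a`: contradiction (not adjacent, not both in `N`). `a, y'` left: symmetric (`z, L, y` and `v, R, y'` exchanged). -/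
def SpecNET : Prop := ∀ (E : ℕ → ℕ → Prop) (S N : Set ℕ) (l r : ℕ → ℝ), Rp E S N l r → (∀ u v, E u v → E v u) →
  ∀ z t v a L y R y' : ℕ, z ∈ S → t ∈ S → v ∈ S → a ∈ S → L ∈ S → y ∈ S → R ∈ S → y' ∈ S →
  z ≠ t → z ≠ v → z ≠ a → z ≠ L → z ≠ y → z ≠ R → z ≠ y' → t ≠ v → t ≠ a → t ≠ L → t ≠ y → t ≠ R → t ≠ y' → v ≠ a → v ≠ L → v ≠ y → v ≠ R → v ≠ y' →
  a ≠ L → a ≠ y → a ≠ R → a ≠ y' → L ≠ y → R ≠ y' →
  E z t → E z v → E t v → E t a → E z L → E L y → E v R → E R y' →
  ¬ E a z → ¬ E a v → ¬ E a L → ¬ E a y → ¬ E a R → ¬ E a y' → ¬ E L v → ¬ E L t → ¬ E R z → ¬ E R t →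
  ¬ E y z → ¬ E y v → ¬ E y t → ¬ E y' z → ¬ E y' v → ¬ E y' t → z ∈ N ∨ v ∈ N

/-- **FR2** (300 lines). USES BS2, OB.CLW, NET. The graphs are not probe graphs.
PROOF. Given a representation of `EF w`. `0 ∈ N` by CLW (arms `1, 2`; `3, 4`; `5, 6`; the first step is `false`). By induction every exit is in `N`: let `p` be the exit before the step
`z = x, t' = x+1, p' = x+2, a' = x+3` with the bit `b`; `p ∈ N`, so `z ∉ N` and NET gives `p' ∈ N` with: if `b = false`: `L = p`, `y = 1` if `p = 0` and `y = p - 2` otherwise; if `b = true`: `L = p - 1`,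
`y = p + 1`. If the next step (with `x' = x + 4`) has the bit `false`: `R = x'`, `y' = x' + 1`; if it has the bit `true`: `R = x' + 1`, `y' = x' + 3`; if it is the right end: `R = x'`, `y' = x' + 1`.
Finally `n = nn w` is in `N` by CLW (arms `n+1, n+2`; `n+3, n+4`; `pp w, pp w - 2`) and adjacent to `pp w ∈ N`. -/
def SpecFR2 : Prop := ∀ w : List Bool, w ≠ [] → Ok w → ¬ Pl (EF w) {v | v < nn w + 5}

/-- **MI2** (100 lines). USES BS2, NI2, STB, STS, EN2, FR2, OB.CNV. The graphs are minimal obstructions (compare `OB/MIN.lean`). -/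
def SpecMI2 : Prop := ∀ (w : List Bool) (n : ℕ), w ≠ [] → Ok w → n = nn w + 5 → MinObs (GG n w)

/-- **LE2** (200 lines). USES BS2. The distances (compare `OB/LEV.lean`).
PROOF. Induction on `w` (`Ok w`): `EE w u v → DD w v ≤ DD w u + 1`, and for `v < nn w`, `v ≠ 0` there is `u` with `EE w u v` and `DD w v = DD w u + 1`. For `b = true` one uses that `DD w (pp w)` and `DD w (pp w - 1)` differ by at
most one (these vertices are adjacent). -/
def SpecLE2 : Prop := ∀ (w : List Bool) (n : ℕ) (h0 : 0 < n), Ok w → n = nn w + 5 → Lev (GG n w) ⟨0, h0⟩ (fun v => DF w v)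

/-- **RO2** (300 lines). USES BS2. An isomorphism maps the vertex `0` to the vertex `0` (compare `OB/ROO.lean`).
PROOF. A leaf is a vertex with exactly one neighbour. Let `w = WW k bs`, `m = nn w`. The leaves are `2, 4, m+2, m+4` and the vertices `a' = x + 3` of the steps. Call `r` a root if there are `u, l` with `l ≠ r`, `l` a leaf, `r u l` a
path, and `r, l` are the only neighbours of `u`. The roots are `0` and `m` (the neighbour `t'` of a leaf `a'` has two more neighbours `z, p'`). The root `m` has the property Q: there are `z, x, l` with `z` adjacent to `m`, `x ≠ m` adjacent to `z`,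
`l` a leaf adjacent to `x`, and `x` has four different neighbours (`z = m-2, x = m-3, l = m-1`, neighbours `m-4, m-2, m-1, m-6` as the last step is `true`). The root `0` does not have it: `z ∈ {1, 3, 5}`, `x ∈ {2, 4, 6, 7}`; the second step is
`false`, so `6` has only the neighbours `5, 7, 8` and `7` only `5, 6, 9`; `2` and `4` have one neighbour. -/
def SpecRO2 : Prop := ∀ (k k' : ℕ) (bs bs' : List Bool) (n : ℕ) (h0 : 0 < n), n = nn (WW k bs) + 5 → n = nn (WW k' bs') + 5 →
  ∀ φ : GG n (WW k bs) ≃g GG n (WW k' bs'), φ ⟨0, h0⟩ = ⟨0, h0⟩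

/-- **CT2** (200 lines). USES BS2. The number of vertices in some levels (compare `OB/CNT.lean`).
PROOF. Let `u = wd (k+1) bs`, `T = DD u (pp u) = 2 (k+1) + 4 |bs|`; all vertices have `DD u v ≤ T + 1`. The step `false` adds the levels `T+1, T+2, T+2, T+3`; a second step `false` adds `T+3, T+4, T+4, T+5`, a second step `true` adds
`T+3, T+3, T+4, T+4`. So the level `T + 3` has `2` or `3` vertices. All later vertices have levels `≥ T + 5`, the right end too. -/
def SpecCT2 : Prop := ∀ (k : ℕ) (bs : List Bool) (j : ℕ) (hj : j < bs.length),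
  ((Finset.range (nn (WW k bs) + 5)).filter (fun v => DF (WW k bs) v = 2 * (k + 1) + 4 * (bs.length - 1 - j) + 3)).card = 2 + (bs[j]).toNat

/-- **WR2** (50 lines). USES nothing. -/
structure SpecWR2 : Prop where
  num : ∀ k bs, nn (WW k bs) + 5 = 22 + 4 * k + 8 * bs.length
  okk : ∀ k bs, Ok (WW k bs)

/-- the order `0, 1, 2, ...` of the vertices: the neighbours before a vertex `i ≠ 0` are one vertex or two adjacent vertices -/
def Eli {n : ℕ} (G : SimpleGraph (Fin n)) : Prop :=
  ∀ i : Fin n, (i : ℕ) ≠ 0 → ∃ x y : Fin n, x < i ∧ y < i ∧ (x = y ∨ G.Adj x y) ∧ ∀ j : Fin n, j < i → (G.Adj j i ↔ j = x ∨ j = y)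

/-- **ORD** (200 lines). USES BS2. PROOF. The vertices before, by cases: `1, 3`: `0`; `2`: `1`; `4`: `3`; in a step: `z`: `p` (and `t = p - 1`); `t'`: `z` (and `p`); `p'`: `z, t'`; `a'`: `t'`; right end: `n`: `p`; `n+1, n+3`: `n`; `n+2`: `n+1`; `n+4`: `n+3`. -/
def SpecORD : Prop := ∀ (w : List Bool) (n : ℕ), Ok w → n = nn w + 5 → Eli (GG n w)

/-- **TWT** (250 lines). USES nothing. Such a graph is an induced subgraph of a 2-tree.
PROOF. Induction on `n`. `n = 1`: an edge. Step: the last vertex `i` has the earlier neighbours `x, y`; let `T` be a 2-tree for the others, `e` the embedding. If `x ≠ y`: add a vertex adjacent to `e x, e y`. If `x = y`: let `h` be a neighbour of `e x` in `T` (it exists: in a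
2-tree every vertex has a neighbour), add a vertex `g` adjacent to `e x, h` (not in the image of the embedding) and then a vertex adjacent to `e x, g`. -/
def SpecTWT : Prop := ∀ (n : ℕ) (G : SimpleGraph (Fin n)), 1 ≤ n → Eli G → ∃ (M : ℕ) (T : SimpleGraph (Fin M)), IsTwoTree T ∧ Nonempty (G ↪g T)

/-- **FI2** (150 lines). USES MI2, OB.LIS, LE2, RO2, CT2, WR2, ORD, TWT. THE THEOREM (compare `OB/FIN.lean`).
PROOF. `k = R % 2`, `bs = List.ofFn f` for `f : Fin (R / 2) → Bool`, `F f = GG n (WW k bs)`. An isomorphism preserves the levels (RO2, LE2, LIS), so the numbers in CT2 agree and `f = f'`. -/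
def SpecFI2 : Prop := ∀ R : ℕ, ∃ F : (Fin (R / 2) → Bool) → SimpleGraph (Fin (4 * R + 22)),
  (∀ f, MinObs (F f) ∧ ∃ (M : ℕ) (T : SimpleGraph (Fin M)), IsTwoTree T ∧ Nonempty (F f ↪g T)) ∧
  ∀ f g, f ≠ g → IsEmpty (F f ≃g F g)

end Pool.Agent.Lib.MPc95e9c.CH
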